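import Pool.Agent.Lib.MP_aa40d3_nt.RC.Lst
import Pool.Agent.Lib.MP_aa40d3_nt.GE.GM

/-! Every curve is a simple covering, and a free point has a free value. -/

set_option linter.unusedSectionVars false

open Polynomial Module
open scoped Polynomial.Bivariate IntermediateField

namespace Pool.Agent.GR.RC

open Pool.Agent.Lib.MP_a01f70_lc.QQ Pool.Agent.GR.CV Pool.Agent.GR.GE FB FK

variable {F : Type} [Field F] [Algebra ℂ F] [IsFF F] {Sg : Finset (Place ℂ F)}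
  {θ : Derivation ℤ F F} {δ : Derivation ℤ ℂ ℂ}

theorem cov_reg {x : F} (hx : Transcendental ℂ x) (h2 : Ext θ δ) (h3 : θ x = 0)
    (h1 : ∀ p : Place ℂ F, ram p x ≠ 1 → δ (val p x) = 0) (p : Place ℂ F) : Reg θ p := by
  by_cases hp : ram p x = 1
  · exact h2.reg hx h3 hp
  · exact (h2.lg hx h3 (h1 p hp)).reg

theorem cov_low {p : Place ℂ F} (h : Reg θ p) (e : ℕ) :
    ∀ u, p.Ge u (e + 1) → p.Ge (θ u) e := by
  obtain ⟨π, h0, hπ⟩ := p.surj
  induction e with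
  | zero => exact fun u hu => h u (hu.mono (by omega))
  | succ e ih =>
    intro u hu
    obtain ⟨w, rfl⟩ : ∃ w, u = w * π := ⟨u / π, (div_mul_cancel₀ u h0).symm⟩
    have hw : p.Ge w (e + 1) := ((Place.ge_mul_iff h0).1 hu).mono (by omega)
    rw [θ.leibniz, smul_eq_mul, smul_eq_mul]
    exact ((hw.mul (h π (Place.Ge.of_le (by omega)))).mono (by omega)).add
      (((Place.Ge.of_le hπ.ge).mul (ih w hw)).mono (by omega))

/-- A generic function: it can be moved in all directions. -/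
theorem exists_gen2 (R : RRData ℂ F) (Sg : Finset (Place ℂ F)) {x : F}
    (hx : Transcendental ℂ x) (κ : Finset ℂ)
    (hκ : ∀ p : Place ℂ F, ram p x ≠ 1 ∨ p ∈ Sg → val p x ∈ acl (κ : Set ℂ)) {d : ℕ}
    (hd : 2 * R.g ≤ d) (h0 : 0 < d) :
    ∃ (f : F) (q : Fin d → Place ℂ F) (E : Div ℂ F), Function.Injective q ∧
      (∀ j, q j ∉ Sg ∧ (q j).ord f = -1) ∧ (∀ p, p ∉ Set.range q → p.Ge f 0) ∧ deg E = d ∧
      (∀ p, p ∉ Set.range q → E p = 0) ∧ ∀ δ₀ : Derivation ℤ ℂ ℂ,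
        (∀ p : Place ℂ F, ram p x ≠ 1 → δ₀ (val p x) = 0) → ∀ h ∈ L E,
        ∃ (θ : Derivation ℤ F F) (δ : Derivation ℤ ℂ ℂ), Ext θ δ ∧ θ x = 0 ∧
          (∀ a ∈ acl (κ : Set ℂ), δ a = δ₀ a) ∧ θ f = h := by
  classical
  have hg0 := R.g_nonneg
  obtain ⟨m, hm⟩ : ∃ m : ℕ, (m : ℤ) = d + 1 - R.g := ⟨(d + 1 - R.g).toNat, by omega⟩
  obtain ⟨c, hc⟩ := exists_indep κ (Fin d ⊕ Fin m)
  choose q hq using fun j : Fin d => exists_zero R (ga_sub hx (c (.inl j)))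
  have hval : ∀ j, val (q j) x = c (.inl j) := fun j => val_eq (Place.Ge.of_le (hq j))
  have hnot : ∀ j, ¬(ram (q j) x ≠ 1 ∨ q j ∈ Sg) := fun j h =>
    hc.transcendental (.inl j) (by
      have h1 := hκ _ h
      rw [hval] at h1
      exact isAlgebraic_algebraMap (⟨_, h1⟩ : acl (κ : Set ℂ)))
  have hinj : Function.Injective q := fun i j h =>
    Sum.inl_injective (hc.injective (by rw [← hval, ← hval, h]))
  obtain ⟨E, hE, hE1, hE0⟩ := ga_div hinj
  have := R.fd E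
  have hl : finrank ℂ (L E) = m := by
    have h1 := R.ell_large (D := E) (by omega)
    unfold ell at h1
    omega
  have hr : (q ⟨0, h0⟩).ord (x - algebraMap ℂ F (c (.inl ⟨0, h0⟩))) = 1 := by
    have h1 := not_not.1 (not_or.1 (hnot ⟨0, h0⟩)).1
    rwa [ram, hval] at h1
  obtain ⟨φ, hφ, hφx⟩ := exists_at _ hr
  obtain ⟨b₀, hb₀⟩ := echelon (L E) φ
  let b : Basis (Fin m) ℂ (L E) := b₀.reindex (finCongr hl)
  choose D hD hD1 hD0 using exists_dual _ hc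
  have key : ∀ δ₀ : Derivation ℤ ℂ ℂ, (∀ p : Place ℂ F, ram p x ≠ 1 → δ₀ (val p x) = 0) →
      ∀ h ∈ L E, ∃ (θ : Derivation ℤ F F) (δ : Derivation ℤ ℂ ℂ), Ext θ δ ∧ θ x = 0 ∧
        (∀ a ∈ acl (κ : Set ℂ), δ a = δ₀ a) ∧ θ (∑ i, c (.inr i) • (b i : F)) = h := by
    intro δ₀ h1 h hh
    obtain ⟨a, ha⟩ : ∃ a : Fin d ⊕ Fin m → ℂ, a = Sum.elim (fun _ => 0) (b.repr ⟨h, hh⟩) :=
      ⟨_, rfl⟩
    obtain ⟨δ, hδ⟩ : ∃ δ : Derivation ℤ ℂ ℂ, ∀ u, δ u = δ₀ u + ∑ s, (a s - δ₀ (c s)) * D s u := by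
      refine ⟨δ₀ + ∑ s, (a s - δ₀ (c s)) • D s, fun u => ?_⟩
      rw [Derivation.add_apply, ← Derivation.coeFnAddMonoidHom_apply (∑ s, _), map_sum,
        Finset.sum_apply]
      rfl
    have k1 : ∀ u ∈ acl (κ : Set ℂ), δ u = δ₀ u := fun u hu => by
      rw [hδ, Finset.sum_eq_zero fun s _ => by rw [hD s u hu, mul_zero], add_zero]
    have k2 : ∀ s, δ (c s) = a s := fun s => by
      rw [hδ, Finset.sum_eq_single s (fun l _ hl => by rw [hD0 l s hl.symm, mul_zero]) (by simp),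
        hD1, mul_one, add_sub_cancel]
    have k3 : ∀ j, δ (c (.inl j)) = 0 := fun j => by rw [k2, ha]; rfl
    obtain ⟨θ, h2, h3⟩ := exists_ext δ hx 0
    refine ⟨θ, δ, h2, h3, k1, ?_⟩
    rw [ga_sum h2 _ fun i => ?_]
    · have h4 := congrArg Subtype.val (b.sum_repr ⟨h, hh⟩)
      rw [Submodule.coe_sum] at h4
      refine Eq.trans (Finset.sum_congr rfl fun i _ => ?_) h4
      rw [k2, ha]
      rfl
    rw [Basis.reindex_apply]
    refine hb₀ θ δ (h2.comm hφ (ga_sub hx (c (.inl ⟨0, h0⟩))) ?_ ?_) (fun u => L_stab fun p => ?_) _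
    · rw [map_sub, h3, h2, k3, map_zero, sub_zero]
    · rw [hφx]
      exact single_cd δ 1
    · by_cases hp : p ∈ Set.range q
      · obtain ⟨j, rfl⟩ := hp
        exact Or.inl (h2.lg hx h3 (by rw [hval, k3]))
      · exact Or.inr ⟨hE0 p hp, cov_reg hx h2 h3
          (fun p hp => (k1 _ (hκ p (Or.inl hp))).trans (h1 p hp)) p⟩
  have hf : ∑ i, c (.inr i) • (b i : F) ∈ L E :=
    Submodule.sum_mem _ fun i _ => Submodule.smul_mem _ _ (b i).2
  refine ⟨_, q, E, hinj, fun j => ⟨(not_or.1 (hnot j)).2, ?_⟩, fun p hp => ?_, hE, hE0, key⟩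
  · have h1 := mem_L.1 hf (q j)
    rw [hE1] at h1
    suffices h : ¬(q j).Ge (∑ i, c (.inr i) • (b i : F)) 0 by
      obtain ⟨h2, h3⟩ := Place.not_ge_iff.1 h
      have := h1.le h2
      omega
    intro h
    have h3 : L E ≤ L (E - Finsupp.single (q j) 1) := fun u hu => mem_L.2 fun p => by
      by_cases hp : p = q j
      · subst hp
        obtain ⟨θ, δ, k1, k2, k3, rfl⟩ := key 0 (fun _ _ => rfl) u hu
        rw [Finsupp.sub_apply, hE1, Finsupp.single_eq_same, sub_self, neg_zero]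
        exact cov_reg hx k1 k2 (fun p hp => k3 _ (hκ p (Or.inl hp))) _ _ h
      · rw [Finsupp.sub_apply, Finsupp.single_eq_of_ne hp, sub_zero]
        exact mem_L.1 hu p
    have := R.fd (E - Finsupp.single (q j) 1)
    have h4 := Submodule.finrank_mono h3
    have h5 := R.ell_large (D := E - Finsupp.single (q j) 1) (by rw [map_sub, deg_single]; omega)
    rw [map_sub, deg_single] at h5
    unfold ell at h5
    omega
  · have h1 := mem_L.1 hf p
    rwa [hE0 p hp, neg_zero] at h1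

/-- Functions separate points and tangent vectors. -/
theorem cov_sep (R : RRData ℂ F) {E : Div ℂ F} (hE : 2 * R.g < deg E) {p p' : Place ℂ F}
    (hp : E p = 0) (hp' : E p' = 0) :
    ∃ h ∈ L E, p.Ge h 1 ∧ (p = p' → ¬ p.Ge h 2) ∧ (p ≠ p' → ¬ p'.Ge h 1) := by
  classical
  have h1 := R.ell_large (D := E - Finsupp.single p 1) (by rw [map_sub, deg_single]; omega)
  have h2 := R.ell_large (D := E - Finsupp.single p 1 - Finsupp.single p' 1)
    (by rw [map_sub, map_sub, deg_single, deg_single]; omega)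
  simp only [map_sub, deg_single, ell] at h1 h2
  have := R.fd (E - Finsupp.single p 1 - Finsupp.single p' 1)
  obtain ⟨h, k1, k2⟩ : ∃ h ∈ L (E - Finsupp.single p 1),
      h ∉ L (E - Finsupp.single p 1 - Finsupp.single p' 1) :=
    SetLike.not_le_iff_exists.1 fun h => by
      have := Submodule.finrank_mono h
      omega
  have k3 : ∀ m, p'.Ge h m → m = -(E - Finsupp.single p 1 - Finsupp.single p' 1 : Div ℂ F) p' →
      False := fun m k4 k5 => k2 (mem_L.2 fun v => by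
    by_cases hv : v = p'
    · rw [hv, ← k5]
      exact k4
    · rw [Finsupp.sub_apply, Finsupp.single_eq_of_ne hv, sub_zero]
      exact mem_L.1 k1 v)
  refine ⟨h, mem_L.2 fun v => (mem_L.1 k1 v).mono ?_, ?_, fun e k => k3 2 (e ▸ k) ?_,
    fun e k => k3 1 k ?_⟩
  · rw [Finsupp.sub_apply, Finsupp.single_apply]
    split_ifs <;> omega
  · simpa [hp] using mem_L.1 k1 p
  · simp [← e, hp]
  · simp [hp', Finsupp.single_eq_of_ne' e]

theorem fib_of (R : RRData ℂ F) {f : F} {d : ℕ} {q : Fin d → Place ℂ F} (h0 : 0 < d)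
    (hq : Function.Injective q) (h1 : ∀ j, (q j).ord f = -1)
    (h2 : ∀ p, p ∉ Set.range q → p.Ge f 0) (c : ℂ) (s : Finset (Place ℂ F))
    (hs : ∀ p : Place ℂ F, p.Ge f 0 → val p f = c → ram p f ≠ 1 ∨ p ∈ Sg → p ∈ s)
    (hs' : ∀ p ∈ s, 0 ≤ ram p f) {m : ℕ} (hm : m = 0 ∨ m + ∑ p ∈ s, ram p f ≤ d) :
    Fib Sg f c 1 m := by
  classical
  obtain ⟨Z, hZ, hz⟩ := gn_fibre R h0 hq h1 h2 c
  have k : ∀ p ∈ Z \ s, ram p f = 1 ∧ p ∉ Sg := fun p hp => by
    obtain ⟨k1, k2⟩ := Finset.mem_sdiff.1 hp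
    have := mt (hs p ((hZ p).1 k1).1 ((hZ p).1 k1).2) k2
    push Not at this
    exact this
  rw [← Finset.sum_inter_add_sum_sdiff Z s, Finset.sum_congr rfl fun p hp => (k p hp).1,
    Finset.sum_const, nsmul_one] at hz
  have := Finset.sum_le_sum_of_subset_of_nonneg (Finset.inter_subset_right (s₁ := Z))
    (f := fun p => ram p f) fun p hp _ => hs' p hp
  exact gn_pls (s := Z \ s) (by omega) fun p hp =>
    ⟨(k p hp).2, ((hZ p).1 (Finset.mem_sdiff.1 hp).1).2 ▸ (k p hp).1⟩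

theorem exists_simple {p₀ : Place ℂ F} (h0 : p₀ ∈ Sg) (h : Free Sg p₀) :
    ∃ (f : F) (v : Place ℂ F → ℂ), finrank ℂ⟮f⟯ F = 2 * genus F + 1 ∧
    Fib Sg f 0 (-1) (2 * genus F + 1) ∧ (∀ c, Fib Sg f c 1 (2 * genus F + 1 - 1) ∨
      (Fib Sg f c 2 1 ∧ Fib Sg f c 1 (2 * genus F + 1 - 2))) ∧
    (∀ p ∈ Sg, p.ord (f - algebraMap ℂ F (v p)) = 1) ∧ Set.InjOn v Sg ∧
    Transcendental (IntermediateField.adjoin ℚ
      {c | c ≠ v p₀ ∧ ¬ Fib Sg f c 1 (2 * genus F + 1)}) (v p₀) := by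
  obtain ⟨z, c₀, K, hc, h1, h2⟩ := h
  obtain ⟨R, hR⟩ := exists_can (F := F)
  have hg := hR.g_eq
  generalize hd : 2 * genus F + 1 = d
  have hz : Transcendental ℂ z := fun h =>
    transcendental_of_ord p₀ h1.ne' (h.sub (isAlgebraic_algebraMap _))
  obtain ⟨κ, hκ, -⟩ := exists_kappa hR Sg hz 0
  have hκ' := fun p hp => subset_acl _ (Finset.mem_coe.2 (hκ p hp))
  obtain ⟨f, q, E, hq, k1, k2, k3, k4, k5⟩ := exists_gen2 R Sg hz κ hκ' (d := d) (by omega) (by omega)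
  have k1' := fun j => (k1 j).2
  have hf : Transcendental ℂ f := transcendental_of_ord (q ⟨0, by omega⟩) (by rw [k1']; omega)
  have hSg : ∀ p ∈ Sg, p.Ge f 0 := fun p hp => k2 p fun ⟨j, hj⟩ => (k1 j).1 (hj ▸ hp)
  have key : ∀ {θ : Derivation ℤ F F} {δ : Derivation ℤ ℂ ℂ}, Ext θ δ → θ z = 0 →
      (∀ p : Place ℂ F, ram p z ≠ 1 → δ (val p z) = 0) → ∀ (p : Place ℂ F) (m : ℕ), p.Ge f 0 →
      m + 1 ≤ ram p f ∨ (δ (val p z) = 0 ∧ m ≤ ram p f) →
      p.Ge (θ f - algebraMap ℂ F (δ (val p f))) m := fun {θ δ} l1 l2 l3 p m hp hm => by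
    rw [← l1, ← map_sub]
    rcases hm with hm | hm
    · exact cov_low (cov_reg hz l1 l2 l3 p) m _ (.of_le hm)
    · exact l1.lg hz l2 hm.1 _ _ (.of_le hm.2)
  have sp : ∀ p p' : Place ℂ F, p.Ge f 0 → p'.Ge f 0 → ram p f ≠ 1 ∨ p ∈ Sg →
      ram p' f ≠ 1 ∨ p' ∈ Sg → val p f = val p' f →
      p = p' ∧ ram p f ≤ 2 ∧ (p ∈ Sg → ram p f = 1) := fun p p' hp hp' s s' e => by
    obtain ⟨h, l1, l2, l3, l4⟩ := cov_sep R (by omega) (k4 p (gn1_notMem k1' hp))
      (k4 p' (gn1_notMem k1' hp'))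
    obtain ⟨θ, δ, l5, l6, l7, rfl⟩ := k5 0 (fun _ _ => rfl) h l1
    have l8 := key l5 l6 fun p hp => l7 _ (hκ' p (Or.inl hp))
    have l9 : ∀ p : Place ℂ F, p.Ge f 0 → ram p f ≠ 1 ∨ p ∈ Sg →
        p.Ge (θ f - algebraMap ℂ F (δ (val p f))) 1 := fun p hp s => by
      have := ram_pos hf hp
      exact l8 p 1 hp (s.imp (fun _ => by omega) fun s => ⟨l7 _ (hκ' p (Or.inr s)), by omega⟩)
    have l0 : δ (val p f) = 0 := p.const_eq_zero_of_ge (by simpa using l2.sub (l9 p hp s))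
    obtain rfl : p = p' := by_contra fun n => l4 n (by simpa [← e, l0] using l9 p' hp' s')
    have := ram_pos hf hp
    refine ⟨rfl, by_contra fun n => l3 rfl ?_, fun s => by_contra fun n => l3 rfl ?_⟩
    · simpa [l0] using l8 p 2 hp (Or.inl (by omega))
    · simpa [l0] using l8 p 2 hp (Or.inr ⟨l7 _ (hκ' p (Or.inr s)), by omega⟩)
  have fib := fib_of (Sg := Sg) R (by omega) hq k1' k2
  have f0 : ∀ c, (∀ p : Place ℂ F, p.Ge f 0 → val p f = c → ¬ (ram p f ≠ 1 ∨ p ∈ Sg)) →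
      Fib Sg f c 1 d := fun c h => fib c ∅ (fun p l1 l2 l3 => (h p l1 l2 l3).elim) (by simp) (by simp)
  refine ⟨f, fun p => val p f, (count hR Sg (by omega) hq k1 k2).1, Fib.pls0.2 ⟨q, hq, k1⟩,
    fun c => ?_, fun p hp => (sp p p (hSg p hp) (hSg p hp) (.inr hp) (.inr hp) rfl).2.2 hp,
    fun p hp p' hp' e => (sp p p' (hSg p hp) (hSg p' hp') (.inr hp) (.inr hp') e).1, fun h => ?_⟩
  · by_cases h : ∃ p : Place ℂ F, p.Ge f 0 ∧ val p f = c ∧ (ram p f ≠ 1 ∨ p ∈ Sg)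
    · obtain ⟨p, l1, rfl, l2⟩ := h
      have := ram_pos hf l1
      obtain ⟨-, l3, l4⟩ := sp p p l1 l1 l2 l2 rfl
      have l5 := fun m => fib _ {p} (fun p' a b c => Finset.mem_singleton.2 (sp p' p a l1 c l2 b).1)
        (fun p' a => by rw [Finset.mem_singleton.1 a]; omega) (m := m)
      simp only [Finset.sum_singleton] at l5
      by_cases l6 : ram p f = 1
      · exact Or.inl (l5 _ (by omega))
      · exact Or.inr ⟨⟨fun _ => p, Function.injective_of_subsingleton _, fun _ =>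
          ⟨mt l4 l6, (by omega : ram p f = 2)⟩⟩, l5 _ (by omega)⟩
    · exact Or.inl (fib_mono (f0 c fun p a b c => h ⟨p, a, b, c⟩) (by omega))
  · have hK : ∀ p : Place ℂ F, ram p z ≠ 1 ∨ (p ∈ Sg ∧ p ≠ p₀) → val p z ∈ K := fun p s => by
      by_cases hp : p.Ge z 0
      · have := ram_pos hz hp
        exact h2 p _ (s.imp (fun s => (by omega : 2 ≤ ram p z)) fun s => ⟨s.1, s.2, this⟩)
      · rw [val_pole (Place.not_ge_iff.1 hp).2]
        exact zero_mem K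
    obtain ⟨δ₀, l1, l2, -⟩ := exists_dual K (c := fun _ : Unit => c₀)
      (algebraicIndependent_unique_type_iff.2 hc) ()
    obtain ⟨θ, δ, l3, l4, l5, l6⟩ := k5 δ₀ (fun p hp => l1 _ (hK p (.inl hp))) 0 (zero_mem _)
    have l7 : Kills δ {c | c ≠ val p₀ f ∧ ¬ Fib Sg f c 1 d} := fun c hc => by
      by_contra n
      refine hc.2 (f0 c fun p a b s => n ?_)
      subst b
      have := ram_pos hf a
      have l8 := key l3 l4 (fun p hp => (l5 _ (hκ' p (.inl hp))).trans (l1 _ (hK p (.inl hp)))) p 1 a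
        (s.imp (fun _ => by omega) fun s => ⟨(l5 _ (hκ' p (.inr s))).trans
          (l1 _ (hK p (.inr ⟨s, fun e => hc.1 (by rw [e])⟩))), by omega⟩)
      exact p.const_eq_zero_of_ge (by simpa [l6] using l8.neg)
    have l8 := l3.lg hf l6 (l7.acl _ (mem_acl.2 h)) _ _ (Place.Ge.of_le (m := 1) h1)
    have l9 := l5 _ (hκ' p₀ (.inr h0))
    rw [val_eq (Place.Ge.of_le (m := 1) h1), l2] at l9
    rw [map_sub, l4, l3, l9, zero_sub] at l8
    exact one_ne_zero (p₀.const_eq_zero_of_ge (by simpa using l8.neg))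

end Pool.Agent.GR.RC
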