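import Pool.Agent.Lib.MP_aa40d3_nt.RC.DefsB
import Pool.Agent.Lib.MP_aa40d3_nt.FK.Fib

/-! The special values in a list, in the left half plane, with different real parts. -/

open Polynomial Module
open scoped Polynomial.Bivariate IntermediateField

namespace Pool.Agent.GR.RC

open Pool.Agent.Lib.MP_a01f70_lc.QQ Pool.Agent.GR.CV Pool.Agent.GR.GE FB FK

variable {F : Type} [Field F] [Algebra ℂ F] [IsFF F] {Sg : Finset (Place ℂ F)} {f : F} {d : ℕ}

theorem fib_le2 (h0 : 0 < d) (hdeg : finrank ℂ⟮f⟯ F = d) (h1 : Fib Sg f 0 (-1) d) {c : ℂ} {m : ℕ}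
    (h : Fib Sg f c 1 m) (s : Finset (Place ℂ F)) (hs : ∀ p ∈ s, 1 ≤ p.ord (f - algebraMap ℂ F c) ∧
      (p ∈ Sg ∨ 2 ≤ p.ord (f - algebraMap ℂ F c))) :
    m + ∑ p ∈ s, p.ord (f - algebraMap ℂ F c) ≤ d := by
  classical
  obtain ⟨q, hq, h2⟩ := h
  have k := fib_le h0 hdeg h1 c (Finset.univ.image q ∪ s) fun p hp => by
    rcases Finset.mem_union.1 hp with hp | hp
    · obtain ⟨j, -, rfl⟩ := Finset.mem_image.1 hp
      exact (h2 j).2.ge
    · exact (hs p hp).1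
  rw [Finset.sum_union (Finset.disjoint_left.2 fun p hp hp' => by
    obtain ⟨j, -, rfl⟩ := Finset.mem_image.1 hp
    have := ((hs _ hp').2).resolve_left (h2 j).1
    have := (h2 j).2
    omega), Finset.sum_image hq.injOn] at k
  simpa [fun j => (h2 j).2] using k

theorem fib_fin (h0 : 0 < d) (hdeg : finrank ℂ⟮f⟯ F = d) (h1 : Fib Sg f 0 (-1) d) :
    {c | ¬ Fib Sg f c 1 d}.Finite := by
  classical
  obtain ⟨R, hR⟩ := exists_can (F := F)
  have hf : Transcendental ℂ f := tr_of_rank (by omega)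
  obtain ⟨q, hq, h3⟩ := Fib.pls0.1 h1
  have h3' := fun j => (h3 j).2
  have h4 := poles_all R hf hdeg hq h3'
  obtain ⟨-, T, hT, -⟩ := count hR Sg h0 hq h3 h4
  refine T.finite_toSet.subset fun c hc => ?_
  by_contra hn
  obtain ⟨Z, hZ, hz⟩ := gn_fibre R h0 hq h3' h4 c
  have k : ∀ p ∈ Z, ram p f = 1 ∧ p ∉ Sg := fun p hp => by
    have := mt (hT p ((hZ p).1 hp).1) (by rw [((hZ p).1 hp).2]; exact hn)
    push Not at this
    exact this
  rw [Finset.sum_congr rfl fun p hp => (k p hp).1, Finset.sum_const, nsmul_one] at hz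
  exact hc (gn_pls (s := Z) (by exact_mod_cast hz.ge) fun p hp =>
    ⟨(k p hp).2, ((hZ p).1 hp).2 ▸ (k p hp).1⟩)

theorem exists_list1 (h0 : d ≠ 0) (hdeg : finrank ℂ⟮f⟯ F = d) (h1 : Fib Sg f 0 (-1) d)
    (h2 : ∀ c, Fib Sg f c 1 (d - 1) ∨ (Fib Sg f c 2 1 ∧ Fib Sg f c 1 (d - 2))) :
    ∃ (n : ℕ) (t : Fin n → ℂ) (M : Finset (Fin n)), Function.Injective t ∧
      (∀ i, ¬ Fib Sg f (t i) 1 d) ∧ (2 ≤ d → 1 ≤ genus F → 2 * d ≤ M.card) ∧
      (∀ i ∈ M, 2 ≤ d ∧ Fib Sg f (t i) 2 1 ∧ Fib Sg f (t i) 1 (d - 2)) ∧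
      (∀ i, i ∉ M → Fib Sg f (t i) 1 (d - 1)) ∧ (∀ c, c ∉ Set.range t → Fib Sg f c 1 d) ∧
      ∀ c, ∀ p ∈ Sg, p.ord (f - algebraMap ℂ F c) = 1 → ∃ i, i ∉ M ∧ t i = c := by
  classical
  have hd : 0 < d := by omega
  have hT := fib_fin hd hdeg h1
  set T := hT.toFinset
  let t : Fin T.card → ℂ := fun i => (T.equivFin.symm i).1
  have ht : ∀ c, ¬ Fib Sg f c 1 d → c ∈ Set.range t := fun c hc =>
    ⟨T.equivFin ⟨c, hT.mem_toFinset.2 hc⟩, congrArg Subtype.val (T.equivFin.symm_apply_apply _)⟩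
  have hb : ∀ c, Fib Sg f c 2 1 → 2 ≤ d ∧ Fib Sg f c 2 1 ∧ Fib Sg f c 1 (d - 2) := fun c h => by
    refine ⟨?_, h, (h2 _).elim (fun h => fib_mono h (by omega)) fun h => h.2⟩
    obtain ⟨q, -, hq⟩ := h
    have k := fib_le hd hdeg h1 c {q 0} fun p hp => by
      rw [Finset.mem_singleton.1 hp, (hq 0).2]
      omega
    rw [Finset.sum_singleton, (hq 0).2] at k
    omega
  refine ⟨_, t, Finset.univ.filter fun i => Fib Sg f (t i) 2 1,
    Subtype.val_injective.comp T.equivFin.symm.injective,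
    fun i => hT.mem_toFinset.1 (T.equivFin.symm i).2, fun k1 k2 => ?_,
    fun i hM => hb _ (Finset.mem_filter.1 hM).2, fun i hM => ?_,
    fun c hc => not_not.1 fun h => hc (ht c h), fun c p hp e => ?_⟩
  · obtain ⟨-, B, hB, hc⟩ := fib_data k1 hdeg h1 h2
    have k : B ⊆ (Finset.univ.filter fun i => Fib Sg f (t i) 2 1).image t := fun c hc => by
      obtain ⟨i, rfl⟩ := ht c (not_fib hd hdeg h1 (hB c hc))
      exact Finset.mem_image_of_mem _ (Finset.mem_filter.2 ⟨Finset.mem_univ _, hB _ hc⟩)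
    have := (Finset.card_le_card k).trans Finset.card_image_le
    omega
  · exact (h2 _).resolve_right fun h => hM (Finset.mem_filter.2 ⟨Finset.mem_univ _, h.1⟩)
  · obtain ⟨i, rfl⟩ := ht c fun h => by
      have k := fib_le2 hd hdeg h1 h {p} fun x hx => by
        rw [Finset.mem_singleton.1 hx]
        exact ⟨e.ge, Or.inl hp⟩
      rw [Finset.sum_singleton, e] at k
      omega
    refine ⟨i, fun hM => ?_, rfl⟩
    obtain ⟨k1, ⟨q, -, hq⟩, k2⟩ := hb _ (Finset.mem_filter.1 hM).2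
    have k := fib_le2 hd hdeg h1 k2 {p, q 0} fun x hx => by
      rcases Finset.mem_insert.1 hx with rfl | hx
      · exact ⟨e.ge, Or.inl hp⟩
      · rw [Finset.mem_singleton.1 hx, (hq 0).2]
        exact ⟨one_le_two, Or.inr le_rfl⟩
    rw [Finset.sum_pair fun h : p = q 0 => (hq 0).1 (h ▸ hp), e, (hq 0).2] at k
    omega

theorem gen_sub {n : ℕ} {t : Fin n → ℂ} {o : Fin n} (h : Gen {o} t) (N : ℕ) :
    Gen {o} fun i => t i - N := by
  obtain ⟨B, h1, h2⟩ := h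
  refine ⟨B, fun j hj => sub_mem (h1 j hj) (natCast_mem B N), ?_⟩
  have : Unique ({o} : Finset (Fin n)) := inferInstance
  rw [algebraicIndependent_unique_type_iff] at h2 ⊢
  exact fun h => h2 (by simpa using h.add (isAlgebraic_natCast N))

theorem exists_list2 (h0 : d ≠ 0) (hdeg : finrank ℂ⟮f⟯ F = d) (h1 : Fib Sg f 0 (-1) d)
    (h2 : ∀ c, Fib Sg f c 1 (d - 1) ∨ (Fib Sg f c 2 1 ∧ Fib Sg f c 1 (d - 2))) {c₀ : ℂ}
    (h3 : ∃ p ∈ Sg, p.ord (f - algebraMap ℂ F c₀) = 1)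
    (h4 : Transcendental (IntermediateField.adjoin ℚ {c | c ≠ c₀ ∧ ¬ Fib Sg f c 1 d}) c₀) :
    ∃ (f' : F) (n : ℕ) (t : Fin n → ℂ) (M : Finset (Fin n)) (o : Fin n),
      finrank ℂ⟮f'⟯ F = d ∧ Fib Sg f' 0 (-1) d ∧ (Function.Injective fun i => (t i).re) ∧
      (∀ i, (t i).re < 0) ∧ Gen {o} t ∧ (2 ≤ d → 1 ≤ genus F → 2 * d ≤ M.card) ∧
      (∀ i ∈ M, 2 ≤ d ∧ Fib Sg f' (t i) 2 1 ∧ Fib Sg f' (t i) 1 (d - 2)) ∧
      (∀ i, i ∉ M → Fib Sg f' (t i) 1 (d - 1)) ∧ (∀ c, c ∉ Set.range t → Fib Sg f' c 1 d) ∧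
      ∀ c, ∀ p ∈ Sg, p.ord (f - algebraMap ℂ F c) = 1 →
        ∃ i, i ∉ M ∧ p.ord (f' - algebraMap ℂ F (t i)) = 1 ∧ (i = o ↔ c = c₀) := by
  obtain ⟨n, t, M, k1, k2, k3, k4, k5, k6, k7⟩ := exists_list1 h0 hdeg h1 h2
  obtain ⟨p₀, l1, l2⟩ := h3
  obtain ⟨o, -, rfl⟩ := k7 c₀ p₀ l1 l2
  obtain ⟨t', η, hη, e, l3, l4⟩ := exists_rotation3 k1
    (gen_one (fun j hj => IntermediateField.subset_adjoin ℚ _ (And.intro (k1.ne hj) (k2 j))) h4)
  obtain ⟨N, hN⟩ := exists_nat_gt (∑ i, |(t' i).re|)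
  have ho : ∀ (p : Place ℂ F) (c : ℂ), p.ord (η⁻¹ • f - algebraMap ℂ F N - algebraMap ℂ F c) =
      p.ord (f - algebraMap ℂ F (η * (c + N))) := fun p c => by
    rw [← p.ord_smul (inv_ne_zero hη) (f - _), smul_sub, Algebra.smul_def _ (algebraMap ℂ F _),
      ← map_mul, inv_mul_cancel_left₀ hη, map_add, sub_sub, add_comm]
  have hf : ∀ c e m, Fib Sg (η⁻¹ • f - algebraMap ℂ F N) c e m ↔ Fib Sg f (η * (c + N)) e m :=
    fun c e m => by simp only [Fib, ho]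
  have ht : ∀ i, η * (t' i - N + N) = t i := fun i => by rw [e i, sub_add_cancel, add_zero]
  refine ⟨η⁻¹ • f - algebraMap ℂ F N, n, fun i => t' i - N, M, o, ?_, ?_, fun i j h => l4 ?_,
    fun i => ?_, gen_sub l3 N, k3, fun i hi => ?_, fun i hi => ?_, fun c hc => ?_,
    fun c p hp h => ?_⟩
  · rw [← hdeg]
    suffices h : ℂ⟮η⁻¹ • f - algebraMap ℂ F N⟯ = ℂ⟮f⟯ by rw [h]
    refine le_antisymm (IntermediateField.adjoin_simple_le_iff.2 (sub_mem
      (IntermediateField.smul_mem _ (IntermediateField.mem_adjoin_simple_self ℂ f))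
      (IntermediateField.algebraMap_mem _ _))) (IntermediateField.adjoin_simple_le_iff.2 ?_)
    have := IntermediateField.smul_mem _ (x := η) (add_mem
      (IntermediateField.mem_adjoin_simple_self ℂ (η⁻¹ • f - algebraMap ℂ F N))
      (IntermediateField.algebraMap_mem _ (N : ℂ)))
    rwa [sub_add_cancel, smul_inv_smul₀ hη] at this
  · obtain ⟨q, hq, h⟩ := h1
    refine ⟨q, hq, fun j => ⟨(h j).1, ?_⟩⟩
    have h5 := (h j).2
    rw [map_zero, sub_zero] at h5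
    rw [ho, sub_eq_add_neg, ← h5]
    refine (Place.ord_add_of_ge (v := q j) (f := f) (fun h6 => ?_) ?_).2
    · rw [h6, Place.ord_zero'] at h5
      omega
    · rw [h5]
      exact ((q j).ge_const _).neg
  · simpa using h
  · have := (le_abs_self _).trans
      (Finset.single_le_sum (f := fun i => |(t' i).re|) (fun _ _ => abs_nonneg _) (Finset.mem_univ i))
    simp only [Complex.sub_re, Complex.natCast_re]
    linarith
  · simpa only [hf, ht] using k4 i hi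
  · simpa only [hf, ht] using k5 i hi
  · refine (hf ..).2 (k6 _ fun ⟨i, hi⟩ => hc ⟨i, ?_⟩)
    exact add_right_cancel (mul_left_cancel₀ hη ((ht i).trans hi))
  · obtain ⟨i, hi, rfl⟩ := k7 c p hp h
    exact ⟨i, hi, by rw [ho, ht, h], k1.eq_iff.symm⟩

end Pool.Agent.GR.RC
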