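import Pool.Agent.Lib.MP_aa40d3_nt.RC.DefsB
import Pool.Agent.Lib.MP_aa40d3_nt.CV.Main

/-! Frames with given exponents. -/

open Polynomial Matrix
open scoped Polynomial.Bivariate

namespace Pool.Agent.GR.RC

open CV

variable {N n r d : ℕ}

/-- Constant terms in `MSol` after cancelling `sL`; `Det` gives the invertibility. -/
theorem res_conj {δ : ℂ[X]} {Q : PM N} {t : ℂ} {V Cm : LM N} (hδ : δ.eval t = 0)
    (h : MSol δ Q (xt t 1) V Cm) (hC : ∀ i j, Ov 0 (Cm i j)) (hV : Det t 1 V) :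
    (V.map fun f => f.coeff 0).det ≠ 0 ∧ Q.map (eval t) * (V.map fun f => f.coeff 0) =
      (derivative δ).eval t • ((V.map fun f => f.coeff 0) * Cm.map fun f => f.coeff 0) := by
  obtain ⟨u, rfl⟩ := dvd_iff_isRoot.2 hδ
  refine ⟨fun h0 => ?_, Matrix.ext fun a b => ?_⟩
  · obtain ⟨c, h1, h2⟩ := exists_vecMul_eq_zero_iff.2 h0
    refine h1 (funext fun i => ?_)
    have h3 := hV.2 (fun i => C (c i)) (fun j => (res_ov (xt t 1) hV.1 c j).succ (by
      rw [res_coeff]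
      exact congrFun h2 j)) i
    rwa [eval_C] at h3
  · have hd : (derivative ((X - C t) * u)).eval t = u.eval t := by simp
    have h1 := congrFun (congrFun h.2 a) b
    rw [Matrix.smul_apply, Matrix.smul_apply, smul_eq_mul, smul_eq_mul, sdL_xt, map_mul,
      ev_xt_X_sub, Nat.cast_one, one_mul, mul_assoc] at h1
    have h2 := congrArg (fun f : CV.LL => f.coeff (0 + 0))
      (mul_left_cancel₀ (pow_ne_zero 1 sL_ne) h1)
    have h3 := congrFun (congrFun (coeff_mat_mul (U := Q.map (ev (xt t 1)))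
      (fun i j => ov_ev t 1 _) hV.1) a) b
    have h4 := congrFun (congrFun (coeff_mat_mul hV.1 hC) a) b
    have h5 : (Q.map (ev (xt t 1))).map (fun f => f.coeff 0) = Q.map (eval t) :=
      Matrix.ext fun i j => ev_coeff_zero le_rfl _
    have h6 : Ov 0 ((V * Cm) a b) := by simpa using ov_mat_mul hV.1 hC a b
    rw [h5, Matrix.map_apply] at h3
    rw [Matrix.map_apply, add_zero] at h4
    simp only [Matrix.add_apply, Matrix.smul_apply, smul_eq_mul, Matrix.map_apply] at h2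
    rw [(ov_ev t 1 u).coeff_mul ((hV.1 a b).sder.add h6), h3, ev_coeff_zero le_rfl,
      HahnSeries.coeff_add, sdL_coeff, Int.cast_zero, zero_mul, zero_add, h4] at h2
    rw [hd, Matrix.smul_apply, smul_eq_mul, h2]

theorem frm_char {A g E : Matrix (Fin N) (Fin N) ℂ} (hg : g.det ≠ 0) (h : A * g = g * E) :
    A.charpoly = E.charpoly := by
  have h1 : A = g * (E * g⁻¹) := by
    rw [← Matrix.mul_assoc, ← h, Matrix.mul_nonsing_inv_cancel_right _ _ hg.isUnit]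
  rw [h1, charpoly_mul_comm, Matrix.nonsing_inv_mul_cancel_right _ _ hg.isUnit]

/-- Copy of `exists_fuchs`; the last clause comes from `hdet i`, `Gau.msol` and `res_conj`. -/
theorem exists_fuchs2 {D : ℂ[X]} {B : PM N} {t : Fin n → ℂ} {M : Finset (Fin n)} {U : ℂ → LM N}
    (ht : Function.Injective t) (hD : D ≠ 0) (h : CV.Fr r D B t M U) {V : LM N}
    (hV : MSol D B sL⁻¹ V 0) : ∃ (ρ : ℂ[X]) (G : PM N) (A : Fin n → Matrix (Fin N) (Fin N) ℂ),
      ρ ≠ 0 ∧ G.det ≠ 0 ∧ Gau D B (dl t) (pm t A) ρ G ∧ CV.NF (ga ρ G sL⁻¹ V) ∧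
      (∀ i ∈ M, A i * A i = (1 / 2 : ℂ) • A i) ∧ ∀ i, i ∉ M → ∀ Cm : LM N, (∀ a b, Ov 0 (Cm a b)) →
        MSol D B (xt (t i) 1) (U (t i)) Cm → (A i).charpoly = (Cm.map fun f => f.coeff 0).charpoly := by
  classical
  let Z : Finset ℂ := D.roots.toFinset ∪ Finset.univ.image t
  have hZ : ∀ i, t i ∈ Z := fun i => Finset.mem_union_right _ (Finset.mem_image_of_mem _ (by simp))
  have hinf : ∀ {p : ℂ[X]}, p ≠ 0 → ev sL⁻¹ p ≠ 0 := fun hp => (map_ne_zero_iff _ ev_inv_inj).2 hp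
  obtain ⟨ρ, hρ, hρZ, hN⟩ := exists_scale (Z := Z) (ee_pos (t := t) (M := M)) (h.det ht)
  have hs := gau_scale D ρ B
  have h1 : (1 : PM N).det ≠ 0 := by simp
  have hD' := mul_ne_zero hρ hD
  have hF := h.gau ht hs hD hρ h1
  have hV' := hs.msol (hinf hD) (hinf hρ) (hinf h1) hV
  obtain ⟨G, hG, hNF⟩ := popov hV'.1 (lat_full (Z := Z) (ee_pos (t := t) (M := M))
    (U := fun z => ga ρ 1 (xt z (ee t M z)) (U z)))
  obtain ⟨Q, hQ⟩ := hG.gau (D := ρ * D) (D' := dl t) fun l hl => lat_div ee_pos hN hD'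
    (fun z hz => by
      rw [eval_mul, mul_eq_zero] at hz
      exact hz.elim (hρZ z) fun hz => Finset.mem_union_left _
        (Multiset.mem_toFinset.2 ((mem_roots hD).2 hz)))
    fun z hz => hF.stab ht (hl z hz)
  have hV'' := hQ.msol (hinf hD') (hinf one_ne_zero) (hinf hG.1) hV'
  rw [ga_one] at hV''
  obtain ⟨A, rfl, -⟩ := ext_inf ht hV'' hNF
  have hF' := hF.gau ht hQ hD' one_ne_zero hG.1
  have hdet := fun i => lat_det ee_pos hN hG (hZ i)
  simp only [ga_one] at hF'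
  have hc := hs.comp hQ hD'
  rw [mul_one, mul_one] at hc
  refine ⟨ρ, G, A, hρ, hG.1, hc, ?_, fun i hi => ?_, fun i hi Cm hC hS => ?_⟩
  · rwa [← ga_one, ga_comp, mul_one, mul_one] at hNF
  · have h2 := hdet i
    have h3 := hF'.2.2 i hi
    simp only [ee_mem hi] at h2 h3
    have h4 := res_half (dl_eval t i) h3.1 h2
    rw [pm_eval, Matrix.smul_mul, Matrix.mul_smul, smul_smul, smul_smul] at h4
    have h5 := dl_deriv_ne ht i
    refine smul_right_injective _ (mul_ne_zero h5 h5) (h4.trans ?_)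
    simp only [smul_smul]
    congr 1
    ring
  · have h2 := hdet i
    simp only [ee_not ht hi] at h2
    rw [← ga_one, ga_comp, mul_one, mul_one] at h2
    obtain ⟨h3, h4⟩ := res_conj (dl_eval t i) (hc.msol (ev_xt_ne le_rfl hD) (ev_xt_ne le_rfl hρ)
      (ev_xt_ne le_rfl hG.1) hS) hC h2
    rw [pm_eval, Matrix.smul_mul] at h4
    exact frm_char h3 (smul_right_injective _ (dl_deriv_ne ht i) h4)

theorem frm_bd (B : Fin d → Matrix (Fin r) (Fin r) ℂ) :
    (bd B).charpoly = ∏ k, (B k).charpoly := by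
  have h1 : bd B = reindex finProdFinEquiv finProdFinEquiv (blockDiagonal B) := rfl
  have h2 : charmatrix (blockDiagonal B) = blockDiagonal fun k => charmatrix (B k) := by
    ext1 ⟨a, k⟩ ⟨b, l⟩
    by_cases e : k = l
    · subst e
      by_cases e' : a = b
      · subst e'
        rw [charmatrix_apply_eq, blockDiagonal_apply_eq, blockDiagonal_apply_eq,
          charmatrix_apply_eq]
      · rw [charmatrix_apply_ne _ _ _ fun h => e' (congrArg Prod.fst h), blockDiagonal_apply_eq,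
          blockDiagonal_apply_eq, charmatrix_apply_ne _ _ _ e']
    · rw [charmatrix_apply_ne _ _ _ fun h => e (congrArg Prod.snd h),
        blockDiagonal_apply_ne _ _ _ e, blockDiagonal_apply_ne _ _ _ e, map_zero, neg_zero]
  rw [h1, charpoly_reindex, Matrix.charpoly, h2, det_blockDiagonal]
  rfl

/-- As `push_pun` with the given frame on the branch `z`; `bd` is a reindexed `blockDiagonal`. -/
theorem push_exp {S : CV.Sys ℂ 2} {q : ℂ[X][Y]} {δ : ℂ[X]} {t : ℂ} (h : Prep S d q δ) (hd : d ≠ 0)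
    (hS : PunP S d t) : ∃ U Cm : LM (2 * d), TP 2 (δ * S.D) (pB S d q δ) t U ∧
      (∀ a b, Ov 0 (Cm a b)) ∧ MSol (δ * S.D) (pB S d q δ) (xt t 1) U Cm ∧
      Exps d (Cm.map fun f => f.coeff 0) := by
  obtain ⟨m, rfl⟩ : ∃ m, d = m + 1 := ⟨d - 1, by omega⟩
  obtain ⟨z, y, hy, hz, hl, h0, G₀, B₀, a, b, h2, h4, h5, h6, h7⟩ := hS
  choose G hG using fun j => pushb_loc (hl j)
  obtain ⟨U, h1, -, -⟩ := push_loc h (y := Fin.cons z y) (G := Fin.cons G₀ G)
    (B := Fin.cons B₀ fun _ => 0) (Fin.cons_injective_iff.2 ⟨hz, hy⟩)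
    fun j => Fin.cases (show LocG S (xt t 1) z G₀ B₀ from ⟨h0, h2, h7⟩) hG j
  have h3 : ∀ i j, Ov 0 (bd (Fin.cons B₀ fun _ => 0 : Fin (m + 1) → LM 2) i j) := fun i j => by
    rw [bd, Matrix.of_apply]
    split_ifs
    · exact Fin.cases (h4 _ _) (fun _ => Ov.zero 0) (sh i)
    · exact Ov.zero 0
  refine ⟨U, _, ⟨_, _, pushb_card 0, h3, fun i hi j => ?_, h1⟩, h3, h1, a, b, h6, ?_⟩
  · obtain ⟨l, hl⟩ := Fin.exists_succ_eq.2 fun e => hi (pushb_mem e)
    rw [bd, Matrix.of_apply, ← hl]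
    simp
  · have h8 : ((bd (Fin.cons B₀ fun _ => 0 : Fin (m + 1) → LM 2)).map fun f => f.coeff 0) =
        bd (Fin.cons (B₀.map fun f => f.coeff 0) fun _ => 0) := Matrix.ext fun i j => by
      rw [Matrix.map_apply, bd, bd, Matrix.of_apply, Matrix.of_apply]
      split_ifs
      · exact Fin.cases rfl (fun _ => rfl) (sh i)
      · rfl
    rw [h8, frm_bd, Fin.prod_univ_succ, Fin.cons_zero, h5, mul_comm]
    simp only [Fin.cons_succ, charpoly_zero, Fintype.card_fin, Finset.prod_const, Finset.card_univ,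
      ← pow_mul, Nat.add_sub_cancel]

/-- Copy of `exists_frames`. -/
theorem exists_frames2 (hd : d ≠ 0) {S : CV.Sys ℂ 2} {q : ℂ[X][Y]} {δ : ℂ[X]}
    (h : Prep S d q δ) (hδ : δ ≠ 0) (hK : ∀ z, ∃ U Cm : LM (2 * d), (∀ i j, Ov 0 (Cm i j)) ∧
      MSol (δ * S.D) (pB S d q δ) (xt z 1) U Cm)
    {t : Fin n → ℂ} (ht : Function.Injective t) {M : Finset (Fin n)}
    (hB : ∀ i ∈ M, 2 ≤ d ∧ S.Bra d (t i)) (hP : ∀ i, i ∉ M → S.Unr (xt (t i) 1) (d - 1))
    (hU : ∀ c, c ∉ Set.range t → S.Unr (xt c 1) d) : ∃ U : ℂ → LM (2 * d),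
      CV.Fr 2 (δ * S.D) (pB S d q δ) t M U ∧ (∀ i ∈ M, ∃ (j : Fin (2 * d)) (τ : CV.LL), sg τ ≠ τ ∧
        ((pM S d).map (ev (xt (t i) 2)) *ᵥ fun a => U (t i) a j) = τ • fun a => U (t i) a j) ∧
      ∀ i, i ∉ M → PunP S d (t i) → ∃ Cm : LM (2 * d), (∀ a b, Ov 0 (Cm a b)) ∧
        MSol (δ * S.D) (pB S d q δ) (xt (t i) 1) (U (t i)) Cm ∧
        Exps d (Cm.map fun f => f.coeff 0) := by
  have key : ∀ z : ℂ, ∃ U : LM (2 * d), (z ∉ Set.range t → TG (δ * S.D) (pB S d q δ) z U) ∧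
      (∀ i, t i = z → i ∉ M → TP 2 (δ * S.D) (pB S d q δ) z U ∧ (PunP S d z →
        ∃ Cm : LM (2 * d), (∀ a b, Ov 0 (Cm a b)) ∧ MSol (δ * S.D) (pB S d q δ) (xt z 1) U Cm ∧
          Exps d (Cm.map fun f => f.coeff 0))) ∧ ∀ i, t i = z → i ∈ M →
        TB 2 (δ * S.D) (pB S d q δ) z U ∧ ∃ (j : Fin (2 * d)) (τ : CV.LL), sg τ ≠ τ ∧
          ((pM S d).map (ev (xt z 2)) *ᵥ fun a => U a j) = τ • fun a => U a j := by
    intro z
    by_cases hz : z ∈ Set.range t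
    · obtain ⟨i, rfl⟩ := hz
      by_cases hi : i ∈ M
      · obtain ⟨U, h1⟩ := push_bra one_le_two (hB i hi).1 h (hB i hi).2
        exact ⟨U, fun h2 => absurd ⟨i, rfl⟩ h2, fun j hj h2 => absurd (ht hj ▸ hi) h2,
          fun _ _ _ => h1⟩
      · by_cases hp : PunP S d (t i)
        · obtain ⟨U, Cm, h1, h3⟩ := push_exp h hd hp
          exact ⟨U, fun h2 => absurd ⟨i, rfl⟩ h2, fun _ _ _ => ⟨h1, fun _ => ⟨Cm, h3⟩⟩,
            fun j hj h2 => absurd (ht hj ▸ h2) hi⟩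
        · obtain ⟨U, h1⟩ := push_pun h hd hδ (hP i hi) (hK _)
          exact ⟨U, fun h2 => absurd ⟨i, rfl⟩ h2, fun _ _ _ => ⟨h1, fun h3 => absurd h3 hp⟩,
            fun j hj h2 => absurd (ht hj ▸ h2) hi⟩
    · obtain ⟨U, y, -, h1, -⟩ := push_unr h (hU z hz)
      exact ⟨U, fun _ => h1, fun i hi => absurd ⟨i, hi⟩ hz, fun i hi => absurd ⟨i, hi⟩ hz⟩
  choose U h1 h2 h3 using key
  exact ⟨U, ⟨h1, fun i hi => (h2 _ i rfl hi).1, fun i hi => (h3 _ i rfl hi).1⟩,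
    fun i hi => (h3 _ i rfl hi).2, fun i hi => (h2 _ i rfl hi).2⟩

end Pool.Agent.GR.RC
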