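import Pool.Agent.Lib.MP_aa40d3_nt.GE.GN

/-! The places of a function of degree one. -/

open Polynomial Module
open scoped Polynomial.Bivariate IntermediateField

namespace Pool.Agent.GR.RC

open Pool.Agent.Lib.MP_a01f70_lc.QQ Pool.Agent.GR.CV Pool.Agent.GR.GE

variable {F : Type} [Field F] [Algebra ℂ F] [IsFF F] {x : F}

theorem deg_one (hx : Transcendental ℂ x) (hd : finrank ℂ⟮x⟯ F = 1) :
    genus F = 0 ∧ ∃ (q : Place ℂ F) (P : ℂ → Place ℂ F), Function.Injective P ∧ (∀ c, P c ≠ q) ∧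
      (∀ p, p ≠ q → ∃ c, p = P c) ∧ (∀ c, (P c).ord (x - algebraMap ℂ F c) = 1) ∧
      ∀ p c, 0 < p.ord (x - algebraMap ℂ F c) → p = P c := by
  classical
  obtain ⟨R, hR⟩ := exists_can (F := F)
  obtain ⟨q, hq⟩ := rc12_pole hx
  have hfin : {p : Place ℂ F | p.ord x < 0}.Finite := (R.fin x).subset fun p hp => ne_of_lt hp
  have hs := sum_poles hx hfin.toFinset fun p => hfin.mem_toFinset
  rw [hd] at hs
  have hn : ∀ p ∈ hfin.toFinset, 0 ≤ -p.ord x := fun p hp => by
    have : p.ord x < 0 := hfin.mem_toFinset.1 hp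
    omega
  have h1 : q.ord x = -1 := by
    have := Finset.single_le_sum hn (hfin.mem_toFinset.2 hq)
    omega
  have h2 : ∀ p, p ∉ Set.range (fun _ : Fin 1 => q) → p.Ge x 0 := fun p hp => by
    by_contra hc
    have hlt := (Place.not_ge_iff.1 hc).2
    have := Finset.sum_le_sum_of_subset_of_nonneg (s := {p, q}) (fun u hu => by
      rcases Finset.mem_insert.1 hu with rfl | hu
      · exact hfin.mem_toFinset.2 hlt
      · exact Finset.mem_singleton.1 hu ▸ hfin.mem_toFinset.2 hq) fun u hu _ => hn u hu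
    rw [Finset.sum_pair fun e : p = q => hp ⟨0, e.symm⟩] at this
    omega
  have hi : Function.Injective fun _ : Fin 1 => q := Function.injective_of_subsingleton _
  have h3 : ∀ c, ∃ p : Place ℂ F, ram p x = 1 ∧ ∀ u : Place ℂ F, u.Ge x 0 ∧ val u x = c ↔ u = p :=
    fun c => by
      obtain ⟨Z, hZ, hz⟩ := gn_fibre R one_pos hi (fun _ => h1) h2 c
      have k : ∀ p ∈ Z, 1 ≤ ram p x := fun p hp => ram_pos hx ((hZ p).1 hp).1
      have k1 := Finset.sum_le_sum k
      rw [Finset.sum_const, nsmul_one] at k1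
      have k2 : Z.card ≠ 0 := fun e => by
        rw [Finset.card_eq_zero.1 e, Finset.sum_empty] at hz
        omega
      obtain ⟨p, rfl⟩ := Finset.card_eq_one.1 (show Z.card = 1 by omega)
      rw [Finset.sum_singleton] at hz
      exact ⟨p, by omega, fun u => (hZ u).symm.trans Finset.mem_singleton⟩
  choose P h4 h5 using h3
  have h6 := fun c => (h5 c _).2 rfl
  refine ⟨?_, q, P, fun c c' e => (h6 c).2.symm.trans (e ▸ (h6 c').2), fun c e => ?_,
    fun p hp => ⟨_, (h5 _ p).1 ⟨h2 p fun ⟨_, e⟩ => hp e.symm, rfl⟩⟩, fun c => ?_, fun p c h => ?_⟩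
  · obtain ⟨B, hB, hb⟩ := gn_rh hR one_pos hi (fun _ => h1) h2
    rw [Finset.sum_eq_zero fun p hp => absurd (((h5 _ p).1 ⟨((hB p).1 hp).1, rfl⟩).symm ▸ h4 _)
      ((hB p).1 hp).2, hR.g_eq] at hb
    omega
  · exact gn1_notMem (q := fun _ : Fin 1 => q) (fun _ => h1) (h6 c).1 ⟨0, e.symm⟩
  · have := h4 c
    rwa [ram, (h6 c).2] at this
  · have k : p.Ge (x - algebraMap ℂ F c) 1 := .of_le h
    exact (h5 c p).1 ⟨by simpa using (k.mono zero_le_one).add (p.ge_const c), val_eq k⟩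

end Pool.Agent.GR.RC
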