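import Pool.Agent.Lib.MP_aa40d3_nt.CV.Dx
import Pool.Agent.Lib.MP_aa40d3_nt.GR.CycA

/-! A Fuchsian system as a system on the line `y = 0`. -/

open Polynomial Matrix
open scoped Polynomial.Bivariate

namespace Pool.Agent.GR.RC

open CV

variable {R R' : Type} [CommRing R] [CommRing R'] {n r : ℕ}

/-- The system on the line. -/
noncomputable def linR (t : Fin n → R) (A : Fin n → Matrix (Fin r) (Fin r) R) : CV.Sys R r :=
  ⟨Y, dl t, (pm t A).map C⟩

theorem linR_map (t : Fin n → R) (A : Fin n → Matrix (Fin r) (Fin r) R) (φ : R →+* R') :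
    (linR t A).map φ = linR (fun i => φ (t i)) fun i => (A i).map φ := by
  simp only [linR, Sys.map, Polynomial.map_X, dl_map, ← pm_map, Matrix.map_map]
  congr 2
  funext p
  simp

theorem linR_fund {t : Fin n → R} {A : Fin n → Matrix (Fin r) (Fin r) R} (h : HasFund t A) :
    (linR t A).Fund := by
  obtain ⟨Φ, h1, h2⟩ := h
  refine ⟨Φ.map C, ⟨1, Φ.det, h1, ?_⟩, fun a b => ?_⟩
  · rw [one_mul, RingHom.map_det, RingHom.mapMatrix_apply, sub_self]
    exact dvd_zero _
  · have h3 := congrArg (C : R[X] → R[X][Y]) (congrFun (congrFun h2 a) b)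
    have h4 : dX (Y : R[X][Y]) = 0 := by simpa using dX_Y_pow (R := R) 1
    simp only [Matrix.smul_apply, Matrix.map_apply, smul_eq_mul, map_mul, mul_apply, map_sum] at h3
    simp only [Sys.nab, linR, Pi.sub_apply, derivative_X, one_mul, h4, zero_mul, sub_zero, one_smul,
      Matrix.map_apply, dX_C, mulVec, dotProduct, h3, sub_self, dvd_zero]

theorem linR_alg {t : Fin n → ℂ} {A : Fin n → Matrix (Fin r) (Fin r) ℂ} (h : (linR t A).Alg) :
    AlgSol t A := by
  obtain ⟨x₀, ε, y, Z, h0, h1, h2⟩ := h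
  refine ⟨x₀, ε, Z, h0, fun x hx => ?_, h2⟩
  obtain ⟨-, -, k1, k2, k3⟩ := h1 x hx
  have k4 : ∀ i, (dl t).eval x = (x - t i) * (∏ j ∈ Finset.univ.erase i, (X - C (t j))).eval x :=
    fun i => by
      rw [dl, ← Finset.mul_prod_erase _ (fun j => X - C (t j)) (Finset.mem_univ i), eval_mul,
        eval_sub, eval_X, eval_C]
  change (dl t).eval x ≠ 0 at k1
  have k5 : ∀ i, x - t i ≠ 0 := fun i => left_ne_zero_of_mul (k4 i ▸ k1)
  have k6 : (linR t A).A.map (evalEval x (y x)) = (dl t).eval x • ∑ i, (x - t i)⁻¹ • A i := by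
    ext a b
    simp only [linR, Matrix.map_apply, evalEval_C, cyca_pm_apply, eval_finsetSum, eval_mul, eval_C,
      Matrix.smul_apply, Matrix.sum_apply, smul_eq_mul, Finset.mul_sum]
    refine Finset.sum_congr rfl fun i _ => ?_
    rw [k4 i, ← mul_assoc, mul_right_comm (x - t i), mul_inv_cancel₀ (k5 i), one_mul]
  refine ⟨fun i => sub_ne_zero.1 (k5 i), k2, fun a b => ?_⟩
  have k7 := k3 a b
  rwa [k6, Matrix.smul_mul, show (linR t A).D = dl t from rfl, inv_smul_smul₀ k1] at k7

end Pool.Agent.GR.RC
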