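import Pool.Agent.Lib.MP_aa40d3_nt.RC.Cor
import Pool.Agent.Lib.MP_aa40d3_nt.SP.At

/-! Fundamental matrices on a dense open set of closed points, all branches of all fibres. -/

open Polynomial
open scoped Polynomial.Bivariate IntermediateField

namespace Pool.Agent.GR.RC

open Pool.Agent.GR.CV Pool.Agent.GR.GE FB
open Pool.Agent.Lib.MP_a01f70_lc.QQ (Place)

theorem final16 (R : Type) [CommRing R] [Algebra.FiniteType ℤ R] (ι ψ : R →+* ℂ) (S : CV.Sys R 2)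
    (f : R) (F : Type) [Field F] [Algebra ℂ F] (x y : F) (Sg : Finset (Place ℂ F)) (p₀ : Place ℂ F)
    (h0 : RingHom.ker ι ≤ RingHom.ker ψ) (hP : S.P.Monic) (hI : Irreducible (S.map ι).P)
    (hx : Transcendental ℂ x)
    (hxy : ℂ⟮x, y⟯ = ⊤) (hy : aevalAeval x y (S.map ι).P = 0) (h1 : p₀ ∈ Sg) (h2 : Free Sg p₀)
    (h3 : ∀ φ, At φ p₀ → Exp (S.map ι) (φ x) (φ y))
    (h4 : genus F = 0 ∨ (DetO (S.map ι) x y ∧
      ∃ p₁ ∈ Sg, p₁ ≠ p₀ ∧ ∀ φ, At φ p₁ → Exp (S.map ι) (φ x) (φ y)))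
    (hL : ∀ p ∉ Sg, ∀ φ, At φ p → (S.map ι).Loc (φ x) (φ y)) (hPr : PrimF (S.map ι) x y)
    (hf : ι f ≠ 0) (hF : ∀ m : Ideal R, m.IsMaximal → RingHom.ker ι ≤ m → f ∉ m →
      (S.map (Ideal.Quotient.mk m)).Fund) : (S.map ψ).AlgAll := by
  intro w u z hD
  have hD' : (S.map ι).D ≠ 0 := d_ne h0 fun e => hD (by rw [e, eval_zero])
  refine SP.all_spec ι ψ h0 S hP hI ?_ w u z hD
  obtain ⟨R', j, k1, k2, k3⟩ := SP.fund_loc ι S hf hF
  rw [← k2] at hI hy h3 h4 hL hPr hD' ⊢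
  exact final15 R' R'.subtype R'.subtype (S.map j) F x y Sg p₀ le_rfl (hP.map _) hI hI hD' hx hxy hy
    h1 h2 h3 h4 hL hPr k3

end Pool.Agent.GR.RC
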