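import Pool.Agent.Lib.MP_aa40d3_nt.GC.Red
import Pool.Agent.Lib.MP_aa40d3_nt.FB.Big
import Pool.Agent.Lib.MP_aa40d3_nt.FK.Pair

/-! Removing all sheets but two. -/

namespace Pool.Agent.GR.RC

open GC FB

variable {G : Type} [Group G] {d : ℕ} {b : BS G d}

/-- Copy of `reduce` for `r = 1`, one step further. -/
theorem reduce2 (c : ℕ) : ∀ (S : Finset (Fin d)) (l : List G), S.card = 2 + c →
    (∀ x ∈ l, b.Ok 1 x) → b.Sup (gen l) S → b.Trans (gen l) S → l.prod = 1 →
    ∃ S' ⊆ S, S'.card = 2 ∧ ∃ A B, Hur l (A ++ B) ∧ b.Sup (gen A) S' ∧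
      b.Agree (gen l) (gen A) S' ∧ b.cnt l ≤ b.cnt A + 2 * c ∧ A.prod = 1 ∧ ∀ x ∈ B, b.π x ≠ 1 := by
  induction c with
  | zero =>
    intro S l hS _ hs _ hp
    refine ⟨S, Finset.Subset.refl S, hS, l, [], ?_, hs, ?_, by omega, hp, by simp⟩
    · rw [List.append_nil]; exact Hur.refl l
    · intro y hy i _ _
      exact ⟨y, hy, by rw [inv_mul_cancel]; exact (b.K i).one_mem⟩
  | succ c ih =>
    intro S l hS hok hs ht hp
    obtain ⟨j, hj⟩ : S.Nonempty := Finset.card_pos.1 (by omega)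
    obtain ⟨A, x, i, h1, h2, h3⟩ := red_one le_rfl (by omega) hj hok ht (hp ▸ (b.K j).one_mem)
    have hg := h1.gen
    have hw : b.Agree (gen l) (gen A) (Finset.univ.erase j) := by
      rw [← hg]; exact BS.wreath h3 h2
    have hsub : S.erase j ⊆ Finset.univ.erase j :=
      Finset.erase_subset_erase j (Finset.subset_univ S)
    have hokA : ∀ a ∈ A, b.Ok 1 a := fun a ha =>
      h1.all (fun γ x hx => hx.conj γ) hok a (List.mem_append_left _ ha)
    have hle : gen A ≤ gen l := by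
      rw [← hg]; exact gen_le.2 fun a ha => mem_gen (List.mem_append_left _ ha)
    have hsA : b.Sup (gen A) (S.erase j) := by
      intro y hy k hk
      by_cases e : k = j
      · rw [e]; exact gen_le.2 h3 hy
      · exact hs y (hle hy) k fun h => hk (Finset.mem_erase.2 ⟨e, h⟩)
    have htA : b.Trans (gen A) (S.erase j) :=
      (hw.mono hsub).trans_of ht (Finset.erase_subset j S)
    have hpA : A.prod = l.prod := by
      rw [← h1.prod, List.prod_append, List.prod_cons, List.prod_singleton, h2.2.2.1, mul_one]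
    have hc : (S.erase j).card = 2 + c := by
      rw [Finset.card_erase_of_mem hj]; omega
    obtain ⟨S', hS', hcard, C, D, h4, h5, h6, h7, h9, h10⟩ :=
      ih (S.erase j) A hc hokA hsA htA (hpA.trans hp)
    refine ⟨S', hS'.trans (Finset.erase_subset j S), hcard, C, D ++ [x, x], ?_, h5,
      hw.trans h6 (hS'.trans hsub), ?_, h9, fun y hy => ?_⟩
    · rw [← List.append_assoc]
      exact h1.trans (h4.app_right [x, x])
    · have h8 : b.cnt (A ++ [x, x]) ≤ b.cnt A + 2 := by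
        unfold BS.cnt
        rw [List.countP_append]
        exact Nat.add_le_add_left List.countP_le_length _
      rw [h1.cnt b] at h8
      omega
    · rcases List.mem_append.1 hy with hy | hy
      · exact h10 y hy
      · obtain rfl : y = x := by simpa using hy
        intro e
        have := h2.apply
        rw [e] at this
        exact h2.1 this

/-- Lift the moves of `reduce2` to the marked list and bring the marked member to the front. -/
theorem reduce_marked (hd : 2 ≤ d) {l : List (G × Mk)} (hg : gen (l.map Prod.fst) = ⊤)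
    (ht : b.Trans ⊤ Finset.univ) (hok : ∀ x ∈ l, b.Ok 1 x.1) (hp : (l.map Prod.fst).prod = 1)
    (hf : ∀ x ∈ l, IsOfFinOrder x.1) (hq : PairH Mo (fun x => IsOfFinOrder x.1) l)
    (hc : 2 * d ≤ b.cnt (l.map Prod.fst)) {P : G → Prop} (hP : ∀ γ x, P x → P (γ * x * γ⁻¹))
    (hP1 : ∀ x, P x → b.π x = 1) (h1 : (l.countP fun x => x.2 = mv) = 1)
    (h2 : ∀ x ∈ l, Mo x → P x.1) (h3 : ∃ x ∈ l, ¬ Mo x ∧ P x.1) :
    ∃ (S : Finset (Fin d)) (s : G) (R : List G), S.card = 2 ∧ b.Sup (gen (s :: R)) S ∧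
      b.Agree ⊤ (gen (s :: R)) S ∧ (∀ x ∈ s :: R, b.Ok 1 x ∧ IsOfFinOrder x) ∧ (s :: R).prod = 1 ∧
      4 ≤ b.cnt R ∧ P s ∧ (∃ c ∈ R, P c) ∧
      PairH Mo (fun x => IsOfFinOrder x.1) ((s, mv) :: R.map fun x => (x, 1)) := by
  classical
  obtain ⟨c, rfl⟩ := Nat.exists_eq_add_of_le hd
  obtain ⟨S, -, hS, A, B, k3, k4, k5, k6, k7, k8⟩ := reduce2 (b := b) c Finset.univ (l.map Prod.fst)
    (by simp) (List.forall_mem_map.2 hok) (fun x _ j hj => absurd (Finset.mem_univ j) hj) (hg ▸ ht) hp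
  rw [hg] at k5
  obtain ⟨l₁, h7, h8⟩ := Hur.lift (MonoidHom.fst G Mk) k3
  obtain ⟨A₁, B₁, rfl, hA, hB⟩ := List.map_eq_append_iff.1 h8
  replace hA : A₁.map Prod.fst = A := hA
  replace hB : B₁.map Prod.fst = B := hB
  have hBP : ∀ x ∈ B₁, ¬ P x.1 := fun x hx k => k8 _ (hB ▸ List.mem_map_of_mem hx) (hP1 _ k)
  have hM : ∀ {k}, Hur l k → ∀ x ∈ k, Mo x → P x.1 := fun hk =>
    hk.all (P := fun x => Mo x → P x.1) (fun γ x hx e => hP γ.1 x.1 (hx ((mo_conj γ x).1 e))) h2
  have hN : ∀ {k}, Hur l k → (k.countP fun x => x.2 = mv) = 1 := fun hk =>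
    (hur_countP (P := fun x : G × Mk => decide (x.2 = mv))
      (fun γ m => decide_eq_decide.2 (mo_conj γ m)) hk).trans h1
  obtain ⟨m, hm, e⟩ := List.countP_pos_iff.1 ((hN h7).symm ▸ one_pos)
  have e1 : Mo m := (of_decide_eq_true e : m.2 = mv)
  obtain ⟨A₂, A₃, rfl⟩ := List.append_of_mem
    ((List.mem_append.1 hm).resolve_right fun k => hBP m k (hM h7 m hm e1))
  obtain ⟨D, h9⟩ : ∃ D, Hur (A₂ ++ m :: A₃) (m :: D) :=
    ⟨_ ++ A₃, by simpa using (hur_oneL A₂ m).app_right A₃⟩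
  have h10 := h7.trans (h9.app_right B₁)
  have h11 : Hur A (m.1 :: D.map Prod.fst) := hA ▸ h9.map (MonoidHom.fst G Mk)
  have h12 := hN h10
  rw [List.cons_append, List.countP_cons_of_pos (p := fun x : G × Mk => decide (x.2 = mv)) e,
    add_eq_right, List.countP_eq_zero] at h12
  have h13 : ((m.1, mv) :: (D.map Prod.fst).map fun x => (x, 1)) = m :: D := by
    rw [List.map_map, show (m.1, mv) = m from Prod.ext rfl e1.symm]
    refine congrArg _ ((List.map_congr_left fun t ht => ?_).trans (List.map_id _))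
    exact Prod.ext rfl ((show ∀ u : Mk, u ≠ mv → 1 = u by decide) _ fun k =>
      h12 t (List.mem_append_left _ ht) (decide_eq_true k))
  have hs := hM h10 m (by simp) e1
  refine ⟨S, m.1, D.map Prod.fst, hS, h11.gen ▸ k4, h11.gen ▸ k5, ?_, h11.prod.trans k7, ?_, hs, ?_,
    h13 ▸ PairH.ctx (C := []) (D := B₁) (hq.hur h10)⟩
  · intro x hx
    obtain ⟨y, hy, rfl⟩ := List.mem_map.1 (show x ∈ (m :: D).map Prod.fst from hx)
    exact h10.all (P := fun x => b.Ok 1 x.1 ∧ IsOfFinOrder x.1)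
      (fun γ x hx => ⟨hx.1.conj γ.1, (isConj_of γ.1 rfl).isOfFinOrder hx.2⟩)
      (fun x hx => ⟨hok x hx, hf x hx⟩) y (List.mem_append_left _ hy)
  · have e2 := h11.cnt b
    rw [BS.cnt, List.countP_cons_of_neg (by simpa using hP1 _ hs)] at e2
    change b.cnt _ = _ at e2
    omega
  · have e2 := hur_countP (P := fun x : G × Mk => decide (¬ Mo x ∧ P x.1)) (fun γ x => by
      refine decide_eq_decide.2 (and_congr (mo_conj γ x).not ⟨fun k => ?_, hP γ.1 x.1⟩)
      have := hP γ.1⁻¹ _ k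
      simpa only [Prod.fst_mul, Prod.fst_inv, inv_inv, ← mul_assoc, inv_mul_cancel, one_mul,
        inv_mul_cancel_right] using this) h10
    obtain ⟨x, hx, k⟩ := h3
    obtain ⟨y, hy, k'⟩ := List.countP_pos_iff.1 (lt_of_lt_of_eq (List.countP_pos_iff.2
      ⟨x, hx, decide_eq_true k⟩) e2.symm)
    obtain ⟨k1, k2⟩ := of_decide_eq_true k'
    rcases List.mem_append.1 hy with hy | hy
    · exact ⟨y.1, List.mem_map_of_mem ((List.mem_cons.1 hy).resolve_left fun e => k1 (e ▸ e1)), k2⟩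
    · exact absurd k2 (hBP y hy)

end Pool.Agent.GR.RC
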