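import Pool.Agent.Lib.MP_aa40d3_nt.RC.Scl
import Pool.Agent.Lib.MP_aa40d3_nt.RC.Red

/-! From a covering to two sheets and back. -/

open Matrix

namespace Pool.Agent.GR.RC

open GC FB

variable {G : Type} [Group G] {d m : ℕ} {σ : G →* Mt m}

/-- Keeps all sheets and is not scalar on some sheet. -/
def Good (b : BR σ d) (x : G) : Prop := b.π x = 1 ∧ ∃ i, ∀ a : ℂ, σ x * b.e i ≠ a • b.e i

theorem brg_conj (b : BR σ d) (γ x : G) {i : Fin d} {a : ℂ} (h : σ x * b.e i = a • b.e i) :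
    σ (γ * x * γ⁻¹) * b.e (b.π γ i) = a • b.e (b.π γ i) := by
  have h1 : b.e (b.π γ i) = σ γ * b.e i * σ γ⁻¹ := by
    rw [b.act, Matrix.mul_assoc, rep_mul_inv, Matrix.mul_one]
  rw [h1, ← Matrix.mul_assoc, ← Matrix.mul_assoc, ← map_mul, inv_mul_cancel_right, map_mul,
    Matrix.mul_assoc (σ γ), h, mul_smul_comm, smul_mul_assoc]

theorem Good.conj {b : BR σ d} (γ x : G) (h : Good b x) : Good b (γ * x * γ⁻¹) := by
  obtain ⟨h1, i, h2⟩ := h
  refine ⟨by simp [h1], b.π γ i, fun a e => h2 a ?_⟩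
  have := brg_conj b γ⁻¹ _ e
  rwa [show γ⁻¹ * (γ * x * γ⁻¹) * γ⁻¹⁻¹ = x by group, map_inv, Equiv.Perm.coe_inv,
    Equiv.symm_apply_apply] at this

theorem brg_fac {E : Mt m} (hE : E * E = E) {k : ℕ} (hk : E.rank = k) :
    ∃ (P : Matrix (Fin m) (Fin k) ℂ) (Q : Matrix (Fin k) (Fin m) ℂ), Q * P = 1 ∧ P * Q = E := by
  subst hk
  exact idem_fac hE

/-- The blocks on two sheets. -/
theorem exists_hom (b : BR σ d) (hrk : ∀ i, (b.e i).rank = 2) {S : Finset (Fin d)} (hS : S.card = 2)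
    (H : Subgroup G) (hH : b.bs.Sup H S) : ∃ (θ : H →* W2) (j : ℤˣ → Fin d)
      (P : ℤˣ → Matrix (Fin m) (Fin 2) ℂ) (Q : ℤˣ → Matrix (Fin 2) (Fin m) ℂ),
      Function.Injective j ∧ (∀ i, i ∈ S ↔ ∃ a, j a = i) ∧ (∀ a, P a * Q a = b.e (j a)) ∧
      (∀ a, Q a * P a = 1) ∧ (∀ (γ : H) a, b.π γ (j a) = j ((θ γ).right * a)) ∧
      ∀ (γ : H) a, ((θ γ).left a).val = Q a * σ γ * P ((θ γ).right * a) := by
  classical
  obtain ⟨u, v, huv, rfl⟩ := Finset.card_eq_two.1 hS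
  obtain ⟨j, j1, j2⟩ : ∃ j : ℤˣ → Fin d, j 1 = u ∧ j (-1) = v :=
    ⟨fun a => if a = 1 then u else v, if_pos rfl, if_neg (by decide)⟩
  have hj : Function.Injective j := fun a c h => by
    rcases Int.units_eq_one_or a with rfl | rfl <;> rcases Int.units_eq_one_or c with rfl | rfl
    · rfl
    · exact absurd (j1.symm.trans (h.trans j2)) huv
    · exact absurd (j1.symm.trans (h.symm.trans j2)) huv
    · rfl
  choose P Q hQP hPQ using fun a => brg_fac (b.idem (j a)) (hrk (j a))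
  have hin : ∀ γ : H, ∀ w, w = u ∨ w = v → b.π γ w = u ∨ b.π γ w = v := fun γ w hw => by
    by_contra k
    have k1 : b.π γ w ∉ ({u, v} : Finset (Fin d)) := by simpa using k
    exact k (((b.π γ).injective (hH γ γ.2 _ k1).1).symm ▸ hw)
  have hε : ∀ γ : H, ∃ ε : ℤˣ, ∀ a, b.π γ (j a) = j (ε * a) := fun γ => by
    have hne : b.π γ u ≠ b.π γ v := (b.π γ).injective.ne huv
    rcases hin γ u (Or.inl rfl) with k | k
    · refine ⟨1, fun a => ?_⟩
      rcases Int.units_eq_one_or a with rfl | rfl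
      · rw [one_mul, j1, k]
      · rw [one_mul, j2, (hin γ v (Or.inr rfl)).resolve_left fun e => hne (k.trans e.symm)]
    · refine ⟨-1, fun a => ?_⟩
      rcases Int.units_eq_one_or a with rfl | rfl
      · rw [mul_one, j1, j2, k]
      · rw [neg_mul_neg, one_mul, j1, j2,
          (hin γ v (Or.inr rfl)).resolve_right fun e => hne (k.trans e.symm)]
  choose ε hε using hε
  have hmul : ∀ γ γ', ε (γ * γ') = ε γ * ε γ' := fun γ γ' => by
    have := hε (γ * γ') 1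
    rw [Subgroup.coe_mul, map_mul, Equiv.Perm.mul_apply, hε, hε] at this
    simpa using (hj this).symm
  have hone : ε 1 = 1 := by simpa using hmul 1 1
  have key : ∀ (γ γ' : H) a, Q a * σ γ * P (ε γ * a) * (Q (ε γ * a) * σ γ' * P (ε γ' * (ε γ * a))) =
      Q a * σ (γ * γ' : H) * P (ε (γ * γ') * a) := fun γ γ' a => by
    have h1 : σ γ * b.e (j (ε γ * a)) = b.e (j a) * σ γ := by
      rw [b.act, hε, ← mul_assoc, Int.units_mul_self, one_mul]
    calc _ = Q a * (σ γ * (P (ε γ * a) * Q (ε γ * a))) * σ γ' * P (ε γ' * (ε γ * a)) := by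
          simp only [Matrix.mul_assoc]
      _ = _ := by
          rw [hPQ, h1, ← hPQ, ← Matrix.mul_assoc, ← Matrix.mul_assoc, hQP, Matrix.one_mul,
            Subgroup.coe_mul, map_mul, hmul, mul_left_comm, mul_assoc, Matrix.mul_assoc (Q a)]
  have kinv : ∀ (γ : H) a,
      Q a * σ γ * P (ε γ * a) * (Q (ε γ * a) * σ (γ⁻¹ : H) * P (ε γ⁻¹ * (ε γ * a))) = 1 :=
    fun γ a => by
      rw [key, mul_inv_cancel, hone, one_mul, OneMemClass.coe_one, map_one, Matrix.mul_one, hQP]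
  refine ⟨MonoidHom.mk' (fun γ => ⟨fun a => ⟨_, _, kinv γ a, mul_eq_one_comm.1 (kinv γ a)⟩, ε γ⟩)
    fun γ γ' => ?_, j, P, Q, hj, fun i => ?_, hPQ, hQP, hε, fun _ _ => rfl⟩
  · refine RegularWreathProduct.ext (funext fun a => Units.ext ?_) (hmul γ γ')
    rw [mul_l]
    exact (key γ γ' a).symm
  · rw [Finset.mem_insert, Finset.mem_singleton]
    refine ⟨fun h => h.elim (fun e => ⟨1, j1.trans e.symm⟩) fun e => ⟨-1, j2.trans e.symm⟩, ?_⟩
    rintro ⟨a, rfl⟩
    exact (Int.units_eq_one_or a).imp (fun e => by rw [e, j1]) fun e => by rw [e, j2]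

/-- The elements that keep the sheet `i` and are scalar on it. -/
def scK (b : BR σ d) (i : Fin d) : Subgroup G where
  carrier := {x | b.π x i = i ∧ ∃ a : ℂ, σ x * b.e i = a • b.e i}
  one_mem' := ⟨by rw [map_one]; rfl, 1, by rw [map_one, Matrix.one_mul, one_smul]⟩
  mul_mem' := fun {x y} ⟨h1, a, ha⟩ ⟨h2, c, hc⟩ => ⟨by rw [map_mul, Equiv.Perm.mul_apply, h2, h1],
    c * a, by rw [map_mul, Matrix.mul_assoc, hc, mul_smul_comm, ha, smul_smul]⟩
  inv_mem' := fun {x} ⟨h1, a, ha⟩ => ⟨by rw [map_inv, Equiv.Perm.inv_eq_iff_eq, h1], a⁻¹, by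
    have e : b.e i = a • (σ x⁻¹ * b.e i) := by
      rw [← mul_smul_comm, ← ha, ← Matrix.mul_assoc, rep_inv_mul, Matrix.one_mul]
    by_cases h0 : a = 0
    · rw [h0, zero_smul] at e
      rw [e, Matrix.mul_zero, smul_zero]
    · conv_rhs => rw [e]
      rw [smul_smul, inv_mul_cancel₀ h0, one_smul]⟩

theorem index_of_agree (b : BR σ d) (ht : b.bs.Trans ⊤ Finset.univ) {S : Finset (Fin d)} {i : Fin d}
    (hi : i ∈ S) {H : Subgroup G} (h : b.bs.Agree ⊤ H S) {H₀ : Subgroup H} (h0 : H₀.FiniteIndex)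
    (h1 : ∀ x ∈ H₀, x.val ∈ scK b i) :
    ∃ N : Subgroup G, N.FiniteIndex ∧ ∀ γ ∈ N, ∀ i, b.π γ i = i ∧ ∃ a : ℂ, σ γ * b.e i = a • b.e i := by
  choose γ hγ using fun c => ht i (Finset.mem_univ _) c (Finset.mem_univ _)
  have : Finite (G ⧸ scK b i) := by
    refine Finite.of_surjective (fun q : Fin d × (H ⧸ H₀) =>
      ((γ q.1 * q.2.out : G) : G ⧸ scK b i)) fun q => ?_
    obtain ⟨y, rfl⟩ := QuotientGroup.mk_surjective q
    obtain ⟨g, hg, k⟩ := h ((γ (b.bs.π y i))⁻¹ * y) trivial i hi (by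
      rw [map_mul, map_inv, Equiv.Perm.mul_apply, ← (hγ (b.bs.π y i)).2, (hγ (b.bs.π y i)).2,
        Equiv.Perm.inv_eq_iff_eq.2 (hγ (b.bs.π y i)).2.symm]
      exact hi)
    refine ⟨(b.bs.π y i, ((⟨g, hg⟩ : H) : H ⧸ H₀)), QuotientGroup.eq.2 ?_⟩
    have k1 := h1 _ (QuotientGroup.eq.1 (QuotientGroup.out_eq' ((⟨g, hg⟩ : H) : H ⧸ H₀)))
    have k2 : g⁻¹ * ((γ (b.bs.π y i))⁻¹ * y) ∈ scK b i := ⟨k.1, 1, by rw [k.2, one_smul]⟩
    simpa [mul_assoc] using mul_mem k1 k2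
  have := Subgroup.finiteIndex_of_finite_quotient (H := scK b i)
  refine ⟨(scK b i).normalCore, inferInstance, fun y hy c => ?_⟩
  obtain ⟨k1, a, k2⟩ := hy (γ c)⁻¹
  have k3 : b.π (γ c) i = c := (hγ c).2
  have k4 := brg_conj b (γ c) _ k2
  rw [show γ c * ((γ c)⁻¹ * y * (γ c)⁻¹⁻¹) * (γ c)⁻¹ = y by group, k3] at k4
  refine ⟨?_, a, k4⟩
  rwa [inv_inv, map_mul, map_mul, Equiv.Perm.mul_apply, Equiv.Perm.mul_apply, k3, map_inv,
    Equiv.Perm.inv_eq_iff_eq, k3] at k1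

theorem pairH_push {D : Type} [Group D] (φ : G →* D) {l : List (G × Mk)}
    (h : PairH Mo (fun x => IsOfFinOrder x.1) l) :
    PairH Mo (fun x => IsOfFinOrder x.1) (l.map (FB.pm φ)) := fun A x y B h' hp => by
  obtain ⟨k, h1, e⟩ := Hur.lift (FB.pm φ) h'
  obtain ⟨A', k', rfl, -, e1⟩ := List.map_eq_append_iff.1 e
  obtain ⟨x', k'', rfl, rfl, e2⟩ := List.map_eq_cons_iff.1 e1
  obtain ⟨y', B', rfl, rfl, -⟩ := List.map_eq_cons_iff.1 e2
  rw [← map_mul]
  exact φ.isOfFinOrder (h A' x' y' B' h1 hp)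

theorem scalar_index (b : BR σ d) (hd : 2 ≤ d) (hrk : ∀ i, (b.e i).rank = 2) {l : List (G × Mk)}
    (hg : gen (l.map Prod.fst) = ⊤) (ht : b.bs.Trans ⊤ Finset.univ) (hok : ∀ x ∈ l, b.bs.Ok 1 x.1)
    (hp : (l.map Prod.fst).prod = 1) (hf : ∀ x ∈ l, IsOfFinOrder x.1)
    (hq : PairH Mo (fun x => IsOfFinOrder x.1) l) (hc : 2 * d ≤ b.bs.cnt (l.map Prod.fst))
    (h1 : (l.countP fun x => x.2 = mv) = 1) (h2 : ∀ x ∈ l, Mo x → Good b x.1)
    (h3 : ∃ x ∈ l, ¬ Mo x ∧ Good b x.1)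
    (hP : ∀ i (E : Mt m), b.e i * E * b.e i = E →
      (∀ γ, b.π γ i = i → ∃ a : ℂ, σ γ * E = a • (E * σ γ)) → ∃ a : ℂ, E = a • b.e i) :
    ∃ N : Subgroup G, N.FiniteIndex ∧ ∀ γ ∈ N, ∀ i, b.π γ i = i ∧ ∃ a : ℂ, σ γ * b.e i = a • b.e i := by
  classical
  obtain ⟨S, s, R, hS, k1, k2, k3, k4, k5, k6, k7, k8⟩ :=
    reduce_marked hd hg ht hok hp hf hq hc Good.conj (fun _ h => h.1) h1 h2 h3
  obtain ⟨H, s', R', hH, rfl, rfl, htop⟩ : ∃ (H : Subgroup G) (s' : H) (R' : List H),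
      gen (s :: R) = H ∧ s'.val = s ∧ R'.map Subtype.val = R ∧ gen (s' :: R') = ⊤ := by
    refine ⟨_, ⟨s, mem_gen (by simp)⟩, R.attachWith _ fun x hx => mem_gen (by simp [hx]), rfl, rfl,
      List.attachWith_map_subtype_val _, ?_⟩
    refine Eq.trans (congrArg Subgroup.closure (Set.ext fun x => ?_))
      (Subgroup.closure_closure_coe_preimage (k := {x | x ∈ s :: R}))
    change x ∈ _ :: _ ↔ x.val ∈ s :: R
    simp [Subtype.ext_iff]
  rw [hH] at k1 k2
  obtain ⟨θ, j, P, Q, hj, hjS, hPQ, hQP, hπ, hl⟩ := exists_hom b hrk hS H k1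
  have eP : ∀ a, b.e (j a) * P a = P a := fun a => by
    rw [← hPQ, Matrix.mul_assoc, hQP, Matrix.mul_one]
  have Qe : ∀ a, Q a * b.e (j a) = Q a := fun a => by
    rw [← hPQ, ← Matrix.mul_assoc, hQP, Matrix.one_mul]
  have hcm : ∀ {γ i}, b.π γ i = i → σ γ * b.e i = b.e i * σ γ := fun h => by rw [b.act, h]
  have hev : ∀ (x : H) a, (θ x).right = 1 ↔ b.π x (j a) = j a := fun x a => by
    rw [hπ, hj.eq_iff, mul_eq_right]
  have hev1 : ∀ x : H, b.π x = 1 → (θ x).right = 1 := fun x h => (hev x 1).2 (by rw [h]; rfl)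
  have hP1 : ∀ (x : H) a, (θ x).right = 1 → σ x * P a = P a * ((θ x).left a).val := fun x a h => by
    rw [hl, h, one_mul, ← Matrix.mul_assoc, ← Matrix.mul_assoc, hPQ, ← hcm ((hev x a).1 h),
      Matrix.mul_assoc, eP]
  have hQ1 : ∀ (x : H) a, (θ x).right = 1 → Q a * σ x = ((θ x).left a).val * Q a := fun x a h => by
    rw [hl, h, one_mul, Matrix.mul_assoc, hPQ, Matrix.mul_assoc, hcm ((hev x a).1 h),
      ← Matrix.mul_assoc, Qe]
  have hsc : ∀ (x : H) a (c : ℂ), (θ x).right = 1 → ((θ x).left a).val = c • 1 →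
      σ x * b.e (j a) = c • b.e (j a) := fun x a c h e => by
    rw [← hPQ, ← Matrix.mul_assoc, hP1 x a h, e, Matrix.mul_smul, Matrix.mul_one, Matrix.smul_mul]
  have hgd : ∀ x : H, Good b x → Gd (θ x) := by
    rintro x ⟨e, i, hi⟩
    obtain ⟨a, rfl⟩ := (hjS i).1 (not_not.1 fun k => hi 1 (by rw [(k1 x x.2 i k).2, one_smul]))
    exact ⟨hev1 x e, a, fun ⟨c, hc⟩ => hi c (hsc x a c (hev1 x e) hc)⟩
  have hod : ∀ x : H, b.π x ≠ 1 → (θ x).right = -1 := fun x h =>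
    (Int.units_eq_one_or _).resolve_left fun e => h (Equiv.ext fun i => by
      by_cases hi : i ∈ S
      · obtain ⟨a, rfl⟩ := (hjS i).1 hi
        exact (hev x a).1 e
      · exact (k1 x x.2 i hi).1)
  have hmem : ∀ {p : W2 → Prop}, (∀ x : H, b.bs.Ok 1 x.val ∧ IsOfFinOrder x.val → p (θ x)) →
      ∀ w ∈ θ s' :: R'.map θ, p w := fun h w hw => by
    obtain ⟨x, hx, rfl⟩ := List.mem_map.1 (show w ∈ (s' :: R').map θ from hw)
    exact h x (k3 _ (List.mem_map_of_mem (f := Subtype.val) hx))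
  have hgen : gen (θ s' :: R'.map θ) = θ.range := by
    rw [MonoidHom.range_eq_map, ← htop, gen, gen, MonoidHom.map_closure]
    exact congrArg Subgroup.closure (Set.ext fun w => List.mem_map (l := s' :: R'))
  have key : Ok0 (θ s') (R'.map θ) := by
    refine ⟨hmem fun x hx => θ.isOfFinOrder (H.subtype_injective.isOfFinOrder_iff.1 hx.2),
      hmem fun x hx => ?_, hgd s' k6, ?_, k5.trans ?_, ?_, ?_, fun a E hE h => ?_⟩
    · rcases hx.1 with ⟨u, v, e⟩ | ⟨e, T, e1, e2⟩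
      · refine Or.inl ⟨hod x fun k => e.1 ?_, by
          rw [← map_mul, show x * x = 1 from Subtype.ext e.2.2.1, map_one]⟩
        have : b.π x u = v := e.apply
        rwa [k] at this
      · obtain ⟨a, ha⟩ : ∃ a, j a ∉ T := by
          by_contra! k
          exact absurd (hj (Finset.card_le_one.1 e1 _ (k 1) _ (k (-1)))) (by decide)
        refine Or.inr ⟨-a, hev1 x e, Units.ext ?_⟩
        rw [neg_neg, hl, hev1 x e, one_mul, ← eP, Matrix.mul_assoc, ← Matrix.mul_assoc (σ x),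
          (e2 _ ha).2, eP, hQP, Units.val_one]
    · obtain ⟨_, hc, e⟩ := k7
      obtain ⟨c, hc', rfl⟩ := List.mem_map.1 hc
      exact ⟨_, List.mem_map_of_mem hc', hgd c e⟩
    · rw [BS.cnt, odd, List.countP_map, List.countP_map]
      exact List.countP_mono_left fun x _ h => decide_eq_true (hod x (of_decide_eq_true h))
    · have e : (s' :: R').prod = 1 := Subtype.ext ((map_list_prod H.subtype (s' :: R')).trans k4)
      rw [← List.map_cons, ← map_list_prod, e, map_one]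
      exact one_mem _
    · have e1 := PairH.of_map (FB.pm H.subtype) (l := (s', mv) :: R'.map fun x => (x, 1))
        (P := Mo) (Q := fun x => IsOfFinOrder x.1) (by
          rw [List.map_map] at k8
          rw [List.map_cons, List.map_map]
          exact k8)
      have e2 := pairH_push θ (e1.mono fun x hx => H.subtype_injective.isOfFinOrder_iff.1 hx)
      rw [List.map_cons, List.map_map] at e2
      rw [mkl, List.map_map]
      exact e2
    · obtain ⟨c, hc⟩ := hP (j a) (P a * E * Q a) (by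
        rw [← Matrix.mul_assoc, ← Matrix.mul_assoc, eP, Matrix.mul_assoc, Qe]) fun γ hγ => by
        obtain ⟨g, hg, e1, e2⟩ := k2 γ trivial (j a) ((hjS _).2 ⟨a, rfl⟩)
          (by rw [show b.bs.π γ (j a) = j a from hγ]; exact (hjS _).2 ⟨a, rfl⟩)
        have e3 : b.π g (j a) = j a := by
          rw [map_mul, Equiv.Perm.mul_apply, hγ, map_inv, Equiv.Perm.inv_eq_iff_eq] at e1
          exact e1.symm
        have e4 : σ γ * b.e (j a) = σ g * b.e (j a) := by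
          rw [← mul_inv_cancel_left g γ, map_mul, Matrix.mul_assoc, e2]
        have e5 := (hev ⟨g, hg⟩ a).2 e3
        obtain ⟨c, hc⟩ := h (θ ⟨g, hg⟩) (hgen ▸ ⟨_, rfl⟩) e5
        have e6 : σ γ * P a = P a * ((θ ⟨g, hg⟩).left a).val := by
          rw [← hP1 _ a e5, ← eP, ← Matrix.mul_assoc, e4, Matrix.mul_assoc]
        have e7 : Q a * σ γ = ((θ ⟨g, hg⟩).left a).val * Q a := by
          rw [← hQ1 _ a e5, ← Qe, Matrix.mul_assoc, ← hcm hγ, e4, hcm e3, Matrix.mul_assoc]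
        refine ⟨c, ?_⟩
        rw [← Matrix.mul_assoc, ← Matrix.mul_assoc, e6, Matrix.mul_assoc _ (Q a), e7,
          Matrix.mul_assoc (P a), hc, Matrix.mul_smul, Matrix.smul_mul]
        simp only [Matrix.mul_assoc]
      have e : E = c • 1 := by
        have := congrArg (fun z => Q a * z * P a) hc
        simpa only [← Matrix.mul_assoc, hQP, Matrix.one_mul, Matrix.mul_assoc _ (Q a),
          Matrix.mul_one, Matrix.mul_smul, Matrix.smul_mul, Qe] using this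
      rw [e, trace_smul, trace_one, smul_eq_mul, mul_eq_zero] at hE
      rw [e, hE.resolve_right (by simp), zero_smul]
  have hi := key.index
  rw [hgen] at hi
  refine index_of_agree b ht ((hjS _).2 ⟨1, rfl⟩) k2 (H₀ := Sc.comap θ)
    ⟨by rw [Subgroup.index_comap]; exact hi.1⟩ fun x hx => ⟨(hev x 1).1 hx.1, ?_⟩
  obtain ⟨c, hc⟩ := hx.2 1
  exact ⟨c, hsc x 1 c hx.1 hc⟩

end Pool.Agent.GR.RC
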