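import Pool.Agent.Lib.MP_aa40d3_nt.RC.DefsB
import Pool.Agent.Lib.MP_aa40d3_nt.CP.Fld

/-! Fuchsian systems on the line as systems on the curve `y = 0`. -/

open Polynomial Matrix
open scoped Polynomial.Bivariate IntermediateField

namespace Pool.Agent.GR.RC

open CV CP

variable {n N : ℕ} {t : Fin n → ℂ} {A : Fin n → Mt 2} {u : CV.LL} {c : ℂ}

/-- The Fuchsian system on the curve `y = 0`. -/
noncomputable def lin (t : Fin n → ℂ) (A : Fin n → Mt 2) : CV.Sys ℂ 2 :=
  ⟨Y, dl t, (pm t A).map C⟩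

theorem lin_A {L : Type} [CommRing L] [Algebra ℂ L] (x y : L) :
    (lin t A).A.map (aevalAeval x y) = (pm t A).map (aeval x) :=
  Matrix.ext fun _ _ => aevalAeval_C x y _

theorem lin_prim {F : Type} [Field F] [Algebra ℂ F] {x : F} (hx : Transcendental ℂ x)
    (hg : ℂ⟮x, 0⟯ = ⊤) (h : Prim t A) : PrimF (lin t A) x 0 := by
  intro δ W hδ hW hc
  have hM : GE.Model x 0 Y := ⟨hx, hg, monic_X, irreducible_X, aevalAeval_Y x 0⟩
  have hi : Function.Injective (aeval x : ℂ[X] →ₐ[ℂ] F) := transcendental_iff_injective.1 hx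
  have hden : ∀ v : F, ∃ p q : ℂ[X], p ≠ 0 ∧ aeval x p * v = aeval x q := fun v => by
    obtain ⟨p, a, k1, k2⟩ := hM.den v
    refine ⟨p, a.coeff 0, k1.ne_zero, k2.trans ?_⟩
    conv_lhs => rw [← X_mul_divX_add a]
    rw [map_add, map_mul, aevalAeval_Y, zero_mul, zero_add, aevalAeval_C]
  have hne : ∀ {p : ℂ[X]}, p ≠ 0 → aeval x p ≠ 0 := fun hp => (map_ne_zero_iff _ hi).2 hp
  have h1 : δ x ≠ 0 := fun e => hδ (Derivation.ext fun v => by
    obtain ⟨p, q, k1, k2⟩ := hden v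
    have k3 := congrArg δ k2
    rw [Derivation.leibniz, Derivation.map_aeval, Derivation.map_aeval, e, smul_zero, smul_zero,
      smul_zero, add_zero, smul_eq_mul] at k3
    exact (mul_eq_zero.1 k3).resolve_left (hne k1))
  let V : Submodule ℂ[X] (PM 2) :=
    { carrier := {Φ | Φ.map (aeval x) ∈ W}
      add_mem' := fun {Φ Ψ} k k' => show (Φ + Ψ).map _ ∈ W from fld_add (x := x) Φ Ψ ▸ W.add_mem k k'
      zero_mem' := show (0 : PM 2).map _ ∈ W by
        rw [Matrix.map_zero _ (map_zero _)]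
        exact W.zero_mem
      smul_mem' := fun p Φ k => show (p • Φ).map _ ∈ W from fld_smul (x := x) p Φ ▸ W.smul_mem k _ }
  have h2 := h V (fun Φ hΦ => by
    have k := W.smul_mem (hW _ hΦ) (δ x)⁻¹
    have e : (Φ.map (aeval x)).map δ = δ x • (Φ.map derivative).map (aeval x) :=
      Matrix.ext fun a b => by
        rw [Matrix.map_apply, Matrix.map_apply, Derivation.map_aeval, smul_eq_mul, mul_comm]
        rfl
    rw [lin_A, e, smul_comm _ (δ x), ← smul_sub, inv_smul_smul₀ h1] at k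
    change Matrix.map _ _ ∈ W
    rw [fld_sub, fld_sub, fld_smul, fld_mul, fld_mul]
    exact k) fun Φ hΦ Ψ hΨ => Matrix.map_injective hi (by
      beta_reduce
      rw [fld_mul, fld_mul]
      exact hc _ hΦ _ hΨ)
  refine eq_bot_iff.2 fun Ψ hΨ => ?_
  choose p q k1 k2 using fun z : Fin 2 × Fin 2 => hden (Ψ z.1 z.2)
  have k3 : (Matrix.of fun a b => q (a, b) * ∏ z ∈ Finset.univ.erase (a, b), p z).map (aeval x) =
      aeval x (∏ z, p z) • Ψ := Matrix.ext fun a b => by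
    rw [Matrix.map_apply, Matrix.of_apply, map_mul, ← k2, Matrix.smul_apply, smul_eq_mul,
      ← Finset.mul_prod_erase _ p (Finset.mem_univ (a, b)), map_mul]
    ring
  obtain ⟨e, k4⟩ := h2 _ (show Matrix.map _ _ ∈ W from k3 ▸ W.smul_mem hΨ _)
  rw [k4, fld_smul, Matrix.map_one _ (map_zero _) (map_one _)] at k3
  refine Algebra.mem_bot.2 ⟨(aeval x (∏ z, p z))⁻¹ * aeval x e, ?_⟩
  rw [Algebra.algebraMap_eq_smul_one, mul_smul, k3,
    inv_smul_smul₀ (hne (Finset.prod_ne_zero_iff.2 fun z _ => k1 z))]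

theorem cor_ov (hu : Ov 1 (u - algebraMap ℂ CV.LL c)) (p : ℂ[X]) :
    Ov 0 (ev u p) ∧ (ev u p).coeff 0 = p.eval c := by
  have h0 : Ov 0 u := by simpa using (hu.mono zero_le_one).add (ov_alg c)
  have h1 : ∀ p : ℂ[X], Ov 0 (ev u p) := fun p => by
    induction p using Polynomial.induction_on' with
    | add p q hp hq => rw [map_add]; exact hp.add hq
    | monomial k a =>
      rw [← C_mul_X_pow_eq_monomial, map_mul, map_pow, ev_C, ev_X]
      exact (ov_alg a).mul_left (h0.pow k)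
  obtain ⟨q, hq⟩ := X_sub_C_dvd_sub_C_eval (a := c) (p := p)
  have h2 := hu.mul_right (h1 q) 0 zero_lt_one
  rw [← ev_C u, ← ev_X u, ev_X, ← ev_X u, ev_X, show u - ev u (C c) = ev u (X - C c) by
    rw [map_sub, ev_X], ← map_mul, ← hq, map_sub, ev_C, HahnSeries.coeff_sub, alg_eq,
    HahnSeries.coeff_single_same] at h2
  exact ⟨h1 p, sub_eq_zero.1 h2⟩

theorem cor_ode {M : LM N} (h : ∀ a b, Ov 0 (M a b)) : ∃ G : LM N, G.det ≠ 0 ∧ G.map dL = M * G := by
  let j : PowerSeries ℂ →+* CV.LL := HahnSeries.ofPowerSeries ℤ ℂ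
  obtain ⟨G, h1, h2⟩ := exists_fsol (Matrix.of fun a b => PowerSeries.mk fun k => (M a b).coeff k)
  have h3 : (Matrix.of fun a b => PowerSeries.mk fun k => (M a b).coeff k).map j = M := by
    ext a b k
    rw [Matrix.map_apply, PowerSeries.coeff_coe, Matrix.of_apply, PowerSeries.coeff_mk]
    split_ifs with hk
    · exact (h a b k hk).symm
    · rw [Int.natAbs_of_nonneg (not_lt.1 hk)]
  have h4 : ∀ f, dL (j f) = j (PowerSeries.derivative ℂ f) := fun f => by
    ext k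
    rw [dL_coeff, PowerSeries.coeff_coe, PowerSeries.coeff_coe, PowerSeries.coeff_derivative]
    rcases lt_trichotomy k (-1) with hk | rfl | hk
    · rw [if_pos (by omega), if_pos (by omega), mul_zero]
    · simp
    · obtain ⟨m, rfl⟩ := Int.eq_ofNat_of_zero_le (show 0 ≤ k by omega)
      rw [if_neg (by omega), if_neg (by omega), Int.natAbs_natCast, ← Nat.cast_succ,
        Int.natAbs_natCast, mul_comm, Int.cast_natCast]
  refine ⟨G.map j, fun e => ?_, ?_⟩
  · rw [← RingHom.mapMatrix_apply, ← RingHom.map_det,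
      map_eq_zero_iff _ HahnSeries.ofPowerSeries_injective] at e
    have h5 := RingHom.map_det (PowerSeries.constantCoeff (R := ℂ)) G
    rw [e, map_zero, RingHom.mapMatrix_apply, ← PowerSeries.coeff_zero_eq_constantCoeff, h2,
      det_one] at h5
    exact zero_ne_one h5
  · rw [← h3, ← Matrix.map_mul, ← h1]
    exact Matrix.ext fun a b => h4 _

theorem cor_alg {K : Type} [Field K] {d : K} (hd : d ≠ 0) (s e : K)
    (P G : Matrix (Fin N) (Fin N) K) : d • ((d⁻¹ * e) • P * G) = e • (P * G) ∧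
      d • (s • (0 : Matrix (Fin N) (Fin N) K) + 1 * (d⁻¹ * e) • P) = e • (P * 1) := by
  rw [Matrix.smul_mul, smul_zero, zero_add, Matrix.one_mul, Matrix.mul_one, smul_smul, smul_smul,
    mul_inv_cancel_left₀ hd]
  exact ⟨rfl, rfl⟩

theorem lin_loc (hu : Ov 1 (u - algebraMap ℂ CV.LL c)) (hc : ∀ i, c ≠ t i) : (lin t A).Loc u 0 := by
  have h0 : (ev u (dl t)).coeff 0 ≠ 0 := by
    rw [(cor_ov hu _).2]
    exact fun e => (dl_root e).elim fun i k => hc i k.symm
  have h1 : ev u (dl t) ≠ 0 := fun e => h0 (by rw [e]; rfl)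
  obtain ⟨G, h2, h3⟩ := cor_ode (M := ((ev u (dl t))⁻¹ * dL u) • (pm t A).map (ev u)) fun a b =>
    (((cor_ov hu _).1.inv h0).mul_left (ev_X u ▸ (cor_ov hu X).1).der).mul_left (cor_ov hu _).1
  refine ⟨aevalAeval_Y u 0, G, h2, ?_⟩
  rw [lin_A]
  change ev u (dl t) • G.map dL = dL u • ((pm t A).map (ev u) * G)
  rw [h3]
  exact (cor_alg h1 0 _ _ _).1

theorem lin_exp (ht : Function.Injective t) {o : Fin n} (hu : Ov 1 (u - algebraMap ℂ CV.LL (t o)))
    (h1 : u.coeff 1 ≠ 0) {a b : ℂ} (h2 : (A o).charpoly = (X - C a) * (X - C b))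
    (h3 : ∀ z : ℤ, a - b ≠ z) : Exp (lin t A) u 0 := by
  obtain ⟨w, hw⟩ := dvd_iff_isRoot.2 (dl_eval t o)
  have hd : (derivative (dl t)).eval (t o) = w.eval (t o) := by simp [hw]
  have e1 : ev u (dl t) = (u - algebraMap ℂ CV.LL (t o)) * ev u w := by
    rw [hw, map_mul, map_sub, ev_X, ev_C]
  have e2 : (ev u (dl t)).coeff 1 = u.coeff 1 * (derivative (dl t)).eval (t o) := by
    have := hu.coeff_mul (cor_ov hu w).1
    rwa [← e1, add_zero, (cor_ov hu w).2, ← hd, HahnSeries.coeff_sub, alg_eq,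
      HahnSeries.coeff_single_of_ne one_ne_zero, sub_zero] at this
  have e3 : Ov 1 (ev u (dl t)) := e1 ▸ hu.mul_right (cor_ov hu w).1
  have e4 : (ev u (dl t)).coeff 1 ≠ 0 := e2 ▸ mul_ne_zero h1 (dl_deriv_ne ht o)
  have e5 : ev u (dl t) ≠ 0 := fun e => e4 (by rw [e]; rfl)
  have e6 : Ov 0 ((ev u (dl t))⁻¹ * (sL * dL u)) :=
    (e3.inv e4).mul (ev_X u ▸ (cor_ov hu X).1).sder_one
  have e7 := e3.coeff_mul e6
  rw [mul_inv_cancel_left₀ e5, add_zero, sdL_coeff, Int.cast_one, one_mul, e2, mul_assoc,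
    left_eq_mul₀ h1] at e7
  refine ⟨1, ((ev u (dl t))⁻¹ * (sL * dL u)) • (pm t A).map (ev u), a, b, by simp,
    fun i j => e6.mul_left (cor_ov hu _).1, ?_, h3, ?_⟩
  · rw [← h2]
    congr 1
    ext i j
    have e8 := e6.coeff_mul (cor_ov hu (pm t A i j)).1
    have e9 := congrFun (congrFun (pm_eval t A o) i) j
    rw [Matrix.map_apply, Matrix.smul_apply, smul_eq_mul] at e9
    rw [add_zero, (cor_ov hu _).2, e9, ← mul_assoc (HahnSeries.coeff _ _), mul_comm _ (eval _ _), e7,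
      one_mul] at e8
    exact e8
  · rw [lin_A]
    change ev u (dl t) • (sL • (1 : LM 2).map dL + _) = (sL * dL u) • ((pm t A).map (ev u) * 1)
    rw [show (1 : LM 2).map dL = 0 from Matrix.ext fun i j => by
      simp [Matrix.one_apply, apply_ite dL, dL_zero, dL_one]]
    exact (cor_alg e5 _ _ _ 1).2

end Pool.Agent.GR.RC
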