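import Pool.Agent.Lib.MP_aa40d3_nt.RC.Final
import Pool.Agent.Lib.MP_aa40d3_nt.RC.CorA
import Pool.Agent.Lib.MP_aa40d3_nt.RC.CorB
import Pool.Agent.Lib.MP_aa40d3_nt.RC.CorC

/-! The theorem on the line follows from the theorem on curves. -/

open Polynomial
open scoped Polynomial.Bivariate IntermediateField

namespace Pool.Agent.GR.RC

open Pool.Agent.Lib.MP_a01f70_lc.QQ Pool.Agent.GR.CV Pool.Agent.GR.GE

theorem cor_line (n : ℕ) (R : Type) [CommRing R] [Algebra.FiniteType ℤ R] (ι : R →+* ℂ)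
    (hι : Function.Injective ι) (t : Fin n → R) (A : Fin n → Matrix (Fin 2) (Fin 2) R) (o : Fin n)
    (ht : Function.Injective t)
    (ho : Transcendental (IntermediateField.adjoin ℚ {x : ℂ | ∃ j, j ≠ o ∧ x = ι (t j)}) (ι (t o)))
    (he : ∃ lam mu : ℂ, (∀ z : ℤ, mu - lam ≠ z) ∧
      ((A o).map ι).charpoly = (X - C mu) * (X - C lam))
    (hpr : Prim (fun i => ι (t i)) fun i => (A i).map ι)
    (hp : ∀ m : Ideal R, m.IsMaximal →
      HasFund (fun i => Ideal.Quotient.mk m (t i)) fun i => (A i).map (Ideal.Quotient.mk m))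
    (φ : R →+* ℂ) : AlgSol (fun i => φ (t i)) fun i => (A i).map φ := by
  classical
  obtain ⟨F, _, _, x, hx, hg1⟩ : ∃ (F : Type) (_ : Field F) (_ : Algebra ℂ F) (x : F),
      Transcendental ℂ x ∧ ℂ⟮x⟯ = ⊤ :=
    ⟨RatFunc ℂ, _, _, RatFunc.X, RatFunc.transcendental_X, RatFunc.adjoin_X⟩
  have hg : ℂ⟮x, 0⟯ = ⊤ := top_le_iff.1 (hg1.ge.trans
    (IntermediateField.adjoin.mono _ _ _ (Set.singleton_subset_iff.2 (Set.mem_insert _ _))))
  have hY : aevalAeval x (0 : F) (Y : ℂ[X][Y]) = 0 := aevalAeval_Y x 0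
  have : IsFF F := isFF_of_gen hx hg X_ne_zero hY
  obtain ⟨g0, q, P, k1, k2, k3, k4, k5⟩ := deg_one hx (hg1 ▸ IntermediateField.finrank_top)
  have k6 : ∀ c ψ, At ψ (P c) → Ov 1 (ψ x - algebraMap ℂ _ c) ∧ (ψ x).coeff 1 ≠ 0 := fun c ψ h => by
    have e : ψ (x - algebraMap ℂ F c) = ψ x - algebraMap ℂ _ c := by rw [map_sub, AlgHom.commutes]
    refine ⟨e ▸ h.ge.1 (.of_le (k4 c).ge), fun h0 => ?_⟩
    have h1 := (h _).trans (k4 c)
    have h2 : (ψ (x - algebraMap ℂ F c)).coeff (ψ (x - algebraMap ℂ F c)).order = 0 := by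
      rw [h1, e, HahnSeries.coeff_sub, h0, rb1_alg, HahnSeries.coeff_single_of_ne one_ne_zero,
        sub_zero]
    rw [HahnSeries.coeff_order_eq_zero.1 h2, HahnSeries.order_zero] at h1
    exact zero_ne_one h1
  obtain ⟨lam, mu, l1, l2⟩ := he
  refine linR_alg (linR_map t A φ ▸ final15 R ι φ (linR t A) F x 0
    (insert q (Finset.univ.image fun i => P (ι (t i)))) (P (ι (t o)))
    ((RingHom.injective_iff_ker_eq_bot ι).1 hι ▸ bot_le) monic_X ?_ ?_ ?_ hx hg ?_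
    (Finset.mem_insert_of_mem (Finset.mem_image_of_mem _ (Finset.mem_univ o)))
    ⟨x, _, _, ho, by rw [k4]; exact one_pos, ?_⟩ (fun ψ hψ => ?_) (Or.inl g0) (fun p hp ψ hψ => ?_)
    ?_ fun m hm => ?_)
  · rw [linR_map]
    exact irreducible_X
  · rw [linR_map]
    exact irreducible_X
  · rw [linR_map]
    exact (dl_monic _).ne_zero
  · rw [linR_map]
    exact hY
  · rintro p c (h | ⟨h1, h2, h3⟩)
    · have h1 := k5 p c (by omega)
      rw [h1, k4] at h
      omega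
    · obtain rfl := k5 p c h3
      obtain ⟨j, -, e⟩ := Finset.mem_image.1 ((Finset.mem_insert.1 h1).resolve_left (k2 c))
      exact IntermediateField.subset_adjoin ℚ _ ⟨j, fun e' => h2 (e' ▸ e.symm), (k1 e).symm⟩
  · rw [linR_map, map_zero]
    exact lin_exp (hι.comp ht) (k6 _ ψ hψ).1 (k6 _ ψ hψ).2 l2 l1
  · obtain ⟨c, rfl⟩ := k3 p fun e => hp (e ▸ Finset.mem_insert_self _ _)
    rw [linR_map, map_zero]
    exact lin_loc (k6 _ ψ hψ).1 fun i e => hp
      (Finset.mem_insert_of_mem (Finset.mem_image.2 ⟨i, Finset.mem_univ _, congrArg P e.symm⟩))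
  · rw [linR_map]
    exact lin_prim hx hg hpr
  · rw [linR_map]
    exact linR_fund (hp m hm)

end Pool.Agent.GR.RC
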