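import Pool.Agent.Lib.MP_aa40d3_nt.RC.Stmt
import Pool.Agent.Lib.MP_aa40d3_nt.FB.Stmt
import Pool.Agent.Lib.MP_aa40d3_nt.FK.ConvP
import Pool.Agent.Lib.MP_aa40d3_nt.MG.Stmt
import Pool.Agent.Lib.MP_aa40d3_nt.MG.Defs

/-! Rank two on a curve: auxiliary definitions. -/

open Polynomial Matrix
open scoped Polynomial.Bivariate

namespace Pool.Agent.GR.RC

open CV NP FK

variable {N n : ℕ}

/-- One branch with exponents and `d - 1` ordinary branches over `t`. -/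
def PunP (S : CV.Sys ℂ 2) (d : ℕ) (t : ℂ) : Prop :=
  ∃ (z : CV.LL) (y : Fin (d - 1) → CV.LL), Function.Injective y ∧ z ∉ Set.range y ∧
    (∀ j, S.Loc (xt t 1) (y j)) ∧ aevalAeval (xt t 1) z S.P = 0 ∧ Exp S (xt t 1) z

/-- The eigenvalues of the residue of the direct image. -/
def Exps (d : ℕ) (A : Mt N) : Prop :=
  ∃ a b : ℂ, (∀ z : ℤ, a - b ≠ z) ∧ A.charpoly = X ^ (2 * (d - 1)) * ((X - C a) * (X - C b))

/-- The eigenvalues of the local monodromy of the direct image. -/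
def Two (d : ℕ) (g : Mt N) : Prop :=
  ∃ a b : ℂ, a ≠ b ∧ g.charpoly = (X - C 1) ^ (2 * (d - 1)) * ((X - C a) * (X - C b))

/-- `W` is maximal among the commutative subsystems. -/
def PrimZ (t : Fin n → ℂ) (A : Fin n → Mt N) (W : Subalgebra ℂ[X] (PM N)) : Prop :=
  ∀ W', SubEnd t A W' → W ≤ W' → (∀ Φ ∈ W', ∀ Ψ ∈ W', Φ * Ψ = Ψ * Φ) → W' ≤ W

/-- The direct image of a primitive system along a simple covering. -/
structure CovR (Bs : Finset (Fin n)) (d : ℕ) (t : Fin n → ℂ) (A : Fin n → Mt N)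
    (W : Subalgebra ℂ[X] (PM N)) : Prop where
  inv : ∀ Φ ∈ W, Φ ≠ 0 → Φ.det ≠ 0
  stab : ∀ Φ ∈ W, dl t • Φ.map derivative - (pm t A * Φ - Φ * pm t A) ∈ W
  comm : ∀ Φ ∈ W, ∀ Ψ ∈ W, Φ * Ψ = Ψ * Φ
  rank : Module.finrank ℂ[X] W = d
  bra : ∀ i ∈ Bs, RamAt t A W i ∧ ASp (N - 2) t A i
  pun : ∀ i, i ∉ Bs → ASp N t A i ∨ AEp 2 (d - 1) t A W i
  prim : PrimZ t A W

/-- Primitivity for a connection matrix over the function field. -/
def PrimB {F : Type} [Field F] [Algebra ℂ F] (δ : Derivation ℂ F F)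
    (B : Matrix (Fin 2) (Fin 2) F) : Prop :=
  ∀ W : Subalgebra F (Matrix (Fin 2) (Fin 2) F), (∀ Φ ∈ W, Φ.map δ - (B * Φ - Φ * B) ∈ W) →
    (∀ Φ ∈ W, ∀ Ψ ∈ W, Φ * Ψ = Ψ * Φ) → W = ⊥

open Pool.Agent.GR.GE Pool.Agent.Lib.MP_a01f70_lc.QQ in
/-- A point of `Σ` with exponents at which `f - c` vanishes to order one. -/
def Pun {F : Type} [Field F] [Algebra ℂ F] (S : CV.Sys ℂ 2) (x y : F) (Sg : Finset (Place ℂ F))
    (f : F) (c : ℂ) : Prop :=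
  ∃ p ∈ Sg, p.ord (f - algebraMap ℂ F c) = 1 ∧ ∀ φ, At φ p → Exp S (φ x) (φ y)

end Pool.Agent.GR.RC
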