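import Pool.Agent.Lib.MP_aa40d3_nt.RC.Brg
import Pool.Agent.Lib.MP_aa40d3_nt.RC.DefsB
import Pool.Agent.Lib.MP_aa40d3_nt.FK.She
import Pool.Agent.Lib.MP_aa40d3_nt.CP.Grp

/-! The monodromy group of the direct image. -/

open Matrix Polynomial

namespace Pool.Agent.GR.RC

open GC FB FK CP

section
variable {G : Type} [Group G] {d m : ℕ} {σ : G →* Mt m}

/-- If `x` is trivial off the sheet `i` and the scalar `ε` on it then `σ x = 1 + (ε - 1) e i`, the
eigenvalues are `1` or `ε`, and the trace is `2 (d - 1) + 2 ε`. -/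
theorem good_of_two (b : BR σ d) (hrk : ∀ i, (b.e i).rank = 2) {x : G} (hx : b.bs.Punc 1 x)
    (h : Two d (σ x)) (hm : m = 2 * d) (hd : d ≠ 0) : Good b x := by
  refine ⟨hx.1, by_contra fun hn => ?_⟩
  push Not at hn
  obtain ⟨-, T, hT, hK⟩ := hx
  obtain ⟨i, hi⟩ : ∃ i : Fin d, ∀ l, l ≠ i → σ x * b.e l = b.e l := by
    have : Nonempty (Fin d) := ⟨⟨0, Nat.pos_of_ne_zero hd⟩⟩
    obtain ⟨i, hi⟩ := Finset.card_le_one_iff_subset_singleton.1 hT
    exact ⟨i, fun l hl => (hK l fun h => hl (Finset.mem_singleton.1 (hi h))).2⟩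
  obtain ⟨ε, hε⟩ := hn i
  have e : σ x = 1 + (ε - 1) • b.e i := by
    rw [← Matrix.mul_one (σ x), ← b.sum, Finset.mul_sum, ← Finset.add_sum_erase _ _
      (Finset.mem_univ i), ← Finset.add_sum_erase _ b.e (Finset.mem_univ i), hε,
      Finset.sum_congr rfl fun l hl => hi l (Finset.ne_of_mem_erase hl), sub_smul, one_smul]
    abel
  obtain ⟨p, q, hpq, h⟩ := h
  have h1 : ∀ a : ℂ, (σ x).charpoly.eval a = 0 → a = 1 ∨ a = ε := fun a ha => by
    rw [eval_charpoly] at ha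
    obtain ⟨v, hv, k⟩ := exists_mulVec_eq_zero_iff.2 ha
    rw [sub_mulVec, sub_eq_zero, scalar_apply, diagonal_const_mulVec, e, add_mulVec, one_mulVec,
      smul_mulVec] at k
    by_cases h0 : b.e i *ᵥ v = 0
    · rw [h0, smul_zero, add_zero] at k
      exact Or.inl (smul_left_injective ℂ hv (k.trans (one_smul ℂ v).symm))
    · have k' := congrArg (b.e i *ᵥ ·) k
      simp only [mulVec_smul, mulVec_add, mulVec_mulVec, b.idem] at k'
      refine Or.inr (smul_left_injective ℂ h0 (k'.trans ?_))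
      simp only [sub_smul, one_smul, add_sub_cancel]
  have h2 := trace_eq_neg_charpoly_nextCoeff (σ x)
  rw [h, ((monic_X_sub_C _).pow _).nextCoeff_mul ((monic_X_sub_C _).mul (monic_X_sub_C _)),
    (monic_X_sub_C _).nextCoeff_pow, (monic_X_sub_C _).nextCoeff_mul (monic_X_sub_C _),
    nextCoeff_X_sub_C, nextCoeff_X_sub_C, nextCoeff_X_sub_C, e, trace_add, trace_smul, trace_one,
    loc_trace (b.idem i), hrk, Fintype.card_fin, hm, nsmul_eq_mul] at h2
  obtain ⟨d, rfl⟩ := Nat.exists_eq_succ_of_ne_zero hd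
  simp only [Nat.succ_sub_one, smul_eq_mul] at h2
  push_cast at h2
  rcases h1 p (by simp [h]) with k | k <;> rcases h1 q (by simp [h]) with k' | k' <;>
    refine hpq ?_
  · rw [k, k']
  · linear_combination -h2 - 2 * k'
  · linear_combination h2 + 2 * k
  · rw [k, k']

theorem top_cent {S : Set (Mt m)} (h : ∀ γ, ∀ y ∈ S, σ γ * y * σ γ⁻¹ ∈ S) :
    InvR σ (Subalgebra.centralizer ℂ S) := fun γ x hx => by
  rw [Subalgebra.mem_centralizer_iff] at hx ⊢
  intro y hy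
  have k := hx _ (h γ⁻¹ y hy)
  rw [inv_inv] at k
  calc y * (σ γ * x * σ γ⁻¹) = σ γ * (σ γ⁻¹ * y * σ γ * x) * σ γ⁻¹ := by
        simp only [← Matrix.mul_assoc, rep_mul_inv, Matrix.one_mul]
    _ = _ := by rw [k]; simp only [Matrix.mul_assoc, rep_mul_inv, Matrix.mul_one]

theorem top_act (b : BR σ d) (γ : G) (i : Fin d) : σ γ * b.e i * σ γ⁻¹ = b.e (b.π γ i) := by
  rw [b.act, Matrix.mul_assoc, rep_mul_inv, Matrix.mul_one]

theorem top_mul (γ : G) (x y : Mt m) :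
    σ γ * (x * y) * σ γ⁻¹ = σ γ * x * σ γ⁻¹ * (σ γ * y * σ γ⁻¹) := by
  rw [Matrix.mul_assoc (σ γ * x), ← Matrix.mul_assoc (σ γ⁻¹), ← Matrix.mul_assoc (σ γ⁻¹),
    rep_inv_mul, Matrix.one_mul, ← Matrix.mul_assoc, ← Matrix.mul_assoc]

theorem top_cj (γ δ : G) (x : Mt m) :
    σ γ * (σ δ * x * σ δ⁻¹) * σ γ⁻¹ = σ (γ * δ) * x * σ (γ * δ)⁻¹ := by
  simp only [_root_.mul_inv_rev, map_mul, Matrix.mul_assoc]

/-- The centraliser of the centraliser of `Z` and the conjugates of `E`. -/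
theorem prim_blocks (b : BR σ d) {Z : Subalgebra ℂ (Mt m)} (hm : ∀ i, b.e i ∈ Z)
    (hs : ∀ y ∈ Z, ∃ c : Fin d → ℂ, y = ∑ i, c i • b.e i)
    (hP : ∀ Z' : Subalgebra ℂ (Mt m), InvR σ Z' → Z ≤ Z' → CommA Z' → Z' ≤ Z) (i : Fin d)
    (E : Mt m) (h1 : b.e i * E * b.e i = E)
    (h2 : ∀ γ, b.π γ i = i → ∃ a : ℂ, σ γ * E = a • (E * σ γ)) : ∃ a : ℂ, E = a • b.e i := by
  have k1 : ∀ γ l, b.e l * (σ γ * E * σ γ⁻¹) = σ γ * E * σ γ⁻¹ * b.e l ∧
      (l ≠ b.π γ i → b.e l * (σ γ * E * σ γ⁻¹) = 0) := fun γ l => by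
    have e : σ γ * E * σ γ⁻¹ = b.e (b.π γ i) * (σ γ * E * σ γ⁻¹) * b.e (b.π γ i) := by
      rw [← top_act, ← top_mul, ← top_mul, h1]
    by_cases hl : l = b.π γ i
    · refine ⟨?_, fun h => absurd hl h⟩
      rw [hl, e]
      simp only [Matrix.mul_assoc, b.idem]
      rw [← Matrix.mul_assoc (b.e _), b.idem]
    · have e1 : b.e l * (σ γ * E * σ γ⁻¹) = 0 := by
        rw [e, ← Matrix.mul_assoc, ← Matrix.mul_assoc, b.orth _ _ hl, Matrix.zero_mul,
          Matrix.zero_mul]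
      exact ⟨by rw [e1, e, Matrix.mul_assoc, b.orth _ _ (Ne.symm hl), Matrix.mul_zero],
        fun _ => e1⟩
  have k2 : ∀ γ δ, σ γ * E * σ γ⁻¹ * (σ δ * E * σ δ⁻¹) = σ δ * E * σ δ⁻¹ * (σ γ * E * σ γ⁻¹) := by
    have k3 : ∀ γ δ, b.π γ i ≠ b.π δ i → σ γ * E * σ γ⁻¹ * (σ δ * E * σ δ⁻¹) = 0 := fun γ δ h => by
      rw [← h1, top_mul γ, top_act, h1, Matrix.mul_assoc _ (b.e _), (k1 δ _).2 h, Matrix.mul_zero]
    intro γ δ
    by_cases h : b.π γ i = b.π δ i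
    · obtain ⟨a, ha⟩ := h2 (δ⁻¹ * γ) (by simp [h])
      have e : σ γ * E * σ γ⁻¹ = a • (σ δ * E * σ δ⁻¹) := by
        rw [← mul_inv_cancel_left δ γ, ← top_cj, ha, Matrix.smul_mul, Matrix.mul_assoc E,
          rep_mul_inv, Matrix.mul_one, Matrix.mul_smul, Matrix.smul_mul]
      rw [e, Matrix.mul_smul, Matrix.smul_mul]
    · rw [k3 γ δ h, k3 δ γ (Ne.symm h)]
  let S : Set (Mt m) := Set.range b.e ∪ Set.range fun γ => σ γ * E * σ γ⁻¹
  have s1 : S ⊆ Subalgebra.centralizer ℂ S := by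
    rintro _ (⟨l, rfl⟩ | ⟨γ, rfl⟩) _ (⟨l', rfl⟩ | ⟨δ, rfl⟩)
    · by_cases h : l' = l
      · rw [h]
      · rw [b.orth _ _ h, b.orth _ _ (Ne.symm h)]
    exacts [(k1 δ l).1.symm, (k1 γ l').1, k2 δ γ]
  have s2 : ∀ y ∈ S, y ∈ Subalgebra.centralizer ℂ (Subalgebra.centralizer ℂ S : Set (Mt m)) :=
    fun y hy z hz => (hz y hy).symm
  obtain ⟨c, hc⟩ : ∃ c : Fin d → ℂ, E = ∑ i, c i • b.e i := by
    refine hs E (hP _ (top_cent (top_cent ?_)) (fun z hz => ?_)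
      (fun x hx y hy => (hx y fun z hz => hy z (s1 hz)).symm) (s2 E (Or.inr ⟨1, by simp⟩)))
    · rintro γ _ (⟨l, rfl⟩ | ⟨δ, rfl⟩)
      exacts [Or.inl ⟨_, (top_act b γ l).symm⟩, Or.inr ⟨_, (top_cj γ δ E).symm⟩]
    · obtain ⟨c, rfl⟩ := hs z hz
      exact sum_mem fun l _ => Subalgebra.smul_mem _ (s2 _ (Or.inl ⟨l, rfl⟩)) _
  refine ⟨c i, ?_⟩
  rw [← h1, hc, Finset.mul_sum, Finset.sum_eq_single i (fun l _ hl => by
    rw [Matrix.mul_smul, b.orth _ _ hl.symm, smul_zero]) (by simp), Matrix.mul_smul, b.idem,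
    Matrix.smul_mul, b.idem]

/-- The projection `y ↦ ∑ i, e i * y * e i`. -/
theorem finOn_blocks (b : BR σ d) {N : Subgroup G} (hN : N.FiniteIndex)
    (h : ∀ γ ∈ N, ∀ i, b.π γ i = i ∧ ∃ a : ℂ, σ γ * b.e i = a • b.e i) {S : Set (Mt m)}
    (hS : ∀ y ∈ S, ∀ i, y * b.e i = b.e i * y) : FinOn σ S := by
  refine ⟨N, ∑ i, (LinearMap.mulRight ℂ (b.e i)).comp (LinearMap.mulLeft ℂ (b.e i)), hN,
    fun y hy => ?_, fun γ hγ y => ?_⟩
  · rw [LinearMap.sum_apply]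
    conv_rhs => rw [← Matrix.mul_one y, ← b.sum, Finset.mul_sum]
    refine Finset.sum_congr rfl fun i _ => ?_
    change b.e i * y * b.e i = _
    rw [← hS y hy, Matrix.mul_assoc, b.idem]
  · rw [LinearMap.sum_apply, LinearMap.sum_apply]
    refine Finset.sum_congr rfl fun i _ => ?_
    obtain ⟨-, a, ha⟩ := h γ hγ i
    have k := b.act γ⁻¹ i
    rw [(h _ (inv_mem hγ) i).1] at k
    change b.e i * (σ γ⁻¹ * y * σ γ) * b.e i = b.e i * y * b.e i
    rw [← Matrix.mul_assoc, ← Matrix.mul_assoc, ← k, Matrix.mul_assoc, ha, Matrix.mul_smul,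
      ← Matrix.smul_mul, ← Matrix.smul_mul, ← Matrix.mul_smul, ← ha, ← Matrix.mul_assoc,
      rep_inv_mul, Matrix.one_mul]

end

/-- As `group_pre`. -/
theorem group_finR {d n : ℕ} (hd : 2 ≤ d) {o j : Fin n} (hj : j ≠ o) {Bs : Finset (Fin n)}
    {g : Fin n → GLr (2 * d)} {ρ : Fin n → ℝ} (hρ : Function.Injective ρ)
    (ho : ∀ L, LowerL ρ L → (∀ a, a ∈ L) →
      PairH Mo (fun x => IsOfFinOrder x.1) (L.map (mkd {o} g)))
    (hq : ∀ a, IsOfFinOrder (g a).val) (hinf : ∀ L, LowerL ρ L → (∀ a, a ∈ L) → (L.map g).prod = 1)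
    {Z : Subalgebra ℂ (Mt (2 * d))} (hI : SimpZ (incl (Subgroup.closure (Set.range g))) Z)
    (hZ : ∀ γ ∈ Subgroup.closure (Set.range g), ∀ x ∈ Z, γ.val * x * (γ⁻¹).val ∈ Z)
    (hc : CommA Z) (hfr : Module.finrank ℂ Z = d) (hB : 2 * d ≤ Bs.card) (ho' : o ∉ Bs)
    (hj' : j ∉ Bs) (wo : Two d (g o).val) (wj : Two d (g j).val)
    (hMa : ∀ a ∈ Bs, ((g a).val - 1).rank ≤ 2 ∧ ∃ x ∈ Z, (g a).val * x ≠ x * (g a).val)
    (hP : ∀ a, a ∉ Bs → g a = 1 ∨ She 2 (d - 1) (g a).val Z)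
    (hZ' : ∀ Z' : Subalgebra ℂ (Mt (2 * d)), InvR (incl (Subgroup.closure (Set.range g))) Z' →
      Z ≤ Z' → CommA Z' → Z' ≤ Z) :
    FinOn (incl (Subgroup.closure (Set.range g))) {y | ∀ z ∈ Z, y * z = z * y} := by
  classical
  obtain ⟨L0, h1, h2⟩ := exists_lowerL hρ Finset.univ fun _ _ _ _ => Finset.mem_univ _
  have h0 : L0.Nodup := h1.1.imp fun hab e => hab.ne (congrArg _ e)
  have hall : ∀ a, a ∈ L0 := fun a => List.mem_toFinset.1 (h2 ▸ Finset.mem_univ a)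
  set Γ := Subgroup.closure (Set.range g) with hΓ
  let g' : Fin n → Γ := fun a => ⟨g a, Subgroup.subset_closure ⟨a, rfl⟩⟩
  have hg : Subgroup.closure (Set.range g') = ⊤ := by
    apply Subgroup.map_injective Γ.subtype_injective
    rw [MonoidHom.map_closure, ← Set.range_comp, ← MonoidHom.range_eq_map, Subgroup.range_subtype]
    rfl
  have hsub : ∀ x : Γ, IsOfFinOrder x.val → IsOfFinOrder x := fun x =>
    (Subgroup.subtype_injective _).isOfFinOrder_iff.1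
  have hf : PairH Mo (fun x => IsOfFinOrder x.1.val) (L0.map (mkd {o} g')) := by
    have e : (L0.map (mkd {o} g')).map (FB.pm Γ.subtype) = L0.map (mkd {o} g) := by
      rw [List.map_map]
      rfl
    have k := ho L0 h1 hall
    rw [← e] at k
    exact k.of_map (FB.pm Γ.subtype)
  have hfst : (L0.map (mkd {o} g')).map Prod.fst = L0.map g' := by
    rw [List.map_map]
    rfl
  have hZi : InvR (incl Γ) Z := fun γ => hZ γ γ.2
  have : NeZero (2 * d) := ⟨by omega⟩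
  have := hI.semi hZi
  obtain ⟨e, e0, e1, e2, e3, e4⟩ := exists_idemS hc hfr
  obtain ⟨b, rfl⟩ := exists_BR (incl_inj Γ) hZi e0 e1 e2 e3 e4
  have hE := hI.trans hZi b e0 e1
  have hp : ((L0.map g').prod).val = (L0.map g).prod := by
    rw [← Γ.coe_subtype, map_list_prod, List.map_map]
    rfl
  have hgen : gen (L0.map g') = ⊤ := by
    rw [← hg, gen]
    congr 1
    ext x
    simp [hall]
  have hrk := b.rank_eq hE rfl
  have hπ : ∀ a ∈ Bs, b.bs.π (g' a) ≠ 1 := fun a ha h4 => by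
    obtain ⟨x, hx, h3⟩ := (hMa a ha).2
    refine h3 ?_
    obtain ⟨c, rfl⟩ := e4 x hx
    rw [Finset.mul_sum, Finset.sum_mul]
    refine Finset.sum_congr rfl fun i _ => ?_
    have h5 := b.act (g' a) i
    rw [show b.π (g' a) = 1 from h4] at h5
    rw [Matrix.mul_smul, Matrix.smul_mul]
    exact congrArg _ h5
  have hpu : ∀ a, a ∉ Bs → b.bs.Punc 1 (g' a) := fun a ha => by
    rcases hP a ha with h | h
    · rw [show g' a = 1 from Subtype.ext h]
      exact ⟨map_one _, ∅, by simp, fun _ _ => one_mem _⟩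
    · exact punc_of_she b one_le_two hrk e1 (x := g' a) h
  refine (scalar_index b hd hrk (l := L0.map (mkd {o} g')) (hfst ▸ hgen) hE
    (List.forall_mem_map.2 fun a _ => ?_)
    (hfst ▸ Subtype.ext (hp.trans (hinf L0 h1 hall)))
    (List.forall_mem_map.2 fun a _ => hsub _ (Units.isOfFinOrder_val.1 (hq a)))
    (hf.mono fun x => hsub _) (hB.trans ?_) ?_ (List.forall_mem_map.2 fun a _ ha => ?_)
    ⟨_, List.mem_map_of_mem (hall j), fun h => hj (Finset.mem_singleton.1 (mo_mkd.1 h)),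
      good_of_two b hrk (hpu j hj') wj rfl (by omega)⟩ (prim_blocks b e1 e4 hZ')).elim
    fun N k => finOn_blocks b k.1 k.2 fun y hy i => hy _ (e1 i)
  · by_cases ha : a ∈ Bs
    · obtain ⟨i, hi⟩ := not_forall.1 fun e => hπ a ha (Equiv.ext e)
      exact Or.inl ⟨i, _, b.swap one_le_two hrk (x := g' a) (hMa a ha).1 (fun e => hi e.symm) rfl⟩
    · exact Or.inr (hpu a ha)
  · rw [hfst, BS.cnt, List.countP_map, List.countP_eq_length_filter,
      ← List.toFinset_card_of_nodup (h0.filter _)]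
    exact Finset.card_le_card fun a ha =>
      List.mem_toFinset.2 (List.mem_filter.2 ⟨hall a, decide_eq_true (hπ a ha)⟩)
  · rw [List.countP_map, ← List.count_eq_one_of_mem h0 (hall o), List.count_eq_countP]
    refine List.countP_congr fun a _ => ?_
    simp only [Function.comp_apply, decide_eq_true_eq, beq_iff_eq]
    exact mo_mkd.trans Finset.mem_singleton
  · obtain rfl := Finset.mem_singleton.1 (mo_mkd.1 ha)
    exact good_of_two b hrk (hpu a ho') wo rfl (by omega)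

end Pool.Agent.GR.RC
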