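import Pool.Agent.Lib.MP_aa40d3_nt.GD.Core8
import Pool.Agent.Lib.MP_aa40d3_nt.R2.Path4
import Pool.Agent.Lib.MP_aa40d3_nt.NP.Rank
import Pool.Agent.Lib.MP_aa40d3_nt.FK.NPair
import Pool.Agent.Lib.MP_aa40d3_nt.FK.CovP
import Pool.Agent.Lib.MP_aa40d3_nt.CP.An
import Pool.Agent.Lib.MP_aa40d3_nt.MG.RamW
import Pool.Agent.Lib.MP_aa40d3_nt.RC.Top

/-! The theorem for direct images of systems of rank two. -/

open Polynomial Matrix Set
open scoped Matrix.Norms.Operator

namespace Pool.Agent.GR.RC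

open GC FB FK CP

/-- Both sides are products over multisets of roots. -/
theorem two_of_exps {N d D : ℕ} (hD : 0 < D) {A g : Mt N} {a : Fin N → ℤ}
    (h1 : ((D : ℂ) • A).charpoly = ∏ j, (X - C (a j : ℂ)))
    (h2 : g.charpoly = ∏ j, (X - C (Complex.exp (2 * Real.pi * Complex.I * ((a j : ℂ) / D)))))
    (h : Exps d A) : Two d g := by
  obtain ⟨p, q, hpq, h⟩ := h
  have hD' : (D : ℂ) ≠ 0 := Nat.cast_ne_zero.2 hD.ne'
  have h3 := charpoly_affine (inv_ne_zero hD') 0 h1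
  rw [zero_smul, add_zero, inv_smul_smul₀ hD', h] at h3
  have h4 : Finset.univ.val.map (fun j => (a j : ℂ) / D) =
      Multiset.replicate (2 * (d - 1)) 0 + {p, q} := by
    rw [← roots_multiset_prod_X_sub_C (Multiset.map _ _), ← roots_multiset_prod_X_sub_C (_ + _)]
    congr 1
    simp only [Multiset.map_map, Function.comp_def, div_eq_inv_mul]
    simp only [add_zero] at h3
    refine h3.symm.trans ?_
    simp [mul_left_comm]
  refine ⟨Complex.exp (2 * Real.pi * Complex.I * p), Complex.exp (2 * Real.pi * Complex.I * q),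
    fun k => ?_, ?_⟩
  · obtain ⟨z, hz⟩ := Complex.exp_eq_exp_iff_exists_int.1 k
    exact hpq z (mul_left_cancel₀ Complex.two_pi_I_ne_zero (by linear_combination hz))
  · have h5 := congrArg (fun s : Multiset ℂ =>
      (s.map fun u => (X - C (Complex.exp (2 * Real.pi * Complex.I * u)) : ℂ[X])).prod) h4
    simp only [Multiset.map_map, Function.comp_def] at h5
    rw [h2]
    refine h5.trans ?_
    simp [mul_left_comm]

theorem core_curve {d n : ℕ} {o j : Fin n} {Bs : Finset (Fin n)} {t : Fin n → ℂ}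
    {A : Fin n → Mt (2 * d)} [NeZero (2 * d)] {W : Subalgebra ℂ[X] (CV.PM (2 * d))} (hd : 2 ≤ d)
    (hj : j ≠ o) (hcard : 2 * d ≤ Bs.card) (ho : o ∉ Bs) (hj' : j ∉ Bs) (ht : Gen {o} t)
    (hre : Function.Injective fun i => (t i).re) (hpr : Cyc t A) (hq : CovR Bs d t A W)
    (eo : Exps d (A o)) (ej : Exps d (A j)) (hs' : NP.ASi (2 * d) t A) (hpc : PC t A) :
    AlgOn t A {Ψ | ∀ Φ ∈ W, Ψ * Φ = Φ * Ψ} := by
  classical
  have hinj : Function.Injective t := fun i j h => hre (by simp only [h])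
  obtain ⟨D, a, hD, hch⟩ := exps_rat2 hinj hpc
  obtain ⟨M, w, θ, hMD, hMa, hZ, hF, hG, hw, hA⟩ :=
    exists_model3 hinj ht hD hch hpr.cycH hpc
  obtain ⟨κ, H0, hκ, hH0, hc, hb⟩ := exists_core {o} t
  generalize hHe : (1 + κ) * H0 = H at hb
  have hH : 0 < H := hHe ▸ mul_pos (by linarith) hH0
  have hwt : (fun i => w (Sum.inl i)) = t := funext hw
  have hmon : mon2 M.toModel2 H (w, θ) = vt (TT t A) (pp t) H := by
    simp only [mon2, hwt, hA]
  have hcham : w ∈ Cham M.m (fun i => (t i).re) H := by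
    refine ⟨by rw [hwt]; exact hb, fun a b hab => ?_⟩
    rw [hw, hw]; exact hab
  have ho' : LoopsP {o} (fun i => (t i).re) (vt (TT t A) (pp t) H) M.toModel2.ε := by
    intro μ hμ a b hl hM'
    have := path4 M hκ hH0 hHe.le hZ (by rw [hwt]; exact hc) μ hre
      (fun a b _ _ hab => by rw [hw, hw]; exact hab) hμ hl hM' (Sl.refl _ w) hcham hG hF
    rw [hmon] at this
    simpa using this
  have h1 : ∀ i, OrrM M.toModel2.ε {i} (vt (TT t A) (pp t) H i).val := fun i => by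
    have := arc3_single M hre i hcham hZ hG hF
    rwa [hmon] at this
  have hε : ∀ i j, IsOfFinOrder (M.toModel2.ε i j) := fun i j =>
    (algebraicClosure ℚ ℂ).val.toRingHom.toMonoidHom.isOfFinOrder (isOfFinOrder_ez _)
  have hεe : ∀ i j, M.toModel2.ε i j =
      Complex.exp (2 * Real.pi * Complex.I * ((a i j : ℂ) / D)) := fun i j => by
    simp only [Model2.ε, hMa, hMD]
    push_cast
    rfl
  have htwo : ∀ i, Exps d (A i) → Two d (vt (TT t A) (pp t) H i).val := fun i =>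
    two_of_exps hD (hch i) (by simpa only [hεe] using orr2_single (hε i) (h1 i).2)
  obtain ⟨E, hE, hgE⟩ : ∃ E : ℕ, 0 < E ∧ ∀ i, (vt (TT t A) (pp t) H i).val ^ E = 1 := by
    choose k hk0 hk using fun i => isOfFinOrder_iff_pow_eq_one.1 (h1 i).1
    refine ⟨∏ i, k i, Finset.prod_pos fun i _ => hk0 i, fun i => ?_⟩
    obtain ⟨c, hc⟩ := Finset.dvd_prod_of_mem k (Finset.mem_univ i)
    rw [hc, pow_mul, hk, one_pow]
  set U : Set ℂ := {x | ∀ i, x.im < (t i).im} with hU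
  have hUo : IsOpen U := by
    rw [hU, ofPred_forall]
    exact isOpen_iInter_of_finite fun i => isOpen_lt Complex.continuous_im continuous_const
  have hUc : Convex ℝ U := by
    rw [hU, ofPred_forall]
    exact convex_iInter fun i => convex_halfSpace_im_lt _
  have hx₀ : cpt (-H, -H) ∈ U := fun i => by
    have := (hb i).2
    simp only [pp, cpt] at this ⊢
    exact (abs_lt.1 this).1
  have hseg : ∀ x ∈ U, ∀ i, t i ∉ segment ℝ (cpt (-H, -H)) x := fun x hx i hi =>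
    lt_irrefl _ (hUc.segment_subset hx₀ hx hi i)
  have hY : ∀ x ∈ U, (∀ i, x ≠ t i) ∧ (T t A (cpt (-H, -H)) x).det ≠ 0 ∧
      HasDerivAt (T t A (cpt (-H, -H))) (sys t A x * T t A (cpt (-H, -H)) x) x := fun x hx =>
    ⟨fun i h => lt_irrefl _ (h ▸ hx i),
      ((Matrix.isUnit_iff_isUnit_det _).1 (isUnit_Tr _)).ne_zero, hasDerivAt_T A (hseg x hx)⟩
  have hext := extProp hre A hH.le hb
  have hinf : U.Infinite := infinite_of_mem_nhds _ (hUo.mem_nhds hx₀)
  have hW := hq.stab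
  have hWp : ∀ Φ ∈ W, Φ ∈ primW U (T t A (cpt (-H, -H)))
      (Subalgebra.toSubmodule (GC.fib W (cpt (-H, -H)))) := fun Φ hΦ x hx =>
    fib_T hW (hseg x hx) _ ⟨Φ, hΦ, rfl⟩
  have hfin : FinOn (incl (Subgroup.closure (Set.range (vt (TT t A) (pp t) H))))
      {y | ∀ z ∈ GC.fib W (cpt (-H, -H)), y * z = z * y} := by
    refine group_finR hd hj hre (fun L k1 _ => FBN.pairH_loops ho' k1) (fun i => (h1 i).1)
      (fun L k1 k2 => eq_one_of_rank (NP.rank_infN hre A hH hb k1 k2 hs'))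
      (simp_of_field hE hgE hinf hx₀ (hY _ hx₀).1 (T_self _ _ _) (fun x hx => (hY x hx).2.1) hext
        hq.inv hWp) (fib_vt hW hre hb) ?_
      ((fib_rank hinf (fun x hx => (hY x hx).2.1) hWp).trans hq.rank) hcard ho hj' (htwo o eo)
      (htwo j ej) (fun i hi => ⟨by have := NP.rank_vtN hre A hb i (hq.bra i hi).2; omega, ?_⟩)
      (fun i hi => (hq.pun i hi).imp (fun h => eq_one_of_rank (NP.rank_vtN hre A hb i h))
        (she_vt hW hre hb i)) fun Z' k1 k2 k3 z₀ hz₀ => ?_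
    · rintro _ ⟨Φ, hΦ, rfl⟩ _ ⟨Ψ, hΨ, rfl⟩
      have e := congrArg (evalRingHom (cpt (-H, -H))).mapMatrix (hq.comm Φ hΦ Ψ hΨ)
      rwa [map_mul, map_mul] at e
    · obtain ⟨Ψ, hΨ, hne⟩ := (hq.bra i hi).1
      by_contra hcon
      push Not at hcon
      refine hne (comm_exp hre A hb Ψ i fun y hy => ?_)
      obtain ⟨z, hz, e⟩ := hWp Ψ hΨ y hy
      exact ⟨z, hcon z hz, e⟩
    · obtain ⟨W', hW', hWm⟩ := exists_subEnd hUo hY Z'
      obtain ⟨Φ, hΦ, c, hc0, hΦc⟩ := primW_onto hE hgE hx₀ (hY _ hx₀).1 (T_self _ _ _) hext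
        (Z := Subalgebra.toSubmodule Z') (fun γ hγ => k1 ⟨γ, hγ⟩) hz₀
      have h5 := hq.prim W' hW' (fun Ψ hΨ => (hWm Ψ).2 fun x hx => by
          obtain ⟨z, hz, e⟩ := hWp Ψ hΨ x hx
          exact ⟨z, k2 hz, e⟩)
        (fun Ψ hΨ Θ hΘ => by
          ext1 a b
          refine eq_of_infinite_eval_eq _ _ (hinf.mono fun x hx => ?_)
          obtain ⟨z, hz, e⟩ := (hWm Ψ).1 hΨ x hx
          obtain ⟨z', hz', e'⟩ := (hWm Θ).1 hΘ x hx
          have h5 : (Ψ * Θ).map (evalRingHom x) = (Θ * Ψ).map (evalRingHom x) := by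
            refine ((Matrix.isUnit_iff_isUnit_det _).2 (hY x hx).2.1.isUnit).mul_right_cancel ?_
            rw [Matrix.map_mul, Matrix.map_mul, coe_evalRingHom, Matrix.mul_assoc, e',
              ← Matrix.mul_assoc, e, Matrix.mul_assoc, k3 z hz z' hz', Matrix.mul_assoc, e,
              ← Matrix.mul_assoc _ _ z, ← Matrix.mul_assoc _ _ z, e']
          exact congrFun (congrFun h5 a) b) ((hWm Φ).2 hΦ)
      have h6 := (GC.fib W (cpt (-H, -H))).smul_mem ⟨Φ, h5, hΦc⟩ c⁻¹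
      rwa [inv_smul_smul₀ hc0] at h6
  obtain ⟨a1, a2⟩ := algOn_of (fun i => ⟨E, hE, by rw [hgE, sub_self]; exact IsNilpotent.zero⟩)
    (fun x hx => (hY x hx).2.1) hext hfin
  obtain ⟨ε, hε, hball⟩ := Metric.isOpen_iff.1 hUo _ hx₀
  refine ⟨cpt (-H, -H), ε, T t A (cpt (-H, -H)), hε, fun x hx => ?_, a1.mono hball,
    fun Ψ hΨ a b => (a2 Ψ (fun x hx z hz => ?_) a b).mono hball⟩
  · obtain ⟨h1, h2, h3⟩ := hY x (hball hx)
    exact ⟨h1, h2, hasDerivAt_mat.1 h3⟩
  · obtain ⟨Φ, hΦ, e⟩ := (fibc_TU hW (hseg x hx) z).1 hz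
    have h5 : (Ψ * Φ).map (evalRingHom x) = (Φ * Ψ).map (evalRingHom x) := by rw [hΨ Φ hΦ]
    rw [Matrix.map_mul, Matrix.map_mul, coe_evalRingHom, e] at h5
    rw [← val_TU, ← Matrix.coe_units_inv]
    generalize TU t A (cpt (-H, -H)) x = u at h5
    have h6 := congrArg (fun M => (u⁻¹).val * M * u.val) h5
    simpa only [mul_assoc, Units.inv_mul_cancel_left, Units.inv_mul, mul_one] using h6

end Pool.Agent.GR.RC
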