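import Pool.Agent.Lib.MP_aa40d3_nt.RC.Defs

/-! Traces along the powers of an element of infinite order. -/

open Matrix

namespace Pool.Agent.GR.RC

theorem dz_quad3 {x : ℕ → ℂ} (hx : Function.Injective x) {S : Set ℕ} (hS : S.Infinite) {p q r : ℂ}
    (h : ∀ k ∈ S, p * x k ^ 2 + q * x k + r = 0) : p = 0 ∧ q = 0 ∧ r = 0 := by
  obtain ⟨i, hi⟩ := hS.nonempty
  obtain ⟨j, hj, hji⟩ := hS.exists_notMem_finset {i}
  obtain ⟨k, hk, hk'⟩ := hS.exists_notMem_finset {i, j}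
  simp only [Finset.mem_insert, Finset.mem_singleton, not_or] at hji hk'
  have h1 : p * (x j + x i) + q = 0 := (mul_eq_zero.1 (show (x j - x i) * _ = 0 by
    linear_combination h j hj - h i hi)).resolve_left (sub_ne_zero.2 (hx.ne hji))
  have h2 : p * (x k + x i) + q = 0 := (mul_eq_zero.1 (show (x k - x i) * _ = 0 by
    linear_combination h k hk - h i hi)).resolve_left (sub_ne_zero.2 (hx.ne hk'.1))
  have h3 : p = 0 := (mul_eq_zero.1 (show (x k - x j) * p = 0 by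
    linear_combination h2 - h1)).resolve_left (sub_ne_zero.2 (hx.ne hk'.2))
  have h4 : q = 0 := by rw [h3] at h1; linear_combination h1
  exact ⟨h3, h4, by have := h i hi; rw [h3, h4] at this; linear_combination this⟩

theorem dz_fibre {f : ℕ → ℂ} {S : Set ℕ} (hS : S.Infinite) {E : Set ℂ} (hE : E.Finite)
    (h : ∀ k ∈ S, f k ∈ E) : ∃ e, {k | k ∈ S ∧ f k = e}.Infinite := by
  by_contra hn
  push Not at hn
  refine hS ((hE.biUnion fun e _ => hn e).subset fun k hk => ?_)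
  exact Set.mem_biUnion (h k hk) ⟨hk, rfl⟩

/-- Normal form. -/
theorem dz_nf (Z : GLr 2) (hd : Z.val.det = 1) : ∃ (u : GLr 2) (l b : ℂ), l ≠ 0 ∧ (b = 0 ∨ l = l⁻¹) ∧
    (u⁻¹ * Z * u).val = !![l, b; 0, l⁻¹] := by
  have key : ∀ (Z u : GLr 2) (M : Matrix (Fin 2) (Fin 2) ℂ), Z.val * u.val = u.val * M →
      (u⁻¹ * Z * u).val = M := fun Z u M h => by
    rw [mul_assoc, Units.val_mul, Units.val_mul, h, ← mul_assoc, Units.inv_mul, one_mul]
  have h1 : ∃ (u : GLr 2) (l b : ℂ), l ≠ 0 ∧ (u⁻¹ * Z * u).val = !![l, b; 0, l⁻¹] := by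
    rw [det_fin_two] at hd
    by_cases hc : Z.val 1 0 = 0
    · rw [hc, mul_zero, sub_zero] at hd
      refine ⟨1, Z.val 0 0, Z.val 0 1, left_ne_zero_of_mul_eq_one hd, ?_⟩
      rw [inv_one, one_mul, mul_one, ← eq_inv_of_mul_eq_one_right hd, ← hc]
      exact eta_fin_two _
    · obtain ⟨w, hw⟩ := IsAlgClosed.exists_eq_mul_self ((Z.val 0 0 + Z.val 1 1) ^ 2 - 4)
      obtain ⟨l, hl⟩ : ∃ l, l = (Z.val 0 0 + Z.val 1 1 + w) / 2 := ⟨_, rfl⟩
      have h2 : l * (Z.val 0 0 + Z.val 1 1 - l) = 1 := by rw [hl]; linear_combination hw / 4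
      have h3 : IsUnit !![l - Z.val 1 1, 1; Z.val 1 0, 0] := by
        rw [isUnit_iff_isUnit_det, det_fin_two_of]
        simpa using hc
      refine ⟨h3.unit, l, 1, left_ne_zero_of_mul_eq_one h2, key _ _ _ ?_⟩
      rw [← eq_inv_of_mul_eq_one_right h2, IsUnit.unit_spec]
      ext i j
      fin_cases i <;> fin_cases j <;> simp [Matrix.mul_apply, Fin.sum_univ_two]
      · linear_combination h2 - hd
      · ring
  obtain ⟨u, l, b, hl, h⟩ := h1
  by_cases h2 : l = l⁻¹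
  · exact ⟨u, l, b, hl, .inr h2, h⟩
  · have h3 : IsUnit !![1, b / (l⁻¹ - l); 0, 1] := by
      rw [isUnit_iff_isUnit_det, det_fin_two_of]
      simp
    refine ⟨u * h3.unit, l, 0, hl, .inl rfl, ?_⟩
    rw [show (u * h3.unit)⁻¹ * Z * (u * h3.unit) = h3.unit⁻¹ * (u⁻¹ * Z * u) * h3.unit by group]
    refine key _ _ _ ?_
    have h4 : l⁻¹ - l ≠ 0 := sub_ne_zero.2 (Ne.symm h2)
    rw [h, IsUnit.unit_spec]
    ext i j
    fin_cases i <;> fin_cases j <;> simp [Matrix.mul_apply, Fin.sum_univ_two]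
    have h5 := div_mul_cancel₀ b h4
    linear_combination -h5

theorem dz_pow_diag {Z : GLr 2} {l : ℂ} (hl : l ≠ 0) (h : Z.val = !![l, 0; 0, l⁻¹]) (k : ℕ) :
    (Z ^ k).val = !![l ^ k, 0; 0, (l ^ k)⁻¹] ∧ (Z ^ k)⁻¹.val = !![(l ^ k)⁻¹, 0; 0, l ^ k] := by
  have h1 : (Z ^ k).val = !![l ^ k, 0; 0, (l ^ k)⁻¹] := by
    induction k with
    | zero => simp [one_fin_two]
    | succ k ih =>
      rw [pow_succ, Units.val_mul, ih, h]
      ext i j
      fin_cases i <;> fin_cases j <;> simp [pow_succ, mul_comm]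
  refine ⟨h1, Units.inv_eq_of_mul_eq_one_right ?_⟩
  have h2 := pow_ne_zero k hl
  rw [h1]
  ext i j
  fin_cases i <;> fin_cases j <;> simp [h2]

theorem dz_pow_uni {Z : GLr 2} {l b : ℂ} (hl : l * l = 1) (h : Z.val = !![l, b; 0, l]) (k : ℕ) :
    (Z ^ k).val = l ^ k • !![1, k * (l * b); 0, 1] ∧
      (Z ^ k)⁻¹.val = l ^ k • !![1, -(k * (l * b)); 0, 1] := by
  have h1 : (Z ^ k).val = l ^ k • !![1, k * (l * b); 0, 1] := by
    induction k with
    | zero => simp [one_fin_two]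
    | succ k ih =>
      rw [pow_succ, Units.val_mul, ih, h]
      ext i j
      fin_cases i <;> fin_cases j <;> simp [pow_succ]
      linear_combination (-(l ^ k * b)) * hl
  refine ⟨h1, Units.inv_eq_of_mul_eq_one_right ?_⟩
  have h2 : l ^ k * l ^ k = 1 := by rw [← mul_pow, hl, one_pow]
  rw [h1]
  ext i j
  fin_cases i <;> fin_cases j <;> simp [h2]
  ring

theorem dz_inj_diag {Z : GLr 2} {l : ℂ} (hl : l ≠ 0) (h : Z.val = !![l, 0; 0, l⁻¹])
    (hZ : ¬ IsOfFinOrder Z) {n : ℕ} (hn : 0 < n) : Function.Injective fun k : ℕ => (l ^ k) ^ n := by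
  have h1 : ¬ IsOfFinOrder (l ^ n) := fun h1 => by
    obtain ⟨m, hm, e⟩ := isOfFinOrder_iff_pow_eq_one.1 h1
    refine hZ (isOfFinOrder_iff_pow_eq_one.2 ⟨n * m, Nat.mul_pos hn hm, Units.ext ?_⟩)
    rw [(dz_pow_diag hl h _).1, pow_mul, e, inv_one, Units.val_one, one_fin_two]
  have h2 : ¬ IsOfFinOrder (Units.mk0 _ (pow_ne_zero n hl)) := fun h2 =>
    h1 (Units.isOfFinOrder_val.2 h2)
  intro i j hij
  refine injective_pow_iff_not_isOfFinOrder.2 h2 (Units.ext ?_)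
  simp only [Units.val_pow_eq_pow_val, Units.val_mk0]
  rw [← pow_mul, ← pow_mul, mul_comm n, mul_comm n, pow_mul, pow_mul]
  exact hij

theorem dz_b_ne {Z : GLr 2} {l b : ℂ} (hl : l * l = 1) (h : Z.val = !![l, b; 0, l])
    (hZ : ¬ IsOfFinOrder Z) : l * b ≠ 0 := fun hb => by
  refine hZ (isOfFinOrder_iff_pow_eq_one.2 ⟨2, two_pos, Units.ext ?_⟩)
  rw [(dz_pow_uni hl h 2).1, hb, pow_two, hl, mul_zero, one_smul, Units.val_one, one_fin_two]

theorem dz_eig0 {g : GLr 2} (h : g.val 1 0 = 0) : Eig g ![1, 0] := ⟨g.val 0 0, by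
  ext i
  fin_cases i <;> simp [mulVec, dotProduct, Fin.sum_univ_two, h]⟩

theorem dz_eig1 {g : GLr 2} (h : g.val 0 1 = 0) : Eig g ![0, 1] := ⟨g.val 1 1, by
  ext i
  fin_cases i <;> simp [mulVec, dotProduct, Fin.sum_univ_two, h]⟩

theorem dz_D_nf {s c Z : GLr 2} {l b : ℂ} (hl : l ≠ 0) (hb : b = 0 ∨ l = l⁻¹)
    (h : Z.val = !![l, b; 0, l⁻¹]) (hZ : ¬ IsOfFinOrder Z) {S : Set ℕ} (hS : S.Infinite)
    {E : Set ℂ} (hE : E.Finite) (ht : ∀ k ∈ S, (s * (Z ^ k)⁻¹ * c * Z ^ k).val.trace ∈ E) :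
    Commute s Z ∨ Commute c Z ∨ ∃ v, v ≠ 0 ∧ Eig s v ∧ Eig Z v ∧ Eig c v := by
  obtain ⟨e, he⟩ := dz_fibre hS hE ht
  have z0 : Z.val 1 0 = 0 := by rw [h]; rfl
  have n0 : (![1, 0] : Fin 2 → ℂ) ≠ 0 := fun h => one_ne_zero (congrFun h 0)
  have n1 : (![0, 1] : Fin 2 → ℂ) ≠ 0 := fun h => one_ne_zero (congrFun h 1)
  rcases hb with rfl | hb
  · have cm : ∀ g : GLr 2, g.val 0 1 = 0 → g.val 1 0 = 0 → Commute g Z := fun g h1 h2 =>
      Units.ext (by
        rw [Units.val_mul, Units.val_mul, h]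
        ext i j
        fin_cases i <;> fin_cases j <;> simp [Matrix.mul_apply, Fin.sum_univ_two, h1, h2, mul_comm])
    obtain ⟨h1, -, h2⟩ := dz_quad3 (dz_inj_diag hl h hZ two_pos) he (p := s.val 0 1 * c.val 1 0)
      (q := s.val 0 0 * c.val 0 0 + s.val 1 1 * c.val 1 1 - e) (r := s.val 1 0 * c.val 0 1)
      fun k hk => by
        have h3 := hk.2
        have h4 := pow_ne_zero k hl
        simp only [Units.val_mul, (dz_pow_diag hl h k).1, (dz_pow_diag hl h k).2, trace_fin_two,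
          Matrix.mul_apply, Fin.sum_univ_two] at h3
        simp at h3
        rw [← h3]
        field_simp
        ring
    rcases mul_eq_zero.1 h1 with h1 | h1 <;> rcases mul_eq_zero.1 h2 with h2 | h2
    · exact .inl (cm s h1 h2)
    · exact .inr (.inr ⟨_, n1, dz_eig1 h1, dz_eig1 (by rw [h]; rfl), dz_eig1 h2⟩)
    · exact .inr (.inr ⟨_, n0, dz_eig0 h2, dz_eig0 z0, dz_eig0 h1⟩)
    · exact .inr (.inl (cm c h2 h1))
  · have hl2 : l * l = 1 := by nth_rewrite 2 [hb]; exact mul_inv_cancel₀ hl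
    rw [← hb] at h
    have hb' := dz_b_ne hl2 h hZ
    have cm : ∀ g : GLr 2, g.val 1 0 = 0 → g.val 0 0 = g.val 1 1 → Commute g Z := fun g h1 h2 =>
      Units.ext (by
        rw [Units.val_mul, Units.val_mul, h]
        ext i j
        fin_cases i <;> fin_cases j <;> simp [Matrix.mul_apply, Fin.sum_univ_two, h1, h2] <;> ring)
    obtain ⟨h1, h2, -⟩ := dz_quad3 (x := fun k : ℕ => (k : ℂ) * (l * b))
      (fun i j hij => Nat.cast_injective (mul_right_cancel₀ hb' hij)) he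
      (p := -(s.val 1 0 * c.val 1 0))
      (q := c.val 1 0 * (s.val 1 1 - s.val 0 0) + s.val 1 0 * (c.val 0 0 - c.val 1 1))
      (r := (s * c).val.trace - e) fun k hk => by
        have h3 := hk.2
        have h4 : l ^ k * l ^ k = 1 := by rw [← mul_pow, hl2, one_pow]
        simp only [Units.val_mul, (dz_pow_uni hl2 h k).1, (dz_pow_uni hl2 h k).2, Matrix.mul_smul,
          Matrix.smul_mul, smul_smul, h4, one_smul, trace_fin_two, Matrix.mul_apply,
          Fin.sum_univ_two] at h3 ⊢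
        simp at h3
        linear_combination h3
    rcases mul_eq_zero.1 (neg_eq_zero.1 h1) with h1 | h1
    · rw [h1, zero_mul, add_zero] at h2
      rcases mul_eq_zero.1 h2 with h2 | h2
      · exact .inr (.inr ⟨_, n0, dz_eig0 h1, dz_eig0 z0, dz_eig0 h2⟩)
      · exact .inl (cm s h1 (sub_eq_zero.1 h2).symm)
    · rw [h1, zero_mul, zero_add] at h2
      rcases mul_eq_zero.1 h2 with h2 | h2
      · exact .inr (.inr ⟨_, n0, dz_eig0 h2, dz_eig0 z0, dz_eig0 h1⟩)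
      · exact .inr (.inl (cm c h1 (sub_eq_zero.1 h2)))

theorem dz_conj_fin {u Z : GLr 2} (hZ : ¬ IsOfFinOrder Z) : ¬ IsOfFinOrder (u⁻¹ * Z * u) := fun h =>
  hZ ((isConj_iff.2 ⟨u, by group⟩ : IsConj (u⁻¹ * Z * u) Z).isOfFinOrder h)

theorem dz_conj_tr (u g : GLr 2) : (u⁻¹ * g * u).val.trace = g.val.trace := by
  rw [Units.val_mul, trace_mul_comm, ← Units.val_mul, mul_inv_cancel_left]

theorem dz_conj_pw (u Z : GLr 2) (k : ℕ) : (u⁻¹ * Z * u) ^ k = u⁻¹ * Z ^ k * u := by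
  simpa using conj_pow (i := k) (a := u⁻¹) (b := Z)

/-- Finitely many traces of `s Z⁻ᵏ c Zᵏ`. -/
theorem dz_rc_D {s c Z : GLr 2} (hd : Z.val.det = 1) (hZ : ¬ IsOfFinOrder Z) {S : Set ℕ}
    (hS : S.Infinite) {E : Set ℂ} (hE : E.Finite)
    (ht : ∀ k ∈ S, (s * (Z ^ k)⁻¹ * c * Z ^ k).val.trace ∈ E) :
    Commute s Z ∨ Commute c Z ∨ ∃ v, v ≠ 0 ∧ Eig s v ∧ Eig Z v ∧ Eig c v := by
  obtain ⟨u, l, b, hl, hb, h⟩ := dz_nf Z hd
  have cm : ∀ g : GLr 2, Commute (u⁻¹ * g * u) (u⁻¹ * Z * u) → Commute g Z := fun g hg => by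
    have h1 := (hg.map (MulAut.conj u))
    simpa [MulAut.conj_apply, mul_assoc] using h1
  have eg : ∀ (g : GLr 2) v, Eig (u⁻¹ * g * u) v → Eig g (u.val.mulVec v) := fun g v ⟨a, ha⟩ => ⟨a, by
    rw [← mulVec_smul, ← ha, mulVec_mulVec, mulVec_mulVec, ← Units.val_mul, ← Units.val_mul]
    congr 2
    group⟩
  rcases dz_D_nf (s := u⁻¹ * s * u) (c := u⁻¹ * c * u) hl hb h (dz_conj_fin hZ) hS hE (fun k hk => by
    have h1 := ht k hk
    rw [← dz_conj_tr u] at h1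
    rw [dz_conj_pw]
    exact (congrArg (fun g : GLr 2 => g.val.trace ∈ E) (by group)).mp h1) with h1 | h1 | ⟨v, h0, h1⟩
  · exact .inl (cm s h1)
  · exact .inr (.inl (cm c h1))
  · refine .inr (.inr ⟨_, fun h2 => h0 ?_, eg _ _ h1.1, eg _ _ h1.2.1, eg _ _ h1.2.2⟩)
    rw [← one_mulVec v, ← Units.inv_mul u, ← mulVec_mulVec, h2, mulVec_zero]

theorem dz_Z_nf {Y Z : GLr 2} {l b : ℂ} (hl : l ≠ 0) (hb : b = 0 ∨ l = l⁻¹)
    (h : Z.val = !![l, b; 0, l⁻¹]) (hZ : ¬ IsOfFinOrder Z) {S : Set ℕ} (hS : S.Infinite)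
    {E : Set ℂ} (hE : E.Finite) (ht : ∀ k ∈ S, ((Z ^ k)⁻¹ * Y).val.trace ∈ E) : Y ∈ stE (tl Z.val) := by
  rcases hb with rfl | hb
  · obtain ⟨e, he⟩ := dz_fibre hS hE ht
    obtain ⟨h1, -, h2⟩ := dz_quad3 (dz_inj_diag hl h hZ one_pos) he (p := Y.val 1 1) (q := -e)
      (r := Y.val 0 0) fun k hk => by
        have h3 := hk.2
        have h4 := pow_ne_zero k hl
        simp only [Units.val_mul, (dz_pow_diag hl h k).2, trace_fin_two, Matrix.mul_apply,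
          Fin.sum_univ_two] at h3
        simp at h3
        rw [← h3]
        field_simp
        ring
    refine ⟨-1, ?_⟩
    rw [tl, h]
    ext i j
    fin_cases i <;> fin_cases j <;>
      simp [Matrix.mul_apply, Fin.sum_univ_two, h1, h2, trace_fin_two, one_apply] <;> ring
  · have hl2 : l * l = 1 := by nth_rewrite 2 [hb]; exact mul_inv_cancel₀ hl
    rw [← hb] at h
    have hb' := dz_b_ne hl2 h hZ
    obtain ⟨e, he⟩ := dz_fibre (f := fun k => ((Z ^ k)⁻¹ * Y).val.trace ^ 2) hS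
      (hE.image fun z => z ^ 2) fun k hk => ⟨_, ht k hk, rfl⟩
    obtain ⟨h1, -, -⟩ := dz_quad3 (x := fun k : ℕ => (k : ℂ) * (l * b))
      (fun i j hij => Nat.cast_injective (mul_right_cancel₀ hb' hij)) he (p := Y.val 1 0 ^ 2)
      (q := -2 * Y.val 1 0 * Y.val.trace) (r := Y.val.trace ^ 2 - e) fun k hk => by
        have h3 := hk.2
        have h4 : (l ^ k) ^ 2 = 1 := by rw [pow_two, ← mul_pow, hl2, one_pow]
        simp only [Units.val_mul, (dz_pow_uni hl2 h k).2, Matrix.smul_mul, trace_smul, smul_eq_mul,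
          mul_pow, h4, one_mul] at h3
        simp only [trace_fin_two, Matrix.mul_apply, Fin.sum_univ_two] at h3 ⊢
        simp at h3
        linear_combination h3
    have h2 := pow_eq_zero_iff two_ne_zero |>.1 h1
    have h3 : Y.val 1 1 ≠ 0 := fun h3 => by
      have h4 := (isUnit_iff_isUnit_det _).1 Y.isUnit
      rw [det_fin_two, h2, h3, mul_zero, mul_zero, sub_zero] at h4
      exact not_isUnit_zero h4
    refine ⟨Y.val 0 0 / Y.val 1 1, ?_⟩
    rw [tl, h]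
    ext i j
    fin_cases i <;> fin_cases j <;>
      simp [Matrix.mul_apply, Fin.sum_univ_two, h2, trace_fin_two, one_apply]
    field_simp

/-- Finitely many traces of `Z⁻ᵏ Y`. -/
theorem dz_rc_Z {Y Z : GLr 2} (hd : Z.val.det = 1) (hZ : ¬ IsOfFinOrder Z) {S : Set ℕ}
    (hS : S.Infinite) {E : Set ℂ} (hE : E.Finite)
    (ht : ∀ k ∈ S, ((Z ^ k)⁻¹ * Y).val.trace ∈ E) : Y ∈ stE (tl Z.val) := by
  obtain ⟨u, l, b, hl, hb, h⟩ := dz_nf Z hd
  obtain ⟨a, ha⟩ := dz_Z_nf (Y := u⁻¹ * Y * u) hl hb h (dz_conj_fin hZ) hS hE fun k hk => by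
    have h1 := ht k hk
    rw [← dz_conj_tr u] at h1
    rw [dz_conj_pw]
    exact (congrArg (fun g : GLr 2 => g.val.trace ∈ E) (by group)).mp h1
  have h1 : tl (u⁻¹ * Z * u).val = u⁻¹.val * tl Z.val * u.val := by
    rw [tl, tl, dz_conj_tr, Matrix.mul_sub, Matrix.sub_mul, Matrix.mul_smul, Matrix.smul_mul, mul_one,
      Units.inv_mul, Units.val_mul, Units.val_mul]
  refine ⟨a, ?_⟩
  rw [h1] at ha
  have h2 := congrArg (fun M => u.val * M * u⁻¹.val) ha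
  simpa only [Units.val_mul, Matrix.mul_smul, Matrix.smul_mul, mul_assoc,
    Units.mul_inv_cancel_left, Units.mul_inv, mul_one] using h2

variable {s c y Z : GLr 2} {T : Set ℂ}

theorem lemD (hd : Z.val.det = 1) (hZ : ¬ IsOfFinOrder Z) (hT : T.Finite)
    (h : ∀ k : ℕ, tU (s * ((Z ^ k)⁻¹ * c * Z ^ k)) ∈ T) :
    Commute s Z ∨ Commute c Z ∨ ∃ v, v ≠ 0 ∧ Eig s v ∧ Eig Z v ∧ Eig c v :=
  dz_rc_D hd hZ Set.infinite_univ hT fun k _ => by simpa only [mul_assoc, tU] using h k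

theorem lemZ (hd : Z.val.det = 1) (hZ : ¬ IsOfFinOrder Z) (hT : T.Finite)
    (h : ∀ k : ℕ, IsOfFinOrder ((Z ^ k)⁻¹ * y) → tU ((Z ^ k)⁻¹ * y) ∈ T) :
    y ∈ stE (tl Z.val) ∨ {k : ℕ | ¬ IsOfFinOrder ((Z ^ k)⁻¹ * y)}.Infinite :=
  (Set.finite_or_infinite _).imp_left fun hf =>
    dz_rc_Z hd hZ hf.infinite_compl hT fun k hk => h k (not_not.1 hk)

end Pool.Agent.GR.RC
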