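import Pool.Agent.Lib.MP_aa40d3_nt.FK.Pair
import Pool.Agent.Lib.MP_aa40d3_nt.R2.GMain

/-! Rank two on two sheets: definitions. -/

open Matrix

namespace Pool.Agent.GR.RC

open GC FB

/-- Block matrices on two sheets. -/
abbrev W2 : Type := RegularWreathProduct (GLr 2) ℤˣ

/-- `v` is an eigenvector of `g`. -/
def Eig (g : GLr 2) (v : Fin 2 → ℂ) : Prop := ∃ a : ℂ, g.val *ᵥ v = a • v

/-- The stabiliser of a line of vectors. -/
def stV (v : Fin 2 → ℂ) : Subgroup (GLr 2) where
  carrier := {g | Eig g v}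
  one_mem' := ⟨1, by simp⟩
  mul_mem' := by
    rintro g h ⟨a, ha⟩ ⟨b, hb⟩
    exact ⟨b * a, by rw [Units.val_mul, ← mulVec_mulVec, hb, mulVec_smul, ha, smul_smul]⟩
  inv_mem' := by
    rintro g ⟨a, ha⟩
    have e : v = a • ((g⁻¹).val *ᵥ v) := by
      rw [← mulVec_smul, ← ha, mulVec_mulVec, Units.inv_mul, one_mulVec]
    by_cases h0 : a = 0
    · rw [h0, zero_smul] at e
      exact ⟨0, by rw [e, mulVec_zero, smul_zero]⟩
    · exact ⟨a⁻¹, by
        conv_rhs => rw [e]
        rw [smul_smul, inv_mul_cancel₀ h0, one_smul]⟩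

/-- The stabiliser of a line of matrices. -/
def stE (E : Mt 2) : Subgroup (GLr 2) where
  carrier := {g | ∃ a : ℂ, g.val * E = a • (E * g.val)}
  one_mem' := ⟨1, by simp⟩
  mul_mem' := by
    rintro g h ⟨a, ha⟩ ⟨b, hb⟩
    exact ⟨a * b, by
      rw [Units.val_mul, Matrix.mul_assoc, hb, mul_smul_comm, ← Matrix.mul_assoc, ha,
        smul_mul_assoc, smul_smul, mul_comm b, Matrix.mul_assoc]⟩
  inv_mem' := by
    rintro g ⟨a, ha⟩
    have e : E * (g⁻¹).val = a • ((g⁻¹).val * E) := by
      have := congrArg (fun z => (g⁻¹).val * z * (g⁻¹).val) ha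
      simpa only [← Matrix.mul_assoc, Units.inv_mul, one_mul, mul_smul_comm, smul_mul_assoc,
        Units.mul_inv_cancel_right] using this
    by_cases h0 : a = 0
    · rw [h0, zero_smul] at e
      exact ⟨0, by rw [(Units.mul_left_eq_zero _).1 e, mul_zero, zero_smul]⟩
    · exact ⟨a⁻¹, by rw [e, smul_smul, inv_mul_cancel₀ h0, one_smul]⟩

/-- The part of trace zero. -/
noncomputable def tl (X : Mt 2) : Mt 2 := X - (X.trace / 2) • 1

/-- An involution that exchanges the sheets. -/
def Sw (w : W2) : Prop := w.right = -1 ∧ w * w = 1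

/-- Trivial on the sheet other than `a`. -/
def Pu (a : ℤˣ) (w : W2) : Prop := w.right = 1 ∧ w.left (-a) = 1

/-- One of the two types. -/
def Ty (w : W2) : Prop := Sw w ∨ ∃ a, Pu a w

/-- Keeps the sheets and has a block that is not scalar. -/
def Gd (w : W2) : Prop := w.right = 1 ∧ ∃ a, ¬ Scl (w.left a).val

/-- The blocks have determinant one. -/
def SL : Subgroup W2 where
  carrier := {w | ∀ a, (w.left a).val.det = 1}
  one_mem' := fun a => by simp
  mul_mem' := fun {x y} hx hy a => by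
    change (x.left a * y.left _).val.det = 1
    rw [Units.val_mul, det_mul, hx, hy, one_mul]
  inv_mem' := fun {x} hx a => by
    have h : ((x.left (x.right * a)).val * ((x.left (x.right * a))⁻¹).val).det = 1 := by
      rw [Units.mul_inv, det_one]
    rwa [det_mul, hx, one_mul] at h

/-- Scalar blocks. -/
def Sc : Subgroup W2 where
  carrier := {w | w.right = 1 ∧ ∀ a, Scl (w.left a).val}
  one_mem' := ⟨rfl, fun a => ⟨1, by simp⟩⟩
  mul_mem' := fun {x y} hx hy => ⟨by rw [RegularWreathProduct.mul_right, hx.1, hy.1, one_mul],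
    fun a => by
      obtain ⟨c, hc⟩ := hx.2 a
      obtain ⟨e, he⟩ := hy.2 (x.right⁻¹ * a)
      refine ⟨c * e, ?_⟩
      change (x.left a * y.left _).val = _
      rw [Units.val_mul, hc, he, smul_mul_assoc, one_mul, smul_smul]⟩
  inv_mem' := fun {x} hx => ⟨by rw [RegularWreathProduct.inv_right, hx.1, inv_one], fun a => by
    obtain ⟨c, hc⟩ := hx.2 (x.right * a)
    have h : (x.left (x.right * a)).val * ((x.left (x.right * a))⁻¹).val = 1 := Units.mul_inv _
    rw [hc, smul_mul_assoc, one_mul] at h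
    have h0 : c ≠ 0 := fun h0 => by
      rw [h0, zero_smul] at h
      exact zero_ne_one h
    exact ⟨c⁻¹, by rw [← h, smul_smul, inv_mul_cancel₀ h0, one_smul]; rfl⟩⟩

/-- The list with its first member marked. -/
def mkl (s : W2) (R : List W2) : List (W2 × Mk) := (s, mv) :: R.map fun x => (x, 1)

/-- The number of members that exchange the sheets. -/
def odd (R : List W2) : ℕ := R.countP fun x => x.right = -1

/-- A state, up to scalar blocks: `s` is the movable member. -/
structure Ok0 (s : W2) (R : List W2) : Prop where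
  fin : ∀ x ∈ s :: R, IsOfFinOrder x
  typ : ∀ x ∈ s :: R, Ty x
  gs : Gd s
  gd : ∃ c ∈ R, Gd c
  cnt : 4 ≤ odd R
  prod : (s :: R).prod ∈ Sc
  pair : PairH Mo (fun x => IsOfFinOrder x.1) (mkl s R)
  prim : ∀ a (E : Mt 2), E.trace = 0 → (∀ h ∈ gen (s :: R), h.right = 1 → h.left a ∈ stE E) → E = 0

/-- A state. -/
structure Ok (s : W2) (R : List W2) : Prop extends Ok0 s R where
  sl : ∀ x ∈ s :: R, x ∈ SL

theorem mem_stV {g : GLr 2} {v : Fin 2 → ℂ} : g ∈ stV v ↔ Eig g v := Iff.rfl

theorem mul_l (x y : W2) (a : ℤˣ) : (x * y).left a = x.left a * y.left (x.right * a) := by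
  rw [← Int.units_inv_eq_self x.right]
  rfl

theorem inv_l (x : W2) (a : ℤˣ) : x⁻¹.left a = (x.left (x.right * a))⁻¹ := rfl

theorem mul_r (x y : W2) : (x * y).right = x.right * y.right := rfl

theorem inv_r (x : W2) : x⁻¹.right = x.right := Int.units_inv_eq_self _

end Pool.Agent.GR.RC
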