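import Pool.Agent.Lib.MP_aa40d3_nt.RC.Uni

/-! Finiteness from the finite order of handles. -/

open Matrix ComplexConjugate

namespace Pool.Agent.GR.RC

/-- Determinant one, and finite order with and without the factor `s`. -/
def Fo (s m : GLr 2) : Prop := m.val.det = 1 ∧ IsOfFinOrder m ∧ IsOfFinOrder (s * m)

/-- The data on one sheet: punctures `s`, `C`, handles `H`, simple loops `L`, pairs `P`. -/
structure Hd (s x : GLr 2) (C H L : Set (GLr 2)) (P : GLr 2 → GLr 2 → Prop) : Prop where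
  ds : s.val.det = 1
  fs : IsOfFinOrder s
  fc : ∀ c ∈ C, Fo s c
  fl : ∀ Y ∈ L, Fo s Y
  x0 : x ∈ H
  x1 : ∀ X ∈ H, X ∈ L
  xx : ∀ X ∈ H, ∀ X' ∈ H, X = X' ∨ X⁻¹ * X' ∈ L ∨ X'⁻¹ * X ∈ L
  cx : ∀ c ∈ C, ∀ X ∈ H, c * X ∈ L
  cc : ∀ c ∈ C, ∀ c' ∈ C, c = c' ∨ c * c' * x ∈ L ∨ c' * c * x ∈ L
  lp : ∀ Y ∈ L, ∃ X, P X Y ∧ P (s * X) Y
  pp : ∀ X Y, P X Y → X ∈ Subgroup.closure (insert s (C ∪ H)) ∧
    Y ∈ Subgroup.closure (insert s (C ∪ H)) ∧ IsOfFinOrder X ∧ IsOfFinOrder Y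
  m1 : ∀ X Y, P X Y → P X (X⁻¹ * Y)
  m2 : ∀ X Y, P X Y → P X (X * Y)
  m3 : ∀ X Y, P X Y → P (X * Y) Y

variable {s x : GLr 2} {C H L : Set (GLr 2)} {P : GLr 2 → GLr 2 → Prop}

theorem Hd.map (h : Hd s x C H L P) (f : GLr 2 →* GLr 2)
    (hf : ∀ m : GLr 2, m.val.det = 1 → (f m).val.det = 1) :
    Hd (f s) (f x) (f '' C) (f '' H) (f '' L)
      (fun X Y => ∃ X' Y', P X' Y' ∧ f X' = X ∧ f Y' = Y) := by
  have fo : ∀ m, Fo s m → Fo (f s) (f m) := fun m hm =>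
    ⟨hf m hm.1, f.isOfFinOrder hm.2.1, map_mul f s m ▸ f.isOfFinOrder hm.2.2⟩
  have cl : ∀ m ∈ Subgroup.closure (insert s (C ∪ H)),
      f m ∈ Subgroup.closure (insert (f s) (f '' C ∪ f '' H)) := fun m hm => by
    rw [← Set.image_union, ← Set.image_insert_eq, ← MonoidHom.map_closure]
    exact ⟨m, hm, rfl⟩
  refine ⟨hf s h.ds, f.isOfFinOrder h.fs, ?_, ?_, ⟨x, h.x0, rfl⟩, ?_, ?_, ?_, ?_, ?_, ?_, ?_, ?_, ?_⟩
  · rintro _ ⟨c, hc, rfl⟩
    exact fo c (h.fc c hc)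
  · rintro _ ⟨c, hc, rfl⟩
    exact fo c (h.fl c hc)
  · rintro _ ⟨c, hc, rfl⟩
    exact ⟨c, h.x1 c hc, rfl⟩
  · rintro _ ⟨c, hc, rfl⟩ _ ⟨d, hd, rfl⟩
    exact (h.xx c hc d hd).imp (congrArg f) (Or.imp (fun k => ⟨_, k, by simp⟩) fun k => ⟨_, k, by simp⟩)
  · rintro _ ⟨c, hc, rfl⟩ _ ⟨d, hd, rfl⟩
    exact ⟨_, h.cx c hc d hd, by simp⟩
  · rintro _ ⟨c, hc, rfl⟩ _ ⟨d, hd, rfl⟩
    exact (h.cc c hc d hd).imp (congrArg f) (Or.imp (fun k => ⟨_, k, by simp⟩) fun k => ⟨_, k, by simp⟩)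
  · rintro _ ⟨Y, hY, rfl⟩
    obtain ⟨X, h1, h2⟩ := h.lp Y hY
    exact ⟨f X, ⟨X, Y, h1, rfl, rfl⟩, _, Y, h2, by simp, rfl⟩
  · rintro _ _ ⟨X, Y, h1, rfl, rfl⟩
    obtain ⟨a1, a2, a3, a4⟩ := h.pp X Y h1
    exact ⟨cl X a1, cl Y a2, f.isOfFinOrder a3, f.isOfFinOrder a4⟩
  · rintro _ _ ⟨X, Y, h1, rfl, rfl⟩
    exact ⟨_, _, h.m1 X Y h1, rfl, by simp⟩
  · rintro _ _ ⟨X, Y, h1, rfl, rfl⟩
    exact ⟨_, _, h.m2 X Y h1, rfl, by simp⟩
  · rintro _ _ ⟨X, Y, h1, rfl, rfl⟩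
    exact ⟨_, _, h.m3 X Y h1, by simp, rfl⟩

theorem Hd.one (h : Hd s x C H L P) : ∀ m ∈ insert s (C ∪ H), m.val.det = 1 ∧ IsOfFinOrder m := by
  rintro m (rfl | hm | hm)
  · exact ⟨h.ds, h.fs⟩
  · exact ⟨(h.fc m hm).1, (h.fc m hm).2.1⟩
  · exact ⟨(h.fl m (h.x1 m hm)).1, (h.fl m (h.x1 m hm)).2.1⟩

theorem det_mul_one {a b : GLr 2} (ha : a.val.det = 1) (hb : b.val.det = 1) :
    (a * b).val.det = 1 := by
  rw [Units.val_mul, det_mul, ha, hb, one_mul]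

theorem tU_comm (a b : GLr 2) : tU (a * b) = tU (b * a) := tU_of a (by group)

theorem Hd.int (h : Hd s x C H L P) : ∀ m ∈ insert s (C ∪ H), ∀ m' ∈ insert s (C ∪ H),
    IsIntegral ℤ (tU (m * m')) := by
  have i1 : ∀ m ∈ insert s (C ∪ H), IsIntegral ℤ (tU m) := fun m hm =>
    (cy_of_fin (h.one m hm).1 (h.one m hm).2).int
  have iL : ∀ m ∈ L, IsIntegral ℤ (tU m) := fun m hm =>
    (cy_of_fin (h.fl m hm).1 (h.fl m hm).2.1).int
  have is : ∀ m, Fo s m → IsIntegral ℤ (tU (s * m)) := fun m hm =>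
    (cy_of_fin (det_mul_one h.ds hm.1) hm.2.2).int
  have sq : ∀ m ∈ insert s (C ∪ H), IsIntegral ℤ (tU (m * m)) := fun m hm =>
    (cy_of_fin (det_mul_one (h.one m hm).1 (h.one m hm).1) (pow_two m ▸ (h.one m hm).2.pow)).int
  have hx : ∀ m ∈ H, ∀ m' ∈ H, m⁻¹ * m' ∈ L → IsIntegral ℤ (tU (m * m')) := fun m hm m' hm' k =>
    omi_eq (((iL m (h.x1 m hm)).mul (iL m' (h.x1 m' hm'))).sub (iL _ k)) (by
      rw [tU_inv_mul (h.fl m (h.x1 m hm)).1, sub_sub_cancel])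
  have hc : ∀ c ∈ C, ∀ d ∈ C, c * d * x ∈ L → IsIntegral ℤ (tU (c * d)) := by
    intro c hc d hd k
    have e := tU_fr (h.fl x (h.x1 x h.x0)).1 (h.fc c hc).1 (h.fc d hd).1
    rw [mul_assoc, tU_comm x, tU_comm x, tU_comm x] at e
    have ha := iL x (h.x1 x h.x0)
    have hb := i1 c (Or.inr (Or.inl hc))
    have he := i1 d (Or.inr (Or.inl hd))
    have hw := iL _ k
    have hx := iL _ (h.cx c hc x h.x0)
    have hy := iL _ (h.cx d hd x h.x0)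
    have h4 : IsIntegral ℤ (4 : ℂ) := by exact_mod_cast isIntegral_algebraMap (x := (4 : ℤ))
    exact int_quad ((hx.mul hy).sub ((hb.mul he).add (ha.mul hw)))
      (((((hx.pow 2).add (hy.pow 2)).sub (((ha.mul hb).add (he.mul hw)).mul hx)).sub
        (((ha.mul he).add (hb.mul hw)).mul hy)).sub (((((h4.sub (ha.pow 2)).sub (hb.pow 2)).sub
          (he.pow 2)).sub (hw.pow 2)).sub (((ha.mul hb).mul he).mul hw)))
      (by unfold fr at e; linear_combination e)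
  rintro m (rfl | hm | hm) m' (rfl | hm' | hm')
  · exact sq _ (Or.inl rfl)
  · exact is _ (h.fc _ hm')
  · exact is _ (h.fl _ (h.x1 _ hm'))
  · exact tU_comm _ _ ▸ is _ (h.fc _ hm)
  · rcases h.cc m hm m' hm' with rfl | k | k
    · exact sq _ (Or.inr (Or.inl hm))
    · exact hc m hm m' hm' k
    · exact tU_comm _ _ ▸ hc m' hm' m hm k
  · exact iL _ (h.cx m hm m' hm')
  · exact tU_comm _ _ ▸ is _ (h.fl _ (h.x1 _ hm))
  · exact tU_comm _ _ ▸ iL _ (h.cx m' hm' m hm)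
  · rcases h.xx m hm m' hm' with rfl | k | k
    · exact sq _ (Or.inr (Or.inr hm))
    · exact hx m hm m' hm' k
    · exact tU_comm _ _ ▸ hx m' hm' m hm k

theorem Hd.form (h : Hd s x C H L P) {ζ : ℂ} (hn : ‖ζ‖ = 1) (hζ : ζ ≠ ζ⁻¹)
    (hs : s.val = !![ζ, 0; 0, ζ⁻¹]) (hq : ∃ m ∈ insert s (C ∪ H), m.val 0 1 ≠ 0)
    (hr : ∃ m ∈ insert s (C ∪ H), m.val 1 0 ≠ 0) :
    ∃ δ : ℝ, δ ≠ 0 ∧ ∀ m ∈ insert s (C ∪ H), m ∈ suD δ := by
  have sh : ∀ m, Fo s m → m.val 1 1 = conj (m.val 0 0) := fun m hm =>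
    unit_diag hn hζ hs (cy_of_fin hm.1 hm.2.1).rl.1 (cy_of_fin (det_mul_one h.ds hm.1) hm.2.2).rl.1
  have shL := fun m hm => sh m (h.fl m hm)
  have shH := fun m hm => shL m (h.x1 m hm)
  have shC := fun m hm => sh m (h.fc m hm)
  have s1 : ∀ m ∈ insert s (C ∪ H), m.val 1 1 = conj (m.val 0 0) := by
    rintro m (rfl | hm | hm)
    · simp [hs, Complex.inv_eq_conj hn]
    · exact shC m hm
    · exact shH m hm
  have hx : ∀ m ∈ H, ∀ m' ∈ H, m⁻¹ * m' ∈ L → Cor m m' := fun m hm m' hm' k => by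
    have hd := (h.fl m (h.x1 m hm)).1
    refine Cor.inv hd (unit_pair ?_ (shH m' hm') (shL _ k))
    simp [inv_adj hd, adjugate_fin_two, shH m hm]
  by_cases hH : ∃ k ∈ H, k.val 0 1 ≠ 0 ∨ k.val 1 0 ≠ 0
  · obtain ⟨k, hk, hk'⟩ := hH
    refine exists_form (fun m hm => (h.one m hm).1) s1 (Or.inr (Or.inr hk)) hk' ?_ hq hr
    rintro m (rfl | hm | hm) e
    · simp [Cor, hs]
    · exact unit_pair (shC m hm) (shH k hk) (shL _ (h.cx m hm k hk))
    · rcases h.xx m hm k hk with e' | e' | e'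
      · exact absurd e' e
      · exact hx m hm k hk e'
      · exact (hx k hk m hm e').symm
  · push Not at hH
    obtain ⟨k, hk, hk'⟩ := id hq
    have hc : ∀ c ∈ C, ∀ d ∈ C, c * d * x ∈ L → Cor c d := fun c hc d hd e => by
      refine unit_pair (shC c hc) (shC d hd) ?_
      have e1 := shL _ e
      have e2 := (h.fl x (h.x1 x h.x0)).1
      generalize c * d = y at e1 ⊢
      rw [det_fin_two, (hH x h.x0).1, zero_mul, sub_zero] at e2
      simp only [Units.val_mul, Matrix.mul_apply, Fin.sum_univ_two, (hH x h.x0).1, (hH x h.x0).2,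
        mul_zero, zero_add, add_zero, map_mul, ← shH x h.x0] at e1
      exact mul_right_cancel₀ (right_ne_zero_of_mul_eq_one e2) e1
    refine exists_form (fun m hm => (h.one m hm).1) s1 hk (Or.inl hk') ?_ hq hr
    rcases hk with rfl | hk | hk
    · simp [hs] at hk'
    · rintro m (rfl | hm | hm) e
      · simp [Cor, hs]
      · rcases h.cc m hm k hk with e' | e' | e'
        · exact absurd e' e
        · exact hc m hm k hk e'
        · exact (hc k hk m hm e').symm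
      · simp [Cor, (hH m hm).1, (hH m hm).2]
    · exact absurd (hH k hk).1 hk'

theorem Hd.bdd (h : Hd s x C H L P) {ζ : ℂ} (hn : ‖ζ‖ = 1) (hζ : ζ ≠ ζ⁻¹)
    (hs : s.val = !![ζ, 0; 0, ζ⁻¹]) (hq : ∃ m ∈ insert s (C ∪ H), m.val 0 1 ≠ 0)
    (hr : ∃ m ∈ insert s (C ∪ H), m.val 1 0 ≠ 0) :
    ∀ γ ∈ Subgroup.closure (insert s (C ∪ H)), ‖tU γ‖ ≤ 2 := by
  obtain ⟨δ, h0, hδ⟩ := h.form hn hζ hs hq hr
  have hle : Subgroup.closure (insert s (C ∪ H)) ≤ suD δ := (Subgroup.closure_le _).2 hδ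
  rcases lt_or_gt_of_ne h0 with h1 | h1
  swap
  · exact fun γ hγ => suD_trace h1.le (hle hγ)
  have key : ∀ Y ∈ L, Y.val 0 1 = 0 := fun Y hY => by
    obtain ⟨X, k1, k2⟩ := h.lp Y hY
    exact handle_diag h1 hn hζ hs (fun X Y k => ⟨hle (h.pp X Y k).1, hle (h.pp X Y k).2.1,
      (h.pp X Y k).2.2⟩) h.m1 h.m2 h.m3 k1 k2
  obtain ⟨m, rfl | hm | hm, hm'⟩ := hq
  · simp [hs] at hm'
  · have e1 := key _ (h.cx m hm x h.x0)
    have e2 := (h.fl x (h.x1 x h.x0)).1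
    have e3 := key _ (h.x1 x h.x0)
    rw [det_fin_two, e3, zero_mul, sub_zero] at e2
    simp only [Units.val_mul, Matrix.mul_apply, Fin.sum_univ_two, e3, mul_zero, zero_add] at e1
    exact absurd e1 (mul_ne_zero hm' (right_ne_zero_of_mul_eq_one e2))
  · exact absurd (key m (h.x1 m hm)) hm'

theorem Hd.finite_diag (h : Hd s x C H L P) (hC : C.Finite) (hH : H.Finite) {ζ : ℂ}
    (hf : IsOfFinOrder ζ) (hζ : ζ ≠ ζ⁻¹) (hs : s.val = !![ζ, 0; 0, ζ⁻¹])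
    (hq : ∃ m ∈ insert s (C ∪ H), m.val 0 1 ≠ 0) (hr : ∃ m ∈ insert s (C ∪ H), m.val 1 0 ≠ 0) :
    Finite (Subgroup.closure (insert s (C ∪ H))) := by
  obtain ⟨n, c, -, hc⟩ := ((hC.union hH).insert s).fin_param
  have hm : ∀ i, c i ∈ insert s (C ∪ H) := fun i => hc ▸ Set.mem_range_self i
  obtain ⟨o, ho⟩ : s ∈ Set.range c := hc ▸ Set.mem_insert _ _
  have key := finite_of_traces (c := c) hζ (ho ▸ hs) (fun i => (h.one _ (hm i)).1)
    (fun i => (cy_of_fin (h.one _ (hm i)).1 (h.one _ (hm i)).2).int)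
    (fun i j => h.int _ (hm i) _ (hm j))
    (by
      obtain ⟨m, k1, k2⟩ := hq
      obtain ⟨l, rfl⟩ : m ∈ Set.range c := hc ▸ k1
      exact ⟨l, k2⟩)
    (by
      obtain ⟨m, k1, k2⟩ := hr
      obtain ⟨l, rfl⟩ : m ∈ Set.range c := hc ▸ k1
      exact ⟨l, k2⟩)
  rw [hc] at key
  refine key fun τ' γ hγ => ?_
  obtain ⟨τ, hτ⟩ : ∃ τ : ℂ →+* ℂ, ∀ z, τ' z = τ z := ⟨(τ' : ℂ →+* ℂ), fun _ => rfl⟩
  have e0 : ∀ (x : GLr 2) a b, (mapU τ x).val a b = τ (x.val a b) := fun _ _ _ => rfl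
  have key := (h.map (mapU τ) fun m hm => by
      have := τ.map_det m.val
      rw [hm, map_one] at this
      exact this.symm).bdd (ζ := τ ζ) (τ.toMonoidHom.isOfFinOrder hf).norm_eq_one
    (by rw [← map_inv₀]; exact τ.injective.ne hζ)
    (by
      ext a b
      rw [e0, hs]
      fin_cases a <;> fin_cases b <;> simp)
  rw [← Set.image_union, ← Set.image_insert_eq, ← MonoidHom.map_closure] at key
  rw [hτ]
  exact tU_map τ γ ▸ key
    (hq.elim fun m k => ⟨_, ⟨m, k.1, rfl⟩, by rw [e0]; exact (map_ne_zero τ).2 k.2⟩)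
    (hr.elim fun m k => ⟨_, ⟨m, k.1, rfl⟩, by rw [e0]; exact (map_ne_zero τ).2 k.2⟩) _ ⟨γ, hγ, rfl⟩

theorem Hd.finite (h : Hd s x C H L P) (hC : C.Finite) (hH : H.Finite) (hs : ¬ Scl s.val)
    (hi : ∀ v, v ≠ 0 → ¬ Subgroup.closure (insert s (C ∪ H)) ≤ stV v) :
    Finite (Subgroup.closure (insert s (C ∪ H))) := by
  obtain ⟨ζ, g, hf, hζ, hg⟩ := fin_diag h.ds h.fs hs
  have hv : ∀ i j : Fin 2, (∀ k, k = i ∨ k = j) →
      ∃ m ∈ (MulAut.conj g).toMonoidHom '' insert s (C ∪ H), m.val i j ≠ 0 := by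
    intro i j hij
    by_contra! k
    refine hi ((g⁻¹).val *ᵥ Pi.single j 1) (fun e => ?_) ((Subgroup.closure_le _).2 fun m hm => ?_)
    · have := congrArg (fun v => (g.val *ᵥ v) j) e
      simp only [mulVec_mulVec, Units.mul_inv, one_mulVec, mulVec_zero, Pi.single_eq_same] at this
      exact one_ne_zero this
    · have e1 : (g * m * g⁻¹).val *ᵥ Pi.single j 1 = (g * m * g⁻¹).val j j • Pi.single j 1 := by
        ext l
        rw [mulVec_single_one, col_apply, Pi.smul_apply, smul_eq_mul]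
        by_cases e : l = j
        · rw [e, Pi.single_eq_same, mul_one]
        · rw [Pi.single_eq_of_ne e, mul_zero, (hij l).resolve_right e]
          exact k _ ⟨m, hm, rfl⟩
      refine ⟨(g * m * g⁻¹).val j j, ?_⟩
      rw [← mulVec_smul, ← e1, mulVec_mulVec, mulVec_mulVec, ← Units.val_mul, ← Units.val_mul]
      congr 2
      group
  have key := (h.map (MulAut.conj g).toMonoidHom fun m hm =>
    (det_isConj (isConj_iff.2 ⟨g, rfl⟩)).trans hm).finite_diag (hC.image _) (hH.image _) hf hζ hg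
  rw [← Set.image_union, ← Set.image_insert_eq, ← MonoidHom.map_closure] at key
  have := key (hv 0 1 (by decide)) (hv 1 0 (by decide))
  exact Finite.of_equiv _ (Subgroup.equivMapOfInjective _ (MulAut.conj g).toMonoidHom
    (MulAut.conj g).injective).toEquiv.symm

end Pool.Agent.GR.RC
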