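import Pool.Agent.Lib.MP_aa40d3_nt.RC.One
import Pool.Agent.Lib.MP_aa40d3_nt.RC.Sl2

/-! The group of a state is finite. -/

open Matrix

namespace Pool.Agent.GR.RC

open GC FB

variable {s c g x y : W2} {R : List W2} {a : ℤˣ}

/-- A puncture goes once around an exchange. -/
theorem slide (hc : Pu a c) (hg : Sw g) (y : W2) (A T B : List W2) : ∃ T' h, Sw h ∧
    Hur (A ++ c :: T ++ g :: y :: B) (A ++ T' ++ h :: y :: B) ∧
      (h * y).left a = c.left a * (g * y).left a := by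
  have h1 := ((hur_oneR c T).app_left A).app_right (g :: y :: B)
  have h2 := Hur.left (A := A ++ T.map fun x => c * x * c⁻¹) (x := c) (y := g) (B := y :: B)
    (by simpa using h1)
  have h3 := Hur.left h2
  refine ⟨(T.map fun x => c * x * c⁻¹) ++ [g⁻¹ * c * g], (g⁻¹ * c * g)⁻¹ * g * (g⁻¹ * c * g),
    by simpa using hg.conj (g⁻¹ * c * g)⁻¹, by simpa using h3, ?_⟩
  rw [show (g⁻¹ * c * g)⁻¹ * g * (g⁻¹ * c * g) * y = g⁻¹ * c⁻¹ * g⁻¹⁻¹ * (c * (g * y)) by group,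
    hg.inv, ev_mul (by rw [conj_r, inv_r, hc.1]), conj_l (by rw [inv_r, hc.1]), ev_inv hc.1, hg.1,
    neg_one_mul, hc.2, ev_mul hc.1]
  simp

theorem hur_two {G : Type} [Group G] {l : List G} {x y : G} (hx : x ∈ l) (hy : y ∈ l) :
    x = y ∨ (∃ A B, Hur l (A ++ x :: y :: B)) ∨ ∃ A B, Hur l (A ++ y :: x :: B) := by
  obtain ⟨A, B, rfl⟩ := List.append_of_mem hx
  rcases List.mem_append.1 hy with h | h
  · obtain ⟨C, D, rfl⟩ := List.append_of_mem h
    exact Or.inr (Or.inr ⟨C, _ ++ B, by simpa using (hur_oneL D x).ctx (C ++ [y]) B⟩)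
  rcases List.mem_cons.1 h with h | h
  · exact Or.inl h.symm
  · obtain ⟨C, D, rfl⟩ := List.append_of_mem h
    exact Or.inr (Or.inl ⟨A, _ ++ D, by simpa using (hur_oneL C y).ctx (A ++ [x]) D⟩)

/-- A third exchange in front of two neighbouring ones. -/
theorem Ok.third (h : Ok s R) {A B : List W2} (h' : Hur R (A ++ x :: y :: B)) :
    ∃ z B', Sw z ∧ Hur R (z :: x :: y :: B') := by
  obtain ⟨D, h1⟩ : ∃ D, Hur R (x :: y :: D) :=
    ⟨_ ++ B, h'.trans (by simpa using (hur_blockL A [x, y]).app_right B)⟩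
  have h2 := h.hur h1
  have h3 := h2.cnt
  have h4 : 0 < odd D := by
    simp only [odd, List.countP_cons] at h3 ⊢
    split_ifs at h3 <;> omega
  obtain ⟨t, ht, ht'⟩ := List.countP_pos_iff.1 h4
  have h5 : Sw t := (h2.typ t (by simp [ht])).sw (by rw [of_decide_eq_true ht']; decide)
  obtain ⟨E, F, rfl⟩ := List.append_of_mem ht
  exact ⟨_, E ++ F, h5.conj (x :: y :: E).prod,
    h1.trans (by simpa using (hur_blockR (x :: y :: E) [t]).app_right F)⟩

theorem sw_ev (hx : Sw x) (hy : Sw y) : (x * y).right = 1 := by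
  rw [mul_r, hx.1, hy.1, neg_mul_neg, one_mul]

theorem Ok.finite (h : Ok s R) : Finite (gen (s :: R)) := by
  obtain ⟨a, C, O, h1, h2, h3, h4⟩ := h.normal
  obtain ⟨g, g', O', rfl⟩ : ∃ g g' O', O = g :: g' :: O' := by
    rcases O with _ | ⟨g, _ | ⟨g', O'⟩⟩
    · simp at h4
    · simp at h4
    · exact ⟨g, g', O', rfl⟩
  obtain ⟨hs, hC⟩ := List.forall_mem_cons.1 h2
  obtain ⟨hg, hO⟩ := List.forall_mem_cons.1 h3
  have hg' := hO g' (by simp)
  have hc1 : ∀ {l l' : List W2}, Hur l l' → Hur (s :: l) (s :: l') := fun k => k.app_left [s]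
  obtain ⟨Γ, hΓ⟩ : ∃ Γ, Γ = Subgroup.closure (insert (s.left a)
    ({m | ∃ c ∈ C, c.left a = m} ∪ {m | ∃ y ∈ g' :: O', (g * y).left a = m})) := ⟨_, rfl⟩
  have hp : ∀ c, Pu a c → c.left a ∈ Γ → c ∈ Fr a g Γ := fun c hc k => by
    refine (fr_even hg hc.1).2 ⟨k, ?_⟩
    have := conj_l hc.1 g a
    rw [hg.inv, hg.1, neg_one_mul, hc.2, mul_one, mul_inv_cancel] at this
    exact this ▸ one_mem _
  have hle : gen (s :: R) ≤ Fr a g Γ := by
    rw [← (hc1 h1).gen, gen_le]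
    intro w hw
    simp only [List.mem_cons, List.mem_append, ← or_assoc] at hw
    simp only [or_assoc] at hw
    rcases hw with rfl | hw | rfl | hw
    · exact hp _ hs (hΓ ▸ Subgroup.subset_closure (Or.inl rfl))
    · exact hp _ (hC w hw) (hΓ ▸ Subgroup.subset_closure (Or.inr (Or.inl ⟨w, hw, rfl⟩)))
    · exact fr_self hg
    · have hw' := List.mem_cons.2 hw
      exact (fr_odd hg (hO w hw')).2 (hΓ ▸ Subgroup.subset_closure (Or.inr (Or.inr ⟨w, hw', rfl⟩)))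
  have hev : ∀ w ∈ gen (s :: R), w.right = 1 → w.left a ∈ Γ := fun w hw k =>
    ((fr_even hg k).1 (hle hw)).1
  have hadj : ∀ {A B x y}, Hur (s :: R) (A ++ x :: y :: B) → Sw x → Sw y →
      (x * y).left a ∈ Γ ∧ ((x * y).left a).val.det = 1 ∧ IsOfFinOrder ((x * y).left a) := by
    intro A B x y k hx hy
    have e : x * y ∈ gen (s :: R) := k.gen ▸ mul_mem (mem_gen (by simp)) (mem_gen (by simp))
    exact ⟨hev _ e (sw_ev hx hy), h.det e a, fin_l (sw_ev hx hy) (h.adj k hx hy) a⟩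
  have hH : ∀ y ∈ g' :: O', ∃ B, Hur R (C ++ g :: y :: B) := fun y hy => by
    obtain ⟨B, k⟩ := hur_first hy
    exact ⟨B, h1.trans (by simpa using k.app_left (C ++ [g]))⟩
  have key : Hd (s.left a) ((g * g').left a) {m | ∃ c ∈ C, c.left a = m}
      {m | ∃ y ∈ g' :: O', (g * y).left a = m}
      {m | ∃ A x y B, Hur R (A ++ x :: y :: B) ∧ Sw x ∧ Sw y ∧ (x * y).left a = m}
      (fun X Y => ∃ A x y z B, Hur (s :: R) (A ++ x :: y :: z :: B) ∧ Sw x ∧ Sw y ∧ Sw z ∧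
        (x * y).left a = X ∧ (y * z).left a = Y) := by
    refine ⟨h.det (mem_gen (by simp)) a, fin_l hs.1 (h.fin s (by simp)) a, ?_, ?_,
      ⟨g', by simp, rfl⟩, ?_, ?_, ?_, ?_, ?_, ?_, ?_, ?_, ?_⟩
    · rintro _ ⟨c, hc, rfl⟩
      obtain ⟨D, k⟩ := hur_first (List.mem_append_left (g :: g' :: O') hc)
      have k1 := h.hur (h1.trans k)
      have k2 := fin_l (by rw [mul_r, hs.1, (hC c hc).1, one_mul]) k1.first a
      rw [ev_mul hs.1] at k2
      exact ⟨k1.det (mem_gen (by simp)) a, fin_l (hC c hc).1 (k1.fin c (by simp)) a, k2⟩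
    · rintro _ ⟨A, x, y, B, k, hx, hy, rfl⟩
      obtain ⟨T, z, hz, k1, k2⟩ := slide hs hx y [] A B
      have k3 := hadj (A := s :: A) (hc1 k) hx hy
      exact ⟨k3.2.1, k3.2.2, k2 ▸ (hadj ((hc1 k).trans k1) hz hy).2.2⟩
    · rintro _ ⟨y, hy, rfl⟩
      obtain ⟨B, k⟩ := hH y hy
      exact ⟨C, g, y, B, k, hg, hO y hy, rfl⟩
    · have e : ∀ x y, Sw x → (x * y).left a = ((g * x).left a)⁻¹ * (g * y).left a := by
        intro x y hx
        rw [← ev_inv (sw_ev hg hx), ← ev_mul (by rw [inv_r, sw_ev hg hx]), _root_.mul_inv_rev,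
          mul_assoc, inv_mul_cancel_left, hx.inv]
      have e' : ∀ x ∈ g' :: O', ∀ y ∈ g' :: O', (∃ A B, Hur (g' :: O') (A ++ x :: y :: B)) →
          ∃ A u v B, Hur R (A ++ u :: v :: B) ∧ Sw u ∧ Sw v ∧
            (u * v).left a = ((g * x).left a)⁻¹ * (g * y).left a := by
        rintro x hx y hy ⟨A, B, k⟩
        exact ⟨C ++ g :: A, x, y, B, h1.trans (by simpa using k.app_left (C ++ [g])), hO x hx,
          hO y hy, e x y (hO x hx)⟩
      rintro _ ⟨x, hx, rfl⟩ _ ⟨y, hy, rfl⟩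
      exact (hur_two hx hy).imp (fun k => by rw [k]) (Or.imp (e' x hx y hy) (e' y hy x hx))
    · rintro _ ⟨c, hc, rfl⟩ _ ⟨y, hy, rfl⟩
      obtain ⟨B, k⟩ := hH y hy
      obtain ⟨A, T, rfl⟩ := List.append_of_mem hc
      obtain ⟨T', z, hz, k1, k2⟩ := slide (hC c hc) hg y A T B
      exact ⟨_, z, y, B, k.trans k1, hz, hO y hy, k2⟩
    · have e' : ∀ c ∈ C, ∀ d ∈ C, (∃ A B, Hur C (A ++ c :: d :: B)) →
          ∃ A u v B, Hur R (A ++ u :: v :: B) ∧ Sw u ∧ Sw v ∧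
            (u * v).left a = c.left a * d.left a * (g * g').left a := by
        rintro c hc d hd ⟨A, B, k⟩
        obtain ⟨T, z, hz, k1, k2⟩ := slide (hC d hd) hg g' (A ++ [c]) B O'
        obtain ⟨T', z', hz', k3, k4⟩ := slide (hC c hc) hz g' A T O'
        refine ⟨_, z', g', O', (h1.trans (k.app_right _)).trans (Hur.trans ?_ k3), hz', hg', ?_⟩
        · simpa using k1
        · rw [k4, k2, mul_assoc]
      rintro _ ⟨c, hc, rfl⟩ _ ⟨d, hd, rfl⟩
      exact (hur_two hc hd).imp (fun k => by rw [k]) (Or.imp (e' c hc d hd) (e' d hd c hc))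
    · rintro _ ⟨A, x, y, B, k, hx, hy, rfl⟩
      obtain ⟨z, B', hz, k1⟩ := h.third k
      obtain ⟨T, u, hu, k2, k3⟩ := slide hs hz x [] [] (y :: B')
      exact ⟨_, ⟨[s], z, x, y, B', hc1 k1, hz, hx, hy, rfl, rfl⟩,
        _, u, x, y, B', (hc1 k1).trans k2, hu, hx, hy, k3, rfl⟩
    · rintro _ _ ⟨A, x, y, z, B, k, hx, hy, hz, rfl, rfl⟩
      have k1 := hadj k hx hy
      have k2 := hadj (A := A ++ [x]) (B := B) (by simpa using k) hy hz
      exact ⟨hΓ ▸ k1.1, hΓ ▸ k2.1, k1.2.2, k2.2.2⟩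
    · rintro _ _ ⟨A, x, y, z, B, k, hx, hy, hz, rfl, rfl⟩
      refine ⟨A, y, _, z, B, k.left, hy, by simpa using hx.conj y⁻¹, hz, by congr 1; group, ?_⟩
      rw [← ev_inv (sw_ev hx hy), ← ev_mul (by rw [inv_r, sw_ev hx hy]), _root_.mul_inv_rev, hx.inv,
        mul_assoc]
    · rintro _ _ ⟨A, x, y, z, B, k, hx, hy, hz, rfl, rfl⟩
      refine ⟨A, _, x, z, B, k.right, hy.conj x, hx, hz, by congr 1; group, ?_⟩
      rw [← ev_mul (sw_ev hx hy), mul_assoc, ← mul_assoc y, hy.2, one_mul]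
    · rintro _ _ ⟨A, x, y, z, B, k, hx, hy, hz, rfl, rfl⟩
      have k1 := Hur.left (A := A ++ [x]) (x := y) (y := z) (B := B) (by simpa using k)
      refine ⟨A, x, z, z⁻¹ * y * z, B, by simpa using k1, hx, hz, by simpa using hy.conj z⁻¹, ?_,
        by congr 1; group⟩
      rw [← ev_mul (sw_ev hx hy), mul_assoc, ← mul_assoc y, hy.2, one_mul]
  have fin := key.finite ((List.finite_toSet C).image _) ((List.finite_toSet (g' :: O')).image _)
    (h.gs.left hs) fun v hv k => by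
      obtain ⟨E, k1, k2, k3⟩ := stV_le hv
      exact k1 (h.prim a E k2 fun w hw e => k3 (k (hΓ ▸ hev w hw e)))
  rw [← hΓ] at fin
  have := fr_finite (a := a) (g := g) (B := Γ)
  exact Finite.of_injective _ (Subgroup.inclusion_injective hle)

end Pool.Agent.GR.RC
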