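import Pool.Agent.Lib.MP_aa40d3_nt.RC.Main
import Pool.Agent.Lib.MP_aa40d3_nt.RC.Cov

/-! Systems of rank two on a curve with a simple covering that has one free puncture. -/

open Polynomial
open scoped Polynomial.Bivariate IntermediateField

namespace Pool.Agent.GR.RC

open Pool.Agent.GR.CV Pool.Agent.GR.GE FB
open Pool.Agent.Lib.MP_a01f70_lc.QQ (Place)

theorem final14 (R : Type) [CommRing R] [Algebra.FiniteType ℤ R] (ι ψ : R →+* ℂ) (S : CV.Sys R 2)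
    (F : Type) [Field F] [Algebra ℂ F] (x y f : F) (Sg : Finset (Place ℂ F)) (d : ℕ) (c₀ : ℂ)
    (h0 : RingHom.ker ι ≤ RingHom.ker ψ) (hP : S.P.Monic) (hI : Irreducible (S.map ι).P)
    (hI' : Irreducible (S.map ψ).P) (hD : (S.map ψ).D ≠ 0) (hx : Transcendental ℂ x)
    (hxy : ℂ⟮x, y⟯ = ⊤) (hy : aevalAeval x y (S.map ι).P = 0) (hdeg : Module.finrank ℂ⟮f⟯ F = d)
    (h1 : Fib Sg f 0 (-1) d)
    (h2 : ∀ c, Fib Sg f c 1 (d - 1) ∨ (Fib Sg f c 2 1 ∧ Fib Sg f c 1 (d - 2)))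
    (h3 : Pun (S.map ι) x y Sg f c₀)
    (h4 : Transcendental (IntermediateField.adjoin ℚ {c | c ≠ c₀ ∧ ¬ Fib Sg f c 1 d}) c₀)
    (h5 : d = 1 ∨ (2 ≤ d ∧ 1 ≤ genus F ∧ DetO (S.map ι) x y ∧
      ∃ c₁ ≠ c₀, Pun (S.map ι) x y Sg f c₁))
    (hL : ∀ p ∉ Sg, ∀ φ, At φ p → (S.map ι).Loc (φ x) (φ y)) (hPr : PrimF (S.map ι) x y)
    (hF : ∀ m : Ideal R, m.IsMaximal → (S.map (Ideal.Quotient.mk m)).Fund) : (S.map ψ).Alg := by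
  refine SP.alg_spec ι ψ h0 S hP hI ?_ hI' hD
  have hMo : GE.Model x y (S.map ι).P := ⟨hx, hxy, hP.map _, hI, hy⟩
  have : IsFF F := isFF_of_gen hx hxy hI.ne_zero hy
  have hd : d ≠ 0 := by omega
  obtain ⟨f', n, t, M, o, k0, k1, k2, k3, k4, k5, k6, k7, k8, k9⟩ :=
    exists_list2 hd hdeg h1 h2 (h3.imp fun p h => ⟨h.1, h.2.1⟩) h4
  have hf : Transcendental ℂ f' := tr_of_rank (by omega)
  obtain ⟨w, hw, hw'⟩ := exists_int hf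
  obtain ⟨P', hM'⟩ := GE.exists_model hf hw hw'
  have hd' := hM'.deg.trans k0
  obtain ⟨S', E, rfl, h⟩ := exists_chg (S.map ι) hMo (d_ne h0 hD) hM'
  obtain ⟨R', _, _, ι', S₀, q1, rfl, q2⟩ := transport ι S hP h hF
  have hL' : ∀ p, p ∉ Sg → ∀ φ, At φ p → (S₀.map ι').Loc (φ f') (φ w) :=
    fun p hp φ hφ => h.loc φ (hL p hp φ hφ)
  obtain ⟨δ, B, hC, c1, c2⟩ := chg_con h
  have hp : ∀ c, Pun (S.map ι) x y Sg f c →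
      ∃ i, i ∉ M ∧ PunP (S₀.map ι') d (t i) ∧ (i = o ↔ c = c₀) := by
    rintro c ⟨p, p1, p2, p3⟩
    obtain ⟨i, i1, i2, i3⟩ := k9 c p p1 p2
    exact ⟨i, i1, punP_of h hL' (k7 i i1) ⟨p, p1, i2, p3⟩, i3⟩
  obtain ⟨i, i1, i2, i3⟩ := hp c₀ h3
  obtain rfl := i3.2 rfl
  refine h.alg (final14a ι' S₀ hC (c1 hPr) q1 ((q1.natDegree_map _).symm.trans hd') hd k2 k3 k4
    (fun i hi => ⟨(k6 i hi).1, unr_fin hM' hL' (k6 i hi).2.2, loc_bra hM' hL' (k6 i hi).2.1⟩)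
    (fun i hi => unr_fin hM' hL' (k7 i hi)) (fun c hc => unr_fin hM' hL' (k8 c hc))
    (unr_inf hM' hL' (Fib.pls0.1 k1)) i1 i2 (h5.imp_right ?_) q2)
  rintro ⟨l1, l2, l3, c₁, l4, l5⟩
  obtain ⟨j, j1, j2, j3⟩ := hp c₁ l5
  exact ⟨k5 l1 l2, hC.detP (c2 l3), j, fun e => l4 (j3.1 e), j1, j2⟩

theorem final15 (R : Type) [CommRing R] [Algebra.FiniteType ℤ R] (ι ψ : R →+* ℂ) (S : CV.Sys R 2)
    (F : Type) [Field F] [Algebra ℂ F] (x y : F) (Sg : Finset (Place ℂ F)) (p₀ : Place ℂ F)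
    (h0 : RingHom.ker ι ≤ RingHom.ker ψ) (hP : S.P.Monic) (hI : Irreducible (S.map ι).P)
    (hI' : Irreducible (S.map ψ).P) (hD : (S.map ψ).D ≠ 0) (hx : Transcendental ℂ x)
    (hxy : ℂ⟮x, y⟯ = ⊤) (hy : aevalAeval x y (S.map ι).P = 0) (h1 : p₀ ∈ Sg) (h2 : Free Sg p₀)
    (h3 : ∀ φ, At φ p₀ → Exp (S.map ι) (φ x) (φ y))
    (h4 : genus F = 0 ∨ (DetO (S.map ι) x y ∧
      ∃ p₁ ∈ Sg, p₁ ≠ p₀ ∧ ∀ φ, At φ p₁ → Exp (S.map ι) (φ x) (φ y)))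
    (hL : ∀ p ∉ Sg, ∀ φ, At φ p → (S.map ι).Loc (φ x) (φ y)) (hPr : PrimF (S.map ι) x y)
    (hF : ∀ m : Ideal R, m.IsMaximal → (S.map (Ideal.Quotient.mk m)).Fund) : (S.map ψ).Alg := by
  have : IsFF F := isFF_of_gen hx hxy hI.ne_zero hy
  obtain ⟨f, v, k1, k2, k3, k4, k5, k6⟩ := exists_simple h1 h2
  refine final14 R ι ψ S F x y f Sg _ (v p₀) h0 hP hI hI' hD hx hxy hy k1 k2 k3
    ⟨p₀, h1, k4 p₀ h1, h3⟩ k6 ?_ hL hPr hF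
  rcases Nat.eq_zero_or_pos (genus F) with hg | hg
  · exact Or.inl (by omega)
  obtain ⟨l1, p₁, l2, l3, l4⟩ := h4.resolve_left hg.ne'
  exact Or.inr ⟨by omega, hg, l1, v p₁, fun e => l3 (k5 l2 h1 e), p₁, l2, k4 p₁ l2, l4⟩

end Pool.Agent.GR.RC
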