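import Pool.Agent.Lib.MP_aa40d3_nt.RC.DefsB
import Pool.Agent.Lib.MP_aa40d3_nt.CP.Fld

/-! From the function field to the plane model. -/

open Polynomial Matrix
open scoped Polynomial.Bivariate

namespace Pool.Agent.GR.RC

open CV CP Pool.Agent.GR.GE Pool.Agent.Lib.MP_a01f70_lc.QQ

variable {d n : ℕ} {F : Type} [Field F] [Algebra ℂ F] {S S' : CV.Sys ℂ 2} {x y f w : F}

/-- `Con.exists_sub`, and the algebra it gives is commutative. -/
theorem primZ_of {δ : Derivation ℂ F F} {B : Matrix (Fin 2) (Fin 2) F} (h : Con S x y δ B)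
    (hB : PrimB δ B) {q : ℂ[X][Y]} {δ₀ : ℂ[X]} (hp : Prep S d q δ₀) (hd : d ≠ 0) (hδ : δ₀ ≠ 0)
    {t : Fin n → ℂ} {A : Fin n → Mt (2 * d)} {ρ : ℂ[X]} {G : PM (2 * d)}
    (g : Gau (δ₀ * S.D) (pB S d q δ₀) (dl t) (pm t A) ρ G) (hρ : ρ ≠ 0) (hG : G.det ≠ 0)
    {W : Subalgebra ℂ[X] (PM (2 * d))} (h1 : ∀ k : ℕ, G * pM S d ^ k * G.adjugate ∈ W)
    (h2 : ∀ (c : ℂ[X]) Φ, c ≠ 0 → c • Φ ∈ W → Φ ∈ W) : PrimZ t A W := by
  intro W' hW hle hc Ψ hΨ
  by_contra hn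
  obtain ⟨V, k1, k2, k3⟩ := h.exists_sub hp hd hδ g hρ hG h1 h2 hW hle
    (fun Φ hΦ => hc Φ (hle hΦ)) ⟨Ψ, hΨ, hn⟩
  refine k1 (hB V k2 fun Φ hΦ Φ' hΦ' => ?_)
  obtain ⟨c, Θ, hc0, hm, e⟩ := k3 Φ hΦ
  obtain ⟨c', Θ', hc0', hm', e'⟩ := k3 Φ' hΦ'
  have h0 : ∀ U : PM (2 * d), U * G.adjugate * G = G.det • U := fun U => by
    rw [Matrix.mul_assoc, adjugate_mul, Matrix.mul_smul, Matrix.mul_one]
  have e1 : Θ * Θ' = Θ' * Θ := by
    have e2 := congrArg (fun U => G.adjugate * U * G) (hc _ hm _ hm')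
    simp only [← Matrix.mul_assoc, adjugate_mul, h0, Matrix.smul_mul, Matrix.mul_smul,
      Matrix.one_mul] at e2
    exact fld_cancel hG (fld_cancel hG (fld_cancel hG e2))
  have e3 : ∀ {Φ Φ' : Matrix (Fin 2) (Fin 2) F} {Θ Θ' : PM (2 * d)} {u v : F},
      Om 2 d y * Θ.map (aeval x) = u • (Φ * Om 2 d y) →
      Om 2 d y * Θ'.map (aeval x) = v • (Φ' * Om 2 d y) →
      Om 2 d y * (Θ * Θ').map (aeval x) * (fldE 2 ⟨0, Nat.pos_of_ne_zero hd⟩).map (aeval x) =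
        (u * v) • (Φ * Φ') := fun e e' => by
    rw [fld_mul, ← Matrix.mul_assoc, e, Matrix.smul_mul, Matrix.mul_assoc _ (Om 2 d y), e',
      Matrix.mul_smul, smul_smul, Matrix.smul_mul, ← Matrix.mul_assoc, Matrix.mul_assoc _ (Om 2 d y),
      fld_omE, pow_zero, one_smul, Matrix.mul_one]
  have e4 := e3 e e'
  rw [e1, e3 e' e, mul_comm] at e4
  exact (smul_right_injective _ (mul_ne_zero (h.ne hc0) (h.ne hc0')) e4).symm

variable [IsFF F] {E : Derivation ℤ F F}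

/-- As `Chg.loc`. -/
theorem chg_exp (h : Chg S S' x y f w E) (φ : F →ₐ[ℂ] LaurentSeries ℂ)
    (hφ : Exp S (φ x) (φ y)) : Exp S' (φ f) (φ w) := by
  obtain ⟨G, B, a, b, hG, hB, hc, hab, h1⟩ := hφ
  have hE : Ext E 0 := fun c => (h.ext c).trans (map_zero _).symm
  have h0 : ∀ a, cd 0 a = 0 := fun a => by
    ext k
    rfl
  have h2 := hE.loc φ h.m'.tr x
  rw [h0, h0, sub_zero, sub_zero, h.one, map_one, mul_one] at h2
  have h3 : aeval (φ x) S.D ≠ 0 := by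
    rw [aeval_algHom_apply]
    exact (map_ne_zero φ).2 fun e => h.m.tr ⟨_, h.D, e⟩
  have h4 : aeval (φ x) S.D • S'.A.map (aevalAeval (φ f) (φ w)) =
      (aeval (φ f) S'.D * φ (E x)) • S.A.map (aevalAeval (φ x) (φ y)) := Matrix.ext fun i j => by
    have h5 := congrArg φ (congrFun (congrFun h.eq i) j)
    simpa only [Matrix.smul_apply, Matrix.map_apply, smul_eq_mul, map_mul, ta1_map,
      ← aeval_algHom_apply] using h5
  exact ⟨G, B, a, b, hG, hB, hc, hab, ta1_mat h3 h1 (by rw [mul_assoc, h2]) h4⟩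

omit [IsFF F] in
/-- `δ` is `E` as a derivation over `ℂ`, `B` is `S'.A / S'.D`. -/
theorem chg_con (h : Chg S S' x y f w E) : ∃ (δ : Derivation ℂ F F) (B : Matrix (Fin 2) (Fin 2) F),
    Con S' f w δ B ∧ (PrimF S x y → PrimB δ B) ∧ (DetO S x y → DetF δ B) := by
  let δ : Derivation ℂ F F :=
    { toFun := E
      map_add' := map_add E
      map_smul' := fun c u => by
        rw [Algebra.smul_def, E.leibniz, h.ext, smul_zero, add_zero, RingHom.id_apply,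
          Algebra.smul_def, Algebra.algebraMap_self, RingHom.id_apply, Algebra.smul_def]
      map_one_eq_zero' := E.map_one_eq_zero
      leibniz' := E.leibniz }
  have h1 : aeval f S'.D ≠ 0 := fun e => h.m'.tr ⟨_, h.D', e⟩
  have h2 : aeval x S.D ≠ 0 := fun e => h.m.tr ⟨_, h.D, e⟩
  have h3 : aeval x S.D • (aeval f S'.D)⁻¹ • S'.A.map (aevalAeval f w) =
      δ x • S.A.map (aevalAeval x y) := by
    rw [smul_comm, h.eq, smul_smul, inv_mul_cancel_left₀ h1]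
    rfl
  refine ⟨δ, _, ⟨h.m', h.D', h.one, smul_inv_smul₀ h1 _⟩, fun hP W hW hc => ?_, ?_⟩
  · refine hP δ W (fun e => ?_) (fun Φ hΦ => ?_) hc
    · exact one_ne_zero (h.one.symm.trans (show δ f = 0 by rw [e]; rfl))
    · have h4 := W.smul_mem (hW Φ hΦ) (aeval x S.D)
      rwa [smul_sub, smul_sub, ← Matrix.smul_mul, ← Matrix.mul_smul, h3, Matrix.smul_mul,
        Matrix.mul_smul, ← smul_sub] at h4
  · rintro ⟨m, u, hm, hu, e⟩
    refine ⟨m, u, hm, hu, mul_left_cancel₀ h2 ?_⟩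
    have h4 := congrArg Matrix.trace h3
    rw [trace_smul, trace_smul (δ x), smul_eq_mul, smul_eq_mul] at h4
    rw [e δ]
    linear_combination (-(m : F) * u) * h4

/-- As `unr_fin`; `At.unique` and `ta2_ext` show that the branch of the puncture is new. -/
theorem punP_of (h : Chg S S' x y f w E) {Sg : Finset (Place ℂ F)}
    (hL : ∀ p, p ∉ Sg → ∀ φ, At φ p → S'.Loc (φ f) (φ w)) {c : ℂ}
    (h1 : FB.Fib Sg f c 1 (d - 1)) (h2 : Pun S x y Sg f c) : PunP S' d c := by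
  obtain ⟨q, hq, h1⟩ := h1
  obtain ⟨p, hp, ho, hE⟩ := h2
  choose φ a b using fun j => exists_at _ (h1 j).2
  obtain ⟨ψ, a', b'⟩ := exists_at _ ho
  have e : ∀ j, φ j f = xt c 1 := fun j => ta2_xt ((b j).trans (pow_one _).symm)
  have e' : ψ f = xt c 1 := ta2_xt (b'.trans (pow_one _).symm)
  refine ⟨ψ w, fun j => φ j w, fun i j k =>
    hq (At.unique (ta2_ext h.m' ((e i).trans (e j).symm) k ▸ a i) (a j)), fun ⟨j, k⟩ => ?_,
    fun j => e j ▸ hL _ (h1 j).1 _ (a j), by rw [← e', ← ta1_map, h.m'.root, map_zero],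
    e' ▸ chg_exp h ψ (hE ψ a')⟩
  exact (h1 j).1 (At.unique a' (ta2_ext h.m' ((e j).trans e'.symm) k ▸ a j) ▸ hp)

end Pool.Agent.GR.RC
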