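import Pool.Agent.Lib.MP_aa40d3_nt.RC.DefsB
import Pool.Agent.Lib.MP_aa40d3_nt.R2.Core4

/-! The case of the projective line. -/

open Polynomial Matrix

namespace Pool.Agent.GR.RC

open CV

variable {n N : ℕ}

theorem line_der (Φ Ψ : PM N) :
    (Φ * Ψ).map derivative = Φ.map derivative * Ψ + Φ * Ψ.map derivative := by
  ext i j : 1
  simp only [Matrix.map_apply, Matrix.mul_apply, Matrix.add_apply, derivative_sum, derivative_mul,
    Finset.sum_add_distrib]

/-- The centraliser of a stable set is a subsystem. -/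
theorem subEnd_cent {t : Fin n → ℂ} {A : Fin n → Mt N} {V : Set (PM N)}
    (hV : ∀ Φ ∈ V, dl t • Φ.map derivative - (pm t A * Φ - Φ * pm t A) ∈ V) :
    SubEnd t A (Subalgebra.centralizer ℂ[X] V) := by
  refine ⟨fun Ψ hΨ Φ hΦ => ?_, fun f Ψ hf hΨ Φ hΦ => smul_right_injective _ hf ?_⟩
  · have h1 : Φ * Ψ = Ψ * Φ := hΨ Φ hΦ
    have h2 : _ * Ψ = Ψ * _ := hΨ _ (hV Φ hΦ)
    have h3 := congrArg (fun Z : PM N => dl t • Z.map derivative) h1
    simp only [line_der, smul_add] at h3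
    have h4 : pm t A * (Φ * Ψ) = pm t A * (Ψ * Φ) := by rw [h1]
    have h5 : Φ * (Ψ * pm t A) = Ψ * (Φ * pm t A) := by
      rw [← Matrix.mul_assoc, h1, Matrix.mul_assoc]
    simp only [Matrix.mul_sub, Matrix.sub_mul, smul_mul_assoc, mul_smul_comm,
      Matrix.mul_assoc] at h2 ⊢
    linear_combination (norm := abel1) h3 - h2 - h4 + h5
  · have h1 : Φ * f • Ψ = f • Ψ * Φ := hΨ Φ hΦ
    rwa [smul_mul_assoc, mul_smul_comm] at h1

variable {t : Fin n → ℂ} {A : Fin n → Mt 2}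

theorem prim_of_primZ {W : Subalgebra ℂ[X] (PM 2)} (hW : Module.finrank ℂ[X] W = 1)
    (h : PrimZ t A W) : Prim t A := by
  have : Module.Free ℂ[X] W := inferInstanceAs (Module.Free ℂ[X] (Subalgebra.toSubmodule W))
  have h0 : W = ⊥ := Subalgebra.eq_bot_of_finrank_one hW
  subst h0
  intro V h1 h2 Φ hΦ
  have h3 : (V : Set (PM 2)) ⊆ Subalgebra.centralizer ℂ[X] (V : Set (PM 2)) :=
    fun Φ hΦ Ψ hΨ => h2 Ψ hΨ Φ hΦ
  have h4 := h _ (subEnd_cent (subEnd_cent (V := (V : Set (PM 2))) h1).1) bot_le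
    fun Φ hΦ Ψ hΨ => hΨ Φ fun Θ hΘ => hΦ Θ (h3 hΘ)
  obtain ⟨c, hc⟩ := Algebra.mem_bot.1 (h4 (x := Φ) fun Ψ hΨ => (hΨ Φ hΦ).symm)
  exact ⟨c, by rw [← hc, Algebra.algebraMap_eq_smul_one]⟩

theorem core_line {o : Fin n} (ht : Gen {o} t) (hre : Function.Injective fun i => (t i).re)
    (he : Exps 1 (A o)) (hpr : Prim t A) (hpc : PC t A) : AlgSol t A := by
  have hinj : Function.Injective t := fun i j h => hre (by simp only [h])
  obtain ⟨D, a', hD, hch⟩ := exps_rat2 hinj hpc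
  have hb' : ∀ i, ((2 * D : ℕ) : ℂ) * ((A i).trace / 2) = (a' i 0 + a' i 1 : ℤ) := fun i => by
    have := (two_coef ((hch i).trans (Fin.prod_univ_two _))).1
    rw [trace_smul, smul_eq_mul] at this
    push_cast
    linear_combination this
  have hD2 : 0 < 2 * D := by omega
  refine AlgSol.twist hD2 hb' (core4 o ht hre (fun i => ?_) (fun z hz => ?_) (hpr.twist _)
    (hpc.twist hD2 hb'))
  · rw [trace_sub, trace_smul, trace_one, Fintype.card_fin, smul_eq_mul]
    push_cast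
    ring
  · obtain ⟨mu, lam, h1, h2⟩ := he
    rw [Nat.sub_self, mul_zero, pow_zero, one_mul] at h2
    obtain ⟨h3, h4⟩ := two_coef h2
    generalize A o = B at hz h3 h4
    simp only [trace_fin_two, det_fin_two, Matrix.sub_apply, Matrix.smul_apply, one_apply_eq,
      one_apply_ne (show (0 : Fin 2) ≠ 1 by decide), one_apply_ne (show (1 : Fin 2) ≠ 0 by decide),
      smul_eq_mul] at hz h3 h4
    have h5 : (mu - lam - z) * (mu - lam - (-z : ℤ)) = 0 := by
      push_cast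
      linear_combination hz - (B 0 0 + B 1 1 + (mu + lam)) * h3 + 4 * h4
    rcases mul_eq_zero.1 h5 with h6 | h6
    · exact h1 _ (sub_eq_zero.1 h6)
    · exact h1 _ (sub_eq_zero.1 h6)

end Pool.Agent.GR.RC
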