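import Pool.Agent.Lib.MP_aa40d3_nt.FK.Main
import Pool.Agent.Lib.MP_aa40d3_nt.CP.AlgP
import Pool.Agent.Lib.MP_aa40d3_nt.RC.Core
import Pool.Agent.Lib.MP_aa40d3_nt.RC.Frm
import Pool.Agent.Lib.MP_aa40d3_nt.RC.Line
import Pool.Agent.Lib.MP_aa40d3_nt.RC.Fld

/-! Systems of rank two on a plane curve with one free puncture. -/

open Polynomial Matrix
open scoped Polynomial.Bivariate

namespace Pool.Agent.GR.RC

open Pool.Agent.GR.CV FB FK CP

theorem re_append {n k : ℕ} {t : Fin n → ℂ} {z : Fin k → ℂ} (h : Nat' t z)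
    (hre : Function.Injective fun i => (t i).re) (hneg : ∀ i, (t i).re < 0) :
    Function.Injective fun i => (Fin.append t z i).re := by
  intro i j
  refine Fin.addCases (fun a => ?_) (fun a => ?_) i <;>
    refine Fin.addCases (fun b => ?_) (fun b => ?_) j <;>
    simp only [Fin.append_left, Fin.append_right] <;> intro e
  · rw [hre e]
  · obtain ⟨m, hm⟩ := h.2 b
    have := hneg a
    rw [e, hm, Complex.natCast_re] at this
    exact absurd this (not_lt.2 (Nat.cast_nonneg m))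
  · obtain ⟨m, hm⟩ := h.2 a
    have := hneg b
    rw [← e, hm, Complex.natCast_re] at this
    exact absurd this (not_lt.2 (Nat.cast_nonneg m))
  · obtain ⟨m, hm⟩ := h.2 a
    obtain ⟨l, hl⟩ := h.2 b
    refine h.1 ?_
    rw [hm, hl, Complex.natCast_re, Complex.natCast_re] at e
    rw [Fin.append_right, Fin.append_right, hm, hl, Nat.cast_injective e]

theorem charpoly_conj {N : ℕ} {g A A' : Mt N} (hg : g.det ≠ 0) (h : A' * g = g * A) :
    A'.charpoly = A.charpoly := by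
  obtain ⟨u, rfl⟩ := (isUnit_iff_isUnit_det g).2 hg.isUnit
  rw [← Matrix.charpoly_units_conj u A, ← h, Matrix.mul_assoc, ← Matrix.coe_units_inv,
    Units.mul_inv, Matrix.mul_one]

theorem comm_of_rep {N d : ℕ} {G Mu Φ Θ : PM N} (hG : G.det ≠ 0) {p : Fin d → ℂ[X]}
    (h : G.det • (Φ * G) = G * ∑ k : Fin d, p k • Mu ^ (k : ℕ)) (hΘ : Θ * Mu = Mu * Θ) :
    G * Θ * G.adjugate * Φ = Φ * (G * Θ * G.adjugate) := by
  have h1 : Θ * ∑ k : Fin d, p k • Mu ^ (k : ℕ) = (∑ k : Fin d, p k • Mu ^ (k : ℕ)) * Θ :=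
    Commute.sum_right _ _ _ fun k _ => (Commute.pow_right hΘ _).smul_right _
  generalize ∑ k : Fin d, p k • Mu ^ (k : ℕ) = T at h h1
  have h2 : G.det • G.det • Φ = G * T * G.adjugate := by
    rw [← h, smul_mul_assoc, Matrix.mul_assoc, mul_adjugate, mul_smul_comm, Matrix.mul_one]
  refine smul_right_injective _ hG (smul_right_injective _ hG ?_)
  simp only
  rw [← mul_smul_comm, ← mul_smul_comm, h2, ← smul_mul_assoc, ← smul_mul_assoc, h2]
  simp only [Matrix.mul_assoc]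
  rw [← Matrix.mul_assoc G.adjugate, ← Matrix.mul_assoc G.adjugate, adjugate_mul, smul_mul_assoc,
    smul_mul_assoc, Matrix.one_mul, Matrix.one_mul, mul_smul_comm, mul_smul_comm,
    ← Matrix.mul_assoc Θ, h1, Matrix.mul_assoc, mul_smul_comm, mul_smul_comm]

theorem final14a {d n : ℕ} {R : Type} [CommRing R] [Algebra.FiniteType ℤ R] (ι : R →+* ℂ)
    (S : CV.Sys R 2) {t : Fin n → ℂ} {M : Finset (Fin n)} {o : Fin n} {F : Type} [Field F]
    [Algebra ℂ F] {x y : F} {δ₁ : Derivation ℂ F F} {B : Matrix (Fin 2) (Fin 2) F}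
    (hC : Con (S.map ι) x y δ₁ B) (hPr : PrimB δ₁ B) (hP : S.P.Monic) (hdeg : S.P.natDegree = d)
    (hd : d ≠ 0) (hre : Function.Injective fun i => (t i).re) (hneg : ∀ i, (t i).re < 0)
    (hgen : Gen {o} t) (hB : ∀ i ∈ M, 2 ≤ d ∧ (S.map ι).Bra d (t i))
    (hPu : ∀ i, i ∉ M → (S.map ι).Unr (xt (t i) 1) (d - 1))
    (hU : ∀ c, c ∉ Set.range t → (S.map ι).Unr (xt c 1) d) (hI : (S.map ι).Unr sL⁻¹ d)
    (ho : o ∉ M) (po : PunP (S.map ι) d (t o))
    (hc : d = 1 ∨ (2 * d ≤ M.card ∧ DetP (S.map ι) ∧ ∃ j ≠ o, j ∉ M ∧ PunP (S.map ι) d (t j)))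
    (hF : ∀ m : Ideal R, m.IsMaximal → (S.map (Ideal.Quotient.mk m)).Fund) : (S.map ι).Alg := by
  classical
  have hD := hC.D
  have hIrr := hC.m.irr
  have ht : Function.Injective t := fun i j h => hre (by simp only [h])
  have : NeZero (2 * d) := ⟨by omega⟩
  have : NeZero d := ⟨hd⟩
  have hinf : ∀ {p : ℂ[X]}, p ≠ 0 → ev sL⁻¹ p ≠ 0 := fun hp => (map_ne_zero_iff _ ev_inv_inj).2 hp
  obtain ⟨q, δ, hp, hδ⟩ : ∃ q δ, Prep S d q δ ∧ δ.map ι ≠ 0 := by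
    obtain ⟨y, hy, h⟩ := hI
    exact exists_prep ι hP hdeg hd hy fun j => (h j).1
  have hp' := hp.map ι
  have hD1 := mul_ne_zero hδ hD
  obtain ⟨V, y₀, hy, hy0, hV, hMu⟩ := push_unr' hp' hI
  have hK := katz ι (D := δ * S.D) (B := pB S d q δ) hδ (by rwa [Polynomial.map_mul])
    fun R' _ _ j m _ => hf_red hp hF j m
  rw [Polynomial.map_mul, pB_map hP] at hK
  obtain ⟨U, hFr, hτ, hE⟩ := exists_frames2 hd hp' hδ hK ht hB hPu hU
  obtain ⟨ρ, G₁, A₁, hρ, hG₁, g₁, hNF, hhalf, hch⟩ := exists_fuchs2 ht hD1 hFr hV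
  obtain ⟨k', z, A, G₂, hz, hG₂, g₂, hcyc, hold, -⟩ :=
    exists_cyc' ht (g₁.msol (hinf hD1) (hinf hρ) (hinf hG₁) hV) hNF
  have g := g₁.comp g₂ (dl_ne t)
  rw [mul_one] at g
  have hG : (G₂ * G₁).det ≠ 0 := by
    rw [det_mul]
    exact mul_ne_zero hG₂ hG₁
  have hst := WW_stab (sh := sh (r := 2) (d := d)) (g.msol (hinf hD1) (hinf hρ) (hinf hG) hV)
    (by rw [sdL_inv]; exact neg_ne_zero.2 (inv_ne_zero sL_ne))
  have hpow := pM_pow hp' (0 : Fin 2)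
  have hmem := WW_mem (ρ := ρ) (G := G₂ * G₁) hMu 1
  rw [pow_one] at hmem
  have hex : ∀ i, i ∉ M → PunP (S.map ι) d (t i) → Exps d (A (Fin.castAdd k' i)) := fun i hi h => by
    obtain ⟨Cm, c1, c2, a, b, c3, c4⟩ := hE i hi h
    obtain ⟨u, hu, hu'⟩ := hold i
    exact ⟨a, b, c3, (charpoly_conj hu hu').trans ((hch i hi Cm c1 c2).trans c4)⟩
  have hZ := primZ_of hC hPr hp' hd hδ g hρ hG (WW_mem (ρ := ρ) hMu)
    fun c Φ h0 => WW_sat ev_inv_inj h0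
  have hrk := WW_rank ev_inv_inj hρ hV.1 hG hMu hy hpow
  have hgen' := hz.gen hgen
  rw [Finset.map_singleton] at hgen'
  have hpc := pc_curve ι hp hδ hD hρ hG g hF
  have hnot : ∀ {i}, i ∉ M → Fin.castAdd k' i ∉ M.map (Fin.castAddEmb k') := fun h h' =>
    h ((Finset.mem_map' (Fin.castAddEmb k')).1 h')
  rcases eq_or_ne d 1 with rfl | hd1
  · exact push_alg hp' hd (g.algM hD1 hρ hG (algM_of_algSol
      (core_line hgen' (re_append hz hre hneg) (hex o ho po) (prim_of_primZ hrk hZ) hpc)))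
  obtain ⟨hM, hdet, j, hj, hj', pj⟩ := hc.resolve_left hd1
  have hd2 : 2 ≤ d := (Nat.two_le_iff d).2 ⟨hd, hd1⟩
  refine alg_of_on hp' hIrr hd g hD1 hρ hG ?_
    (core_curve (Bs := M.map (Fin.castAddEmb k')) hd2
      (fun e => hj (Fin.castAdd_injective _ _ e)) (by rwa [Finset.card_map]) (hnot ho) (hnot hj')
      hgen' (re_append hz hre hneg) hcyc
      ⟨WW_det hp'.1 hp'.2.1 hIrr hy0 ev_inv_inj hρ hV.1 hG hMu hy hpow, hst,
        WW_comm ev_inv_inj (g.msol (hinf hD1) (hinf hρ) (hinf hG) hV).1, hrk, fun i' hi' => ?_,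
        fun i' hi' => ?_, hZ⟩ (hex o ho po) (hex j hj' pj)
      (NP.FS.asi (NP.fs_of_zero (g.msol (hinf hD1) (hinf hρ) (hinf hG) hV) 0)) hpc) (Or.inr hdet)
  · exact fun Θ hΘ Φ hΦ => comm_of_rep hG (WW_rep ev_inv_inj hρ hV.1 hMu hy hpow hΦ) hΘ
  · obtain ⟨i, hi, rfl⟩ := Finset.mem_map.1 hi'
    obtain ⟨j, τ, h1, h2⟩ := hτ i hi
    obtain ⟨u, hu, hu'⟩ := hold i
    have e : Fin.append t z (Fin.castAddEmb k' i) = t i := Fin.append_left t z i
    have hx : ∀ {p : ℂ[X]}, p ≠ 0 → ev (xt (t i) 2) p ≠ 0 := fun hp => ev_xt_ne (by norm_num) hp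
    obtain ⟨h3, h4⟩ := (g.msol (hx hD1) (hx hρ) (hx hG) (hFr.2.2 i hi).1).col j
    refine ⟨?_, NP.FS.asp hz.1 (by
      rw [e]
      exact NP.fs_of_tb (g.tb hD1 hρ hG (hFr.2.2 i hi)))⟩
    refine ramAt hz.1 (half_conj hu hu' (hhalf i hi)) hst
      (fun Φ => WW_sat ev_inv_inj (X_sub_C_ne_zero _)) h3 (by rw [e]; exact h4) (fun Φ hΦ => ?_)
      ⟨_, hmem, ev (xt (t i) 2) (G₂ * G₁).det * τ, ?_, fun h5 => h1 ?_⟩
    · rw [e, ga_col]
      exact eigen_of_rep (hx hG) (WW_rep ev_inv_inj hρ hV.1 hMu hy hpow hΦ) h2 _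
    · rw [e, ga_col]
      exact eigen_Mu h2 _
    · rw [sg_mul, sg_ev, sg_xt] at h5
      exact mul_left_cancel₀ (hx hG) h5
  · revert hi'
    refine Fin.addCases (fun i hi' => Or.inr (FE.aep hz.1 ?_))
      (fun j _ => Or.inl (NP.FS.asp hz.1 ?_)) i'
    · rw [Fin.append_left]
      exact fe_pun hp' hd hδ hD1 (hPu i fun h => hi' (Finset.mem_map_of_mem _ h)) (hK _) g
        hρ hG fun Φ hΦ => ⟨_, WW_rep ev_inv_inj hρ hV.1 hMu hy hpow hΦ⟩
    · refine NP.fs_of_zero (g.tg hD1 hρ hG (hFr.1 _ ?_)) 0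
      rintro ⟨i, hi⟩
      have h1 := hz.1 ((Fin.append_left t z i).trans hi)
      have h2 := congrArg Fin.val h1
      simp only [Fin.val_castAdd, Fin.val_natAdd] at h2
      omega

end Pool.Agent.GR.RC
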