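import Pool.Agent.Lib.MP_aa40d3_nt.RC.Two
import Pool.Agent.Lib.MP_aa40d3_nt.FB.Big
import Pool.Agent.Lib.MP_aa40d3_nt.MG.Cong

/-! Rank two on two sheets: moves and frames. -/

open Matrix

namespace Pool.Agent.GR.RC

open GC FB

variable {s s' c g x y w : W2} {R R' l : List W2} {a : ℤˣ}

theorem Sw.inv (h : Sw g) : g⁻¹ = g := inv_eq_of_mul_eq_one_right h.2

theorem Sw.left (h : Sw g) (a : ℤˣ) : g.left a * g.left (-a) = 1 := by
  have := congrArg (fun w : W2 => w.left a) h.2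
  simp only [mul_l, h.1, neg_one_mul] at this
  exact this

theorem mov_or (a b : ℤˣ) : b = a ∨ b = -a := by
  rcases Int.units_eq_one_or a with rfl | rfl <;> rcases Int.units_eq_one_or b with rfl | rfl <;>
    simp

theorem mov_ne (a : ℤˣ) : -a ≠ a := by
  rcases Int.units_eq_one_or a with rfl | rfl <;> decide

theorem mov_scl {u v : GLr 2} (h : Scl v.val) : Scl (u * v * u⁻¹).val := by
  obtain ⟨t, ht⟩ := h
  exact ⟨t, by rw [Units.val_mul, Units.val_mul, ht, Matrix.mul_smul, Matrix.smul_mul, mul_one,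
    Units.mul_inv]⟩

theorem conj_r (γ x : W2) : (γ * x * γ⁻¹).right = x.right := by
  rw [mul_r, mul_r, inv_r, mul_comm γ.right, mul_assoc, Int.units_mul_self, mul_one]

theorem Sw.conj (h : Sw g) (γ : W2) : Sw (γ * g * γ⁻¹) :=
  ⟨(conj_r γ g).trans h.1, by
    rw [show γ * g * γ⁻¹ * (γ * g * γ⁻¹) = γ * (g * g) * γ⁻¹ by group, h.2, mul_one,
      mul_inv_cancel]⟩

theorem ev_mul (hx : x.right = 1) (y : W2) (a : ℤˣ) : (x * y).left a = x.left a * y.left a := by
  rw [mul_l, hx, one_mul]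

theorem od_mul (hx : x.right = -1) (y : W2) (a : ℤˣ) :
    (x * y).left a = x.left a * y.left (-a) := by
  rw [mul_l, hx, neg_one_mul]

theorem ev_inv (hx : x.right = 1) (a : ℤˣ) : x⁻¹.left a = (x.left a)⁻¹ := by
  rw [inv_l, hx, one_mul]

theorem ev_pow (hx : x.right = 1) (k : ℕ) (a : ℤˣ) :
    (x ^ k).right = 1 ∧ (x ^ k).left a = x.left a ^ k := by
  induction k with
  | zero => exact ⟨rfl, rfl⟩
  | succ k ih => exact ⟨by rw [pow_succ, mul_r, ih.1, hx, one_mul], by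
      rw [pow_succ, ev_mul ih.1, ih.2, pow_succ]⟩

theorem conj_l (hx : x.right = 1) (γ : W2) (a : ℤˣ) :
    (γ * x * γ⁻¹).left a = γ.left a * x.left (γ.right * a) * (γ.left a)⁻¹ := by
  rw [mul_l, mul_l, inv_l, mul_r, hx, mul_one, ← mul_assoc γ.right, Int.units_mul_self, one_mul]

theorem Pu.conj (h : Pu a x) (γ : W2) : Pu (γ.right * a) (γ * x * γ⁻¹) :=
  ⟨(conj_r γ x).trans h.1, by
    rw [conj_l h.1, mul_neg, ← mul_assoc γ.right, Int.units_mul_self, one_mul, h.2, mul_one,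
      mul_inv_cancel]⟩

theorem Ty.conj (h : Ty x) (γ : W2) : Ty (γ * x * γ⁻¹) :=
  h.imp (fun h => h.conj γ) fun ⟨_, h⟩ => ⟨_, h.conj γ⟩

theorem Gd.conj (h : Gd x) (γ : W2) : Gd (γ * x * γ⁻¹) := by
  obtain ⟨h1, b, h2⟩ := h
  refine ⟨(conj_r γ x).trans h1, γ.right * b, fun h3 => h2 ?_⟩
  rw [conj_l h1, ← mul_assoc γ.right, Int.units_mul_self, one_mul] at h3
  simpa only [inv_inv, ← mul_assoc, inv_mul_cancel, one_mul, inv_mul_cancel_right] using
    mov_scl (u := (γ.left (γ.right * b))⁻¹) h3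

theorem Ty.sw (h : Ty x) (hx : x.right ≠ 1) : Sw x :=
  h.resolve_right fun ⟨_, h⟩ => hx h.1

theorem Ty.pu (h : Ty x) (hx : x.right = 1) : ∃ a, Pu a x :=
  h.resolve_left fun h => absurd (h.1.symm.trans hx) (by decide)

theorem Gd.left (h : Gd x) (hx : Pu a x) : ¬ Scl (x.left a).val := by
  obtain ⟨-, b, h2⟩ := h
  rcases mov_or a b with rfl | rfl
  · exact h2
  · exact absurd ⟨1, by rw [hx.2, Units.val_one, one_smul]⟩ h2

theorem fin_l (hx : x.right = 1) (h : IsOfFinOrder x) (a : ℤˣ) : IsOfFinOrder (x.left a) := by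
  obtain ⟨n, hn, e⟩ := isOfFinOrder_iff_pow_eq_one.1 h
  exact isOfFinOrder_iff_pow_eq_one.2 ⟨n, hn, by rw [← (ev_pow hx n a).2, e]; rfl⟩

theorem fin_of_l (hx : x.right = 1) (h : ∀ a, IsOfFinOrder (x.left a)) : IsOfFinOrder x := by
  choose n hn e using fun a => isOfFinOrder_iff_pow_eq_one.1 (h a)
  refine isOfFinOrder_iff_pow_eq_one.2 ⟨n 1 * n (-1), Nat.mul_pos (hn _) (hn _),
    RegularWreathProduct.ext (funext fun b => ?_) (ev_pow hx _ 1).1⟩
  rw [(ev_pow hx _ b).2]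
  rcases Int.units_eq_one_or b with rfl | rfl
  · rw [pow_mul, e, one_pow]; rfl
  · rw [pow_mul', e, one_pow]; rfl

/-- For two exchanges one block is enough. -/
theorem fin_sw (hx : Sw x) (hy : Sw y) (h : IsOfFinOrder ((x * y).left a)) :
    IsOfFinOrder (x * y) := by
  refine fin_of_l (by rw [mul_r, hx.1, hy.1]; rfl) fun b => ?_
  rcases mov_or a b with rfl | rfl
  · exact h
  · rw [od_mul hx.1] at h ⊢
    rw [neg_neg, eq_inv_of_mul_eq_one_right (hx.left a), eq_inv_of_mul_eq_one_left (hy.left a)]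
    exact (isConj_of (x.left a)⁻¹ (by group)).isOfFinOrder h.inv

theorem odd_hur (h : Hur R R') : odd R' = odd R :=
  hur_countP (fun γ x => by rw [conj_r]) h

theorem hur_first {G : Type} [Group G] {x : G} {l : List G} (hx : x ∈ l) : ∃ R, Hur l (x :: R) := by
  obtain ⟨A, B, rfl⟩ := List.append_of_mem hx
  exact ⟨_, by simpa using (hur_oneL A x).app_right B⟩

theorem pair_sub {α : Type} {x y : α} {l : List α} (hx : x ∈ l) (hy : y ∈ l) (h : x ≠ y) :
    [x, y].Sublist l ∨ [y, x].Sublist l := by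
  induction l with
  | nil => simp at hx
  | cons z l ih =>
    rcases List.mem_cons.1 hx with rfl | hx'
    · exact .inl ((List.singleton_sublist.2 ((List.mem_cons.1 hy).resolve_left h.symm)).cons_cons _)
    · rcases List.mem_cons.1 hy with rfl | hy'
      · exact .inr ((List.singleton_sublist.2 hx').cons_cons _)
      · exact (ih hx' hy').imp (·.cons _) (·.cons _)

theorem mov_fst (s : W2) (R : List W2) : (mkl s R).map Prod.fst = s :: R := by
  simp [mkl, Function.comp_def]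

theorem mov_odd (hc : c.right = 1) : odd (c :: R) = odd R := by
  rw [odd, List.countP_cons_of_neg (by rw [hc]; decide), odd]

theorem mov_gd (h : Gd s) {k : List (W2 × Mk)} (h' : Hur (mkl s R) k) :
    ∀ m ∈ k, Mo m → Gd m.1 :=
  h'.all (P := fun m => Mo m → Gd m.1) (fun γ m h1 h2 => (h1 ((mo_conj γ m).1 h2)).conj γ.1)
    (List.forall_mem_cons.2 ⟨fun _ => h, fun m hm h1 => by
      obtain ⟨z, -, rfl⟩ := List.mem_map.1 hm
      exact absurd h1 mv_ne⟩)

theorem Ok.mark (h : Ok s R) (h' : Hur (mkl s R) (mkl s' R')) : Ok s' R' := by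
  classical
  have h1 : Hur (s :: R) (s' :: R') := by simpa only [mov_fst] using hur_fst h'
  have h2 : Gd s' := mov_gd h.gs h' (s', mv) List.mem_cons_self rfl
  have h3 := hur_countP (P := fun m : W2 × Mk => decide (¬ Mo m ∧ Gd m.1)) (fun γ m => by
    refine decide_eq_decide.2 (and_congr (mo_conj γ m).not ⟨fun k => ?_, fun k => k.conj γ.1⟩)
    have := k.conj γ.1⁻¹
    simpa only [Prod.fst_mul, Prod.fst_inv, inv_inv, ← mul_assoc, inv_mul_cancel, one_mul,
      inv_mul_cancel_right] using this) h'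
  have h4 := odd_hur h1
  rw [mov_odd h2.1, mov_odd h.gs.1] at h4
  refine ⟨⟨h1.all (fun γ x hx => (isConj_of γ rfl).isOfFinOrder hx) h.fin,
    h1.all (fun γ x hx => hx.conj γ) h.typ, h2, ?_, h4 ▸ h.cnt, h1.prod ▸ h.prod, h.pair.hur h',
    h1.gen ▸ h.prim⟩, fun x hx => gen_le.2 h.sl (h1.gen ▸ mem_gen hx)⟩
  obtain ⟨c, hc, k⟩ := h.gd
  have h5 : (c, (1 : Mk)) ∈ mkl s R :=
    List.mem_cons_of_mem _ (List.mem_map_of_mem (f := fun x => (x, 1)) hc)
  obtain ⟨m, hm, k'⟩ := List.countP_pos_iff.1 (lt_of_lt_of_eq (List.countP_pos_iff.2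
    ⟨(c, 1), h5, decide_eq_true (show ¬ Mo (c, 1) ∧ Gd (c, (1 : Mk)).1 from ⟨mv_ne, k⟩)⟩) h3.symm)
  obtain ⟨k1, k2⟩ := of_decide_eq_true k'
  rcases List.mem_cons.1 hm with rfl | hm
  · exact absurd rfl k1
  · obtain ⟨z, hz, rfl⟩ := List.mem_map.1 hm
    exact ⟨z, hz, k2⟩

theorem Ok.hur (h : Ok s R) (h' : Hur R R') : Ok s R' :=
  h.mark ((h'.map (MonoidHom.inl W2 Mk)).app_left [(s, mv)])

theorem Ok.first (h : Ok s (c :: R)) : IsOfFinOrder (s * c) :=
  h.pair [] (s, mv) (c, 1) _ (Hur.refl _) (.inl rfl)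

theorem Ok.side (h : Ok s R) : ∃ a, Pu a s ∧ ¬ Scl (s.left a).val := by
  obtain ⟨a, ha⟩ := (h.typ s List.mem_cons_self).pu h.gs.1
  exact ⟨a, ha, h.gs.left ha⟩

theorem Ok.det (h : Ok s R) (hw : w ∈ gen (s :: R)) (a : ℤˣ) : (w.left a).val.det = 1 :=
  gen_le.2 h.sl hw a

/-- The blocks of finite order have finitely many traces. -/
theorem Ok.expo (h : Ok s R) : ∃ T : Set ℂ, T.Finite ∧ ∀ w ∈ gen (s :: R), ∀ a,
    IsOfFinOrder (w.left a) → tU (w.left a) ∈ T := by
  let S : Set (GLr 2) := ⋃ x ∈ {x | x ∈ s :: R}, Set.range x.left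
  have : Finite S := (List.finite_toSet _).biUnion fun x _ => Set.finite_range _
  have h1 : ∀ w ∈ gen (s :: R), ∀ a, w.left a ∈ Subgroup.closure S := fun w hw => by
    induction hw using Subgroup.closure_induction with
    | mem x hx => exact fun a => Subgroup.subset_closure (Set.mem_biUnion hx ⟨a, rfl⟩)
    | one => exact fun a => one_mem _
    | mul x y _ _ hx hy => exact fun a => mul_l x y a ▸ mul_mem (hx _) (hy _)
    | inv x _ hx => exact fun a => inv_mem (hx _)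
  obtain ⟨E, hE, h2⟩ := exists_expo ((Units.coeHom (Mt 2)).comp (Subgroup.closure S).subtype)
  refine ⟨(fun l : ℂ => l + l⁻¹) '' {l | l ^ E = 1}, Set.Finite.image _
    ((Polynomial.nthRoots E (1 : ℂ)).finite_toSet.subset fun l hl =>
      (Polynomial.mem_nthRoots hE).2 hl), fun w hw a hf => ?_⟩
  have hd := h.det hw a
  obtain ⟨u, l, k1, k2, k3⟩ := two_nf hd hf
  have k4 := two_tr k3
  refine ⟨l, h2 ⟨_, h1 w hw a⟩ l (spectrum.mem_iff.2 fun k5 => ?_) k1, k4.symm⟩
  refine ((isUnit_iff_isUnit_det _).1 k5).ne_zero ?_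
  rw [tU_eq] at k4
  rw [det_fin_two] at hd ⊢
  simp [algebraMap_matrix_apply]
  linear_combination hd - l * k4 - mul_inv_cancel₀ k2

/-- A state in the orbit of the whole list, with the movable member brought to the front. -/
theorem Ok.front (h : Ok s R) {A B : List W2} (h' : Hur (s :: R) (A ++ x :: y :: B)) (hx : Sw x)
    (hy : Sw y) : ∃ s' γ R', Ok s' ((γ * x * γ⁻¹) :: (γ * y * γ⁻¹) :: R') := by
  classical
  obtain ⟨k, h1, e⟩ := Hur.lift (MonoidHom.fst W2 Mk) (l := mkl s R) (p := A ++ x :: y :: B)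
    ((mov_fst s R).symm ▸ h')
  obtain ⟨A', k', rfl, -, e1⟩ := List.map_eq_append_iff.1 e
  obtain ⟨x', k'', rfl, rfl, e2⟩ := List.map_eq_cons_iff.1 e1
  obtain ⟨y', B', rfl, rfl, -⟩ := List.map_eq_cons_iff.1 e2
  obtain ⟨D, h2⟩ : ∃ D, Hur (mkl s R) (x' :: y' :: D) :=
    ⟨_, h1.trans (by simpa using (hur_blockL A' [x', y']).app_right B')⟩
  have hc : ∀ k, Hur (mkl s R) k → k.countP (fun m => decide (Mo m)) = 1 := fun k hk => by
    rw [hur_countP (P := fun m => decide (Mo m)) (fun γ m => decide_eq_decide.2 (mo_conj γ m)) hk,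
      mkl, List.countP_cons_of_pos (p := fun m => decide (Mo m)) (a := (s, mv))
      (decide_eq_true rfl), List.countP_eq_zero.2 fun m hm => ?_]
    obtain ⟨z, -, rfl⟩ := List.mem_map.1 hm
    exact fun h3 => mv_ne (show Mo (z, 1) from of_decide_eq_true h3)
  have hn : ∀ m ∈ x' :: y' :: D, Sw m.1 → ¬ Mo m := fun m hm h3 h4 =>
    absurd (h3.1.symm.trans (mov_gd h.gs h2 m hm h4).1) (by decide)
  obtain ⟨m, hm, k1⟩ := List.countP_pos_iff.1 ((hc _ h2).symm ▸ one_pos)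
  have k2 : Mo m := of_decide_eq_true k1
  have k3 : m ∈ D := by
    rcases List.mem_cons.1 hm with rfl | hm'
    · exact absurd k2 (hn _ hm hx)
    · exact (List.mem_cons.1 hm').resolve_left fun e => hn _ hm (e ▸ hy) k2
  obtain ⟨D', h3⟩ := hur_first k3
  have h4 : Hur (mkl s R) (m :: (m⁻¹ * x' * m) :: (m⁻¹ * y' * m) :: D') :=
    (h2.trans (h3.app_left [x', y'])).trans (by simpa using (hur_oneL [x', y'] m).app_right D')
  have h5 := hc _ h4
  rw [List.countP_cons_of_pos (p := fun m => decide (Mo m)) k1, add_eq_right,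
    List.countP_eq_zero] at h5
  have h6 : ∀ t : W2 × Mk, ¬ decide (Mo t) = true → (t.1, (1 : Mk)) = t := fun t ht =>
    Prod.ext rfl ((show ∀ u : Mk, u ≠ mv → 1 = u by decide) _ fun e => ht (decide_eq_true e))
  refine ⟨m.1, m.1⁻¹, D'.map Prod.fst, h.mark ?_⟩
  have h7 : mkl m.1 (((m⁻¹ * x' * m) :: (m⁻¹ * y' * m) :: D').map Prod.fst) =
      m :: (m⁻¹ * x' * m) :: (m⁻¹ * y' * m) :: D' := by
    rw [mkl, List.map_map, show (m.1, mv) = m from Prod.ext rfl k2.symm]
    exact congrArg _ ((List.map_congr_left fun t ht => h6 t (h5 t ht)).trans (List.map_id _))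
  rw [inv_inv]
  exact h7.symm ▸ h4

/-- The frame given by `g`. -/
def frm (a : ℤˣ) (g : W2) (b : ℤˣ) : GLr 2 := if b = a then 1 else g.left b

/-- The elements whose blocks lie in `B`, in the frame given by `g`. -/
def Fr (a : ℤˣ) (g : W2) (B : Subgroup (GLr 2)) : Subgroup W2 where
  carrier := {w | ∀ b, (frm a g b)⁻¹ * w.left b * frm a g (w.right * b) ∈ B}
  one_mem' := fun b => by simp
  mul_mem' := fun {x y} hx hy b => by
    have := B.mul_mem (hx b) (hy (x.right * b))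
    rw [mul_l, mul_r, mul_comm x.right y.right, mul_assoc y.right]
    simpa only [mul_assoc, mul_inv_cancel_left] using this
  inv_mem' := fun {x} hx b => by
    have := B.inv_mem (hx (x.right * b))
    rw [← mul_assoc x.right, Int.units_mul_self, one_mul] at this
    rw [inv_l, inv_r]
    simpa only [_root_.mul_inv_rev, inv_inv, mul_assoc] using this

variable {B : Subgroup (GLr 2)}

theorem mov_fr {P : ℤˣ → Prop} (a : ℤˣ) : (∀ b, P b) ↔ P a ∧ P (-a) :=
  ⟨fun h => ⟨h _, h _⟩, fun h b => by rcases mov_or a b with rfl | rfl; exacts [h.1, h.2]⟩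

theorem fr_even (hg : Sw g) (hw : w.right = 1) :
    w ∈ Fr a g B ↔ w.left a ∈ B ∧ (g * w * g).left a ∈ B := by
  refine (mov_fr a).trans ?_
  simp only [hw, one_mul, frm, if_true, if_neg (mov_ne a), inv_one, mul_one]
  rw [mul_assoc g, od_mul hg.1, ev_mul hw, eq_inv_of_mul_eq_one_left (hg.left a), mul_assoc]

theorem fr_odd (hg : Sw g) (hw : Sw w) : w ∈ Fr a g B ↔ (g * w).left a ∈ B := by
  refine (mov_fr a).trans ?_
  simp only [hw.1, neg_one_mul, neg_neg, frm, if_true, if_neg (mov_ne a), inv_one, mul_one, one_mul]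
  rw [od_mul hg.1, eq_inv_of_mul_eq_one_left (hg.left a), eq_inv_of_mul_eq_one_left (hw.left a)]
  exact and_iff_right_of_imp fun h => by simpa using B.inv_mem h

theorem fr_self (hg : Sw g) : g ∈ Fr a g B :=
  (fr_odd hg hg).2 (by rw [hg.2]; exact B.one_mem)

theorem fr_sc (hB : ∀ u : GLr 2, Scl u.val → u ∈ B) (hw : w ∈ Sc) : w ∈ Fr a g B := fun b => hB _ (by
  rw [hw.1, one_mul]
  simpa only [inv_inv] using mov_scl (u := (frm a g b)⁻¹) (hw.2 b))

theorem fr_finite [Finite B] : Finite (Fr a g B) :=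
  Finite.of_injective (fun w : Fr a g B => ((w.1.right, fun b => ⟨_, w.2 b⟩) : ℤˣ × (ℤˣ → B)))
    fun w w' e => by
      have e1 : w.1.right = w'.1.right := congrArg Prod.fst e
      refine Subtype.ext (RegularWreathProduct.ext (funext fun b => ?_) e1)
      have e2 := congrArg Subtype.val (congrFun (congrArg Prod.snd e) b)
      simp only [e1] at e2
      exact mul_left_cancel (mul_right_cancel e2)

theorem mov_side (ht : ∀ x ∈ l, Ty x) (hc : c ∈ l) (h1 : c.right = 1) (hg : 1 ≤ odd l) (a : ℤˣ) :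
    ∃ γ l', Hur l ((γ * c * γ⁻¹) :: l') ∧ Pu a (γ * c * γ⁻¹) := by
  obtain ⟨b, hb⟩ := (ht c hc).pu h1
  obtain ⟨l₁, h2⟩ := hur_first hc
  rcases mov_or b a with rfl | rfl
  · exact ⟨1, l₁, by simpa using h2, by simpa using hb⟩
  · rw [← odd_hur h2, mov_odd h1] at hg
    obtain ⟨g, k1, k2⟩ := List.countP_pos_iff.1 hg
    obtain ⟨l₂, h3⟩ := hur_first k1
    have h4 := Hur.left (A := []) (h2.trans (h3.app_left [c]))
    obtain ⟨l₃, h5⟩ := hur_first (l := g :: (g⁻¹ * c * g) :: l₂) (x := g⁻¹ * c * g) (by simp)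
    refine ⟨g⁻¹, l₃, by simpa using h4.trans h5, ?_⟩
    have h6 := hb.conj g⁻¹
    rwa [inv_r, of_decide_eq_true k2, neg_one_mul] at h6

/-- A member that is not scalar can be brought to either sheet. -/
theorem exists_side (ht : ∀ x ∈ l, Ty x) (hc : ∃ c ∈ l, Gd c) (hg : ∃ g ∈ l, Sw g) (a : ℤˣ) :
    ∃ c l', Hur l (c :: l') ∧ Gd c ∧ Pu a c := by
  obtain ⟨c, h1, h2⟩ := hc
  obtain ⟨g, h3, h4⟩ := hg
  obtain ⟨γ, l', h5, h6⟩ :=
    mov_side ht h1 h2.1 (List.countP_pos_iff.2 ⟨g, h3, decide_eq_true h4.1⟩) a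
  exact ⟨_, l', h5, h2.conj γ, h6⟩

/-- All punctures on the sheet `a`, then the exchanges. -/
theorem exists_normal (ht : ∀ x ∈ l, Ty x) (hg : 1 ≤ odd l) (a : ℤˣ) :
    ∃ C O, Hur l (C ++ O) ∧ (∀ c ∈ C, Pu a c) ∧ (∀ g ∈ O, Sw g) ∧ O.length = odd l := by
  induction hn : l.length generalizing l with
  | zero => exact absurd hg (by rw [List.length_eq_zero_iff.1 hn]; decide)
  | succ n ih =>
    by_cases h : ∃ c ∈ l, c.right = 1
    · obtain ⟨c, h1, h2⟩ := h
      obtain ⟨γ, l', h3, h4⟩ := mov_side ht h1 h2 hg a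
      have h5 := odd_hur h3
      rw [mov_odd h4.1] at h5
      obtain ⟨C, O, k1, k2, k3, k4⟩ := ih (l := l') (fun x hx => h3.all (fun γ x hx => hx.conj γ) ht
        x (List.mem_cons_of_mem _ hx)) (h5 ▸ hg) (by simpa [hn] using h3.length)
      exact ⟨_ :: C, O, h3.trans (k1.app_left [_]), List.forall_mem_cons.2 ⟨h4, k2⟩, k3,
        k4.trans h5⟩
    · push Not at h
      refine ⟨[], l, Hur.refl _, by simp, fun g hg => (ht g hg).sw (h g hg), ?_⟩
      exact (List.countP_eq_length.2 fun g hg => decide_eq_true ((ht g hg).sw (h g hg)).1).symm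

theorem Ok.normal (h : Ok s R) : ∃ a C O, Hur R (C ++ O) ∧ (∀ c ∈ s :: C, Pu a c) ∧
    (∀ g ∈ O, Sw g) ∧ 4 ≤ O.length := by
  obtain ⟨a, h1, -⟩ := h.side
  have := h.cnt
  obtain ⟨C, O, k1, k2, k3, k4⟩ :=
    exists_normal (fun x hx => h.typ x (List.mem_cons_of_mem _ hx)) (by omega) a
  exact ⟨a, C, O, k1, List.forall_mem_cons.2 ⟨h1, k2⟩, k3, by omega⟩

end Pool.Agent.GR.RC
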