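import Pool.Agent.Lib.MP_aa40d3_nt.GC.Hur

/-! The first members of an orbit generate a normal subgroup. -/

namespace Pool.Agent.GR.RC

open Subgroup GC

variable {G : Type} [Group G]

/-- The first member goes once around another member. -/
theorem nrm_twist (c : G) {Y : List G} {u : G} (hu : u ∈ Y ∨ u⁻¹ ∈ Y) :
    ∃ c' Y', Hur (c :: Y) (c' :: Y') ∧ (∃ r ∈ zpowers c, c' = r * (u * c * u⁻¹) * r⁻¹) ∧
      ∀ z ∈ Y, ∃ t ∈ zpowers c', ∃ r ∈ zpowers c, t * r * z * (t * r)⁻¹ ∈ Y' := by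
  have key : ∀ (A D : List G) (y c' y' : G), Hur [c, y] [c', y'] →
      (∃ t ∈ zpowers c', ∃ r ∈ zpowers c, t * r * y * (t * r)⁻¹ = y') →
      ∃ Y', Hur (c :: (A ++ y :: D)) (c' :: Y') ∧
        ∀ z ∈ A ++ y :: D, ∃ t ∈ zpowers c', ∃ r ∈ zpowers c, t * r * z * (t * r)⁻¹ ∈ Y' := by
    intro A D y c' y' h ⟨t, ht, r, hr, e⟩
    have h1 := (hur_oneR c A).app_right (y :: D)
    have h2 := h.ctx (A.map fun x => c * x * c⁻¹) D
    have h3 := (hur_oneL (A.map fun x => c * x * c⁻¹) c').app_right (y' :: D)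
    refine ⟨((A.map fun x => c * x * c⁻¹).map fun x => c'⁻¹ * x * c') ++ y' :: D,
      (Hur.trans (by simpa using h1) (Hur.trans h2 (by simpa using h3))), fun z hz => ?_⟩
    rcases List.mem_append.1 hz with hz | hz
    · refine ⟨c'⁻¹, inv_mem (mem_zpowers _), c, mem_zpowers _, List.mem_append_left _ ?_⟩
      exact List.mem_map.2 ⟨_, List.mem_map.2 ⟨z, hz, rfl⟩, by group⟩
    · rcases List.mem_cons.1 hz with rfl | hz
      · exact ⟨t, ht, r, hr, e ▸ List.mem_append_right _ List.mem_cons_self⟩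
      · exact ⟨1, one_mem _, 1, one_mem _, by simp [hz]⟩
  rcases hu with hu | hu
  · obtain ⟨A, D, rfl⟩ := List.append_of_mem hu
    obtain ⟨Y', h1, h2⟩ := key A D u _ _
      (Hur.right (A := []) (Hur.right (A := []) (Hur.refl [c, u])))
      ⟨1, one_mem _, c, mem_zpowers _, by group⟩
    exact ⟨_, Y', h1, ⟨c, mem_zpowers _, by group⟩, h2⟩
  · obtain ⟨A, D, rfl⟩ := List.append_of_mem hu
    obtain ⟨Y', h1, h2⟩ := key A D u⁻¹ _ _
      (Hur.left (A := []) (Hur.left (A := []) (Hur.refl [c, u⁻¹])))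
      ⟨_, inv_mem (mem_zpowers _), 1, one_mem _, by group⟩
    exact ⟨_, Y', h1, ⟨1, one_mem _, by group⟩, h2⟩

/-- The group generated by the conjugates of `c` by words of length less than `k`. -/
def nrmN (c : G) (Y : List G) (k : ℕ) : Subgroup G :=
  closure {g | ∃ w : List G, (∀ a ∈ w, a ∈ Y ∨ a⁻¹ ∈ Y) ∧ w.length < k ∧ g = w.prod * c * w.prod⁻¹}

variable {c : G} {Y : List G}

theorem nrm_mono {k k' : ℕ} (h : k ≤ k') : nrmN c Y k ≤ nrmN c Y k' :=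
  closure_mono fun _ ⟨w, h1, h2, h3⟩ => ⟨w, h1, h2.trans_le h, h3⟩

theorem nrm_conj {k : ℕ} {u n : G} (hu : u ∈ Y ∨ u⁻¹ ∈ Y) (hn : n ∈ nrmN c Y k) :
    u * n * u⁻¹ ∈ nrmN c Y (k + 1) := by
  induction hn using closure_induction with
  | mem _ h =>
    obtain ⟨w, h1, h2, rfl⟩ := h
    refine subset_closure ⟨u :: w, fun a ha => ?_, by simpa using h2, by simp [mul_assoc]⟩
    rcases List.mem_cons.1 ha with rfl | ha
    exacts [hu, h1 a ha]
  | one => simp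
  | mul a b _ _ ha hb => simpa [mul_assoc] using mul_mem ha hb
  | inv a _ ha => simpa [mul_assoc] using inv_mem ha

theorem nrm_inv (w : List G) (hw : ∀ a ∈ w, a ∈ Y ∨ a⁻¹ ∈ Y) :
    ∃ c' Y', Hur (c :: Y) (c' :: Y') ∧
      (∃ n ∈ nrmN c Y w.length, c' = n * (w.prod * c * w.prod⁻¹) * n⁻¹) ∧
      ∀ y ∈ Y, ∃ t ∈ zpowers c', ∃ b ∈ nrmN c Y w.length, t * b * y * (t * b)⁻¹ ∈ Y' := by
  induction w with
  | nil => exact ⟨c, Y, Hur.refl _, ⟨1, one_mem _, by simp⟩,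
      fun y hy => ⟨1, one_mem _, 1, one_mem _, by simpa using hy⟩⟩
  | cons u w ih =>
    obtain ⟨c', Y', h1, ⟨n, hn, e⟩, h2⟩ := ih fun a ha => hw a (List.mem_cons_of_mem _ ha)
    have hu := hw u List.mem_cons_self
    have hc : zpowers c' ≤ nrmN c Y (w.length + 1) := zpowers_le_of_mem (e ▸ mul_mem
      (mul_mem (nrm_mono (Nat.le_succ _) hn) (subset_closure
        ⟨w, fun a ha => hw a (List.mem_cons_of_mem _ ha), Nat.lt_succ_self _, rfl⟩))
      (inv_mem (nrm_mono (Nat.le_succ _) hn)))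
    obtain ⟨t, ht, b, hb, h3⟩ : ∃ t ∈ zpowers c', ∃ b ∈ nrmN c Y w.length,
        t * b * u * (t * b)⁻¹ ∈ Y' ∨ (t * b * u * (t * b)⁻¹)⁻¹ ∈ Y' := by
      rcases hu with hu | hu
      · obtain ⟨t, ht, b, hb, h⟩ := h2 u hu
        exact ⟨t, ht, b, hb, Or.inl h⟩
      · obtain ⟨t, ht, b, hb, h⟩ := h2 _ hu
        exact ⟨t, ht, b, hb, Or.inr (by simpa [mul_assoc] using h)⟩
    obtain ⟨c'', Y'', h4, ⟨r, hr, e'⟩, h5⟩ := nrm_twist c' h3
    have hb' := nrm_mono (Nat.le_succ _) hb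
    have hco : t⁻¹ * c' * t = c' := by
      obtain ⟨j, rfl⟩ := mem_zpowers_iff.1 ht
      group
    refine ⟨c'', Y'', h1.trans h4, ⟨r * t * b * (u * (b⁻¹ * n) * u⁻¹), mul_mem (mul_mem
      (mul_mem (hc hr) (hc ht)) hb') (nrm_conj hu (mul_mem (inv_mem hb) hn)), ?_⟩, fun y hy => ?_⟩
    · rw [e', List.prod_cons]
      calc _ = r * t * b * u * b⁻¹ * (t⁻¹ * c' * t) * (r * t * b * u * b⁻¹)⁻¹ := by group
        _ = _ := by rw [hco, e]; group
    · obtain ⟨t₁, ht₁, b₁, hb₁, h6⟩ := h2 y hy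
      obtain ⟨t₂, ht₂, r₂, hr₂, h7⟩ := h5 _ h6
      refine ⟨t₂, ht₂, r₂ * t₁ * b₁, mul_mem (mul_mem (hc hr₂) (hc ht₁))
        (nrm_mono (Nat.le_succ _) hb₁), ?_⟩
      rwa [show t₂ * (r₂ * t₁ * b₁) * y * (t₂ * (r₂ * t₁ * b₁))⁻¹ =
        t₂ * r₂ * (t₁ * b₁ * y * (t₁ * b₁)⁻¹) * (t₂ * r₂)⁻¹ by group]

/-- A subgroup that contains the conjugates of `c` which are first members of the orbit of
`c :: Y` contains all conjugates of `c` by the group of the list. -/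
theorem conj_mem_of_first (B : Subgroup G)
    (h : ∀ c' Y', Hur (c :: Y) (c' :: Y') → IsConj c c' → c' ∈ B) :
    ∀ g ∈ gen (c :: Y), g * c * g⁻¹ ∈ B := by
  have h1 : ∀ k, nrmN c Y k ≤ B := fun k => by
    induction k with
    | zero => exact (closure_le _).2 fun _ ⟨_, _, h, _⟩ => absurd h (Nat.not_lt_zero _)
    | succ k ih =>
      refine (closure_le _).2 ?_
      rintro _ ⟨w, hw, hk, rfl⟩
      obtain ⟨c', Y', h2, ⟨n, hn, e⟩, -⟩ := nrm_inv (c := c) w hw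
      have h3 := ih (nrm_mono (Nat.le_of_lt_succ hk) hn)
      have h4 := h c' Y' h2 (isConj_iff.2 ⟨n * w.prod, by rw [e]; group⟩)
      have h5 := mul_mem (mul_mem (inv_mem h3) h4) h3
      rwa [e, show n⁻¹ * (n * (w.prod * c * w.prod⁻¹) * n⁻¹) * n = w.prod * c * w.prod⁻¹ by group]
        at h5
  have hc : c ∈ nrmN c Y 1 := subset_closure ⟨[], by simp, by simp, by simp⟩
  have h2 : ∀ g ∈ gen (c :: Y), ∀ k, ∀ m ∈ nrmN c Y k, ∃ k', g * m * g⁻¹ ∈ nrmN c Y k' := by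
    intro g hg
    have h3 : ∀ u ∈ nrmN c Y 1, ∀ k, ∀ m ∈ nrmN c Y k, ∃ k', u * m * u⁻¹ ∈ nrmN c Y k' :=
      fun u hu k m hm => ⟨k + 1, mul_mem (mul_mem (nrm_mono (by omega) hu)
        (nrm_mono (by omega) hm)) (inv_mem (nrm_mono (by omega) hu))⟩
    induction hg using closure_induction'' with
    | mem x hx =>
      rcases List.mem_cons.1 hx with rfl | hx
      · exact h3 _ hc
      · exact fun k m hm => ⟨_, nrm_conj (Or.inl hx) hm⟩
    | inv_mem x hx =>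
      rcases List.mem_cons.1 hx with rfl | hx
      · exact h3 _ (inv_mem hc)
      · exact fun k m hm => ⟨_, nrm_conj (Or.inr (by simpa using hx)) hm⟩
    | one => exact fun k m hm => ⟨k, by simpa using hm⟩
    | mul a b _ _ ha hb =>
      intro k m hm
      obtain ⟨k₁, h4⟩ := hb k m hm
      obtain ⟨k₂, h5⟩ := ha k₁ _ h4
      exact ⟨k₂, by simpa [mul_assoc] using h5⟩
  intro g hg
  obtain ⟨k, h3⟩ := h2 g hg 1 c hc
  exact h1 k h3

end Pool.Agent.GR.RC
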