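import Pool.Agent.Lib.MP_aa40d3_nt.RC.Mov
import Pool.Agent.Lib.MP_aa40d3_nt.RC.DZ
import Pool.Agent.Lib.MP_aa40d3_nt.RC.Nor

/-! The product of two neighbouring exchanges has finite order. -/

open Matrix

namespace Pool.Agent.GR.RC

open GC FB

variable {s c g t w x y z : W2} {R L : List W2} {a : ℤˣ}

theorem on_ev (hx : Sw x) (hy : Sw y) : (x * y).right = 1 := by
  rw [mul_r, hx.1, hy.1]; rfl

theorem on_cj (hx : Sw x) (w : W2) : x * w * x = x * w * x⁻¹ := by rw [hx.inv]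

theorem on_cjr (hx : Sw x) (w : W2) : (x * w * x).right = w.right := by rw [on_cj hx, conj_r]

theorem on_inv (hx : w.right = 1) : w⁻¹.right = 1 := by rw [inv_r, hx]

theorem on_mul (hw : w.right = 1) (ht : t.right = 1) : (w * t).right = 1 := by
  rw [mul_r, hw, ht, one_mul]

theorem on_tw (hx : Sw x) (hy : Sw y) (k : ℕ) : x * (x * y) ^ k = ((x * y) ^ k)⁻¹ * x := by
  have h : SemiconjBy x (x * y) (x * y)⁻¹ := by
    rw [SemiconjBy, ← mul_assoc, hx.2, one_mul, _root_.mul_inv_rev, inv_mul_cancel_right, hy.inv]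
  rw [← inv_pow]
  exact (h.pow_right k).eq

theorem on_sw (hx : Sw x) (hy : Sw y) (k : ℕ) : Sw (x * (x * y) ^ k) :=
  ⟨by rw [mul_r, (ev_pow (on_ev hx hy) k 1).1, hx.1, mul_one], by
    nth_rewrite 2 [on_tw hx hy]
    rw [mul_assoc, mul_inv_cancel_left, hx.2]⟩

theorem on_tw' (hx : Sw x) (hy : Sw y) (k : ℕ) :
    x * (x * y) ^ (k + 1) = ((x * y) ^ k)⁻¹ * y := by
  rw [pow_succ, ← mul_assoc, on_tw hx hy, mul_assoc, ← mul_assoc x, hx.2, one_mul]

theorem on_step (hx : Sw x) (hy : Sw y) (k : ℕ) :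
    (x * (x * y) ^ (k + 1))⁻¹ * (x * (x * y) ^ k) * (x * (x * y) ^ (k + 1)) =
      x * (x * y) ^ (k + 1 + 1) := by
  rw [pow_succ _ (k + 1), ← mul_assoc x, (on_sw hx hy (k + 1)).inv, mul_assoc (x * _), pow_succ,
    ← mul_assoc x _ (x * y), ← mul_assoc (x * (x * y) ^ k) (x * (x * y) ^ k), (on_sw hx hy k).2,
    one_mul]

/-- Half twists. -/
theorem Ok.half (h : Ok s (x :: y :: R)) (hx : Sw x) (hy : Sw y) (k : ℕ) :
    Ok s ((x * (x * y) ^ k) :: (x * (x * y) ^ (k + 1)) :: R) := by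
  induction k with
  | zero => rwa [pow_zero, mul_one, zero_add, pow_one, ← mul_assoc, hx.2, one_mul]
  | succ k ih =>
    rw [← on_step hx hy k]
    exact ih.hur (Hur.left (A := []) (Hur.refl _))

theorem on_scl (h : Ok s R) (hw : w ∈ gen (s :: R)) (hZ : ¬ IsOfFinOrder (w.left a)) :
    ¬ Scl (w.left a).val := fun h' => hZ (fin_scl (h.det hw a) h')

theorem on_m1 : x ∈ gen (s :: x :: R) := mem_gen (by simp)

theorem on_m2 : y ∈ gen (s :: x :: y :: R) := mem_gen (by simp)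

theorem on_m3 : z ∈ gen (s :: x :: y :: z :: R) := mem_gen (by simp)

/-- `Ok.half`, then `c` passes one exchange unchanged and is conjugated by the other. -/
theorem Ok.arc (h : Ok s (x :: y :: c :: R)) (hx : Sw x) (hy : Sw y) (hc : c.right = 1)
    (hs : Pu a s) (hZ : ¬ IsOfFinOrder ((x * y).left a)) :
    Commute (s.left a) ((x * y).left a) ∨ Commute ((x * c * x).left a) ((x * y).left a) ∨
      ∃ v, v ≠ 0 ∧ Eig (s.left a) v ∧ Eig ((x * y).left a) v ∧ Eig ((x * c * x).left a) v := by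
  obtain ⟨T, hT, h1⟩ := h.expo
  refine lemD (h.det (mul_mem on_m1 on_m2) a) hZ hT fun k => ?_
  have h2 := ((h.half hx hy k).hur
    (Hur.right (A := []) (Hur.left (A := [_]) (Hur.refl _)))).first
  obtain ⟨e1, e2⟩ := ev_pow (on_ev hx hy) k a
  have e3 : (x * c * x).right = 1 := (on_cjr hx c).trans hc
  rw [(on_sw hx hy k).inv] at h2
  nth_rewrite 1 [on_tw hx hy] at h2
  rw [show ((x * y) ^ k)⁻¹ * x * c * (x * (x * y) ^ k) =
    ((x * y) ^ k)⁻¹ * (x * c * x) * (x * y) ^ k by group] at h2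
  have hm : (x * y) ^ k ∈ gen (s :: x :: y :: c :: R) := pow_mem (mul_mem on_m1 on_m2) k
  have h3 := h1 _ (mul_mem (mem_gen List.mem_cons_self) (mul_mem (mul_mem (inv_mem hm)
    (mul_mem (mul_mem on_m1 on_m3) on_m1)) hm)) a
    (fin_l (on_mul hs.1 (on_mul (on_mul (on_inv e1) e3) e1)) h2 a)
  rwa [ev_mul hs.1, ev_mul (on_mul (on_inv e1) e3), ev_mul (on_inv e1), ev_inv e1, e2] at h3

theorem on_wd {v u : Fin 2 → ℂ} (h : wd v u = 0) : wd u v = 0 := by
  rw [wd] at h ⊢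
  linear_combination -h

theorem on_stV {u : GLr 2} (h : Scl u.val) (v : Fin 2 → ℂ) : u ∈ stV v := by
  obtain ⟨e, he⟩ := h
  exact ⟨e, by rw [he, smul_mulVec, one_mulVec]⟩

theorem on_eig {G C : GLr 2} {v : Fin 2 → ℂ} (h : Eig (G * C * G⁻¹) v) :
    Eig C ((G⁻¹).val *ᵥ v) := by
  obtain ⟨e, he⟩ := h
  refine ⟨e, ?_⟩
  rw [← mulVec_smul, ← he, mulVec_mulVec, mulVec_mulVec, ← Units.val_mul, ← Units.val_mul]
  congr 2
  group

theorem on_par {G : GLr 2} {v : Fin 2 → ℂ} (hv : v ≠ 0) (h : wd v ((G⁻¹).val *ᵥ v) = 0) :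
    Eig G v := inv_mem_iff.1 (show G⁻¹ ∈ stV v from par hv h)

/-- The second eigenline cannot be reached. -/
theorem on_two {C G P : GLr 2} {v : Fin 2 → ℂ} (hC : ¬ Scl C.val) (hv : v ≠ 0) (h1 : Eig C v)
    (h2 : Eig (G * C * G⁻¹) v) (h3 : Eig (G * P * C * (G * P)⁻¹) v) (hP : Eig P v)
    (hn : ¬ Commute C P) : Eig G v := by
  by_contra hG
  have h4 : wd v ((G⁻¹).val *ᵥ v) ≠ 0 := fun h => hG (on_par hv h)
  rcases eig_three hC h4 h1 (on_eig h2) (on_eig h3) with h | h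
  · exact hG (((stV v).mul_mem_cancel_right hP).1 (on_par hv h))
  · rw [_root_.mul_inv_rev, Units.val_mul, ← mulVec_mulVec] at h
    refine hn (comm_of_eig2 h4 h1 (on_eig h2) hP (on_par (fun h0 => h4 ?_) h))
    rw [h0]
    simp [wd]

theorem on_cm (hx : Sw x) (hw : w.right = 1) (t : W2) (a : ℤˣ) :
    (x * (w * t) * x).left a = (x * w * x).left a * (x * t * x).left a := by
  rw [show x * (w * t) * x = x * w * x * (x * t * x) by rw [on_cj hx w]; group,
    ev_mul ((on_cjr hx w).trans hw)]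

theorem on_ci (hx : Sw x) (hw : w.right = 1) (a : ℤˣ) :
    (x * w⁻¹ * x).left a = ((x * w * x).left a)⁻¹ := by
  rw [show x * w⁻¹ * x = (x * w * x)⁻¹ by rw [on_cj hx w, on_cj hx w⁻¹]; group,
    ev_inv ((on_cjr hx w).trans hw)]

/-- The even elements whose block on the other sheet lies in `B`. -/
def onB (a : ℤˣ) (hx : Sw x) (B : Subgroup (GLr 2)) : Subgroup W2 where
  carrier := {w | w.right = 1 ∧ (x * w * x).left a ∈ B}
  one_mem' := ⟨rfl, by rw [mul_one, hx.2]; exact B.one_mem⟩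
  mul_mem' := fun hw ht => ⟨on_mul hw.1 ht.1, on_cm hx hw.1 _ a ▸ B.mul_mem hw.2 ht.2⟩
  inv_mem' := fun hw => ⟨on_inv hw.1, on_ci hx hw.1 a ▸ B.inv_mem hw.2⟩

theorem on_pu (hx : Sw x) (hs : Pu a s) : (x * s * x).left a = 1 := by
  have := (hs.conj x).2
  rwa [hx.1, neg_one_mul, neg_neg, ← on_cj hx] at this

theorem on_gd (hx : Sw x) (h1 : Gd c) (h2 : Pu (-a) c) : ¬ Scl ((x * c * x).left a).val := by
  have := (h1.conj x).left (h2.conj x)
  rwa [hx.1, neg_one_mul, neg_neg, ← on_cj hx] at this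

theorem Ok.tri (h : Ok s (x :: y :: R)) (hx : Sw x) (hy : Sw y) (hs : Pu a s) (hc : c ∈ R)
    (hc1 : Gd c) (hc2 : Pu (-a) c) (hZ : ¬ IsOfFinOrder ((x * y).left a)) :
    Commute (s.left a) ((x * y).left a) ∨ Commute ((y * c * y).left a) ((x * y).left a) ∨
      ∃ v, v ≠ 0 ∧ Eig (s.left a) v ∧ Eig ((x * y).left a) v ∧
        ∀ h ∈ gen R, h.right = 1 → Eig ((x * h * x).left a) v := by
  have hxy := on_ev hx hy
  have hZ' := on_scl h (mul_mem on_m1 on_m2) hZ
  refine or_iff_not_imp_left.2 fun nA => or_iff_not_imp_left.2 fun nC => ?_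
  have nC' : ¬ Commute ((x * c * x).left a) ((x * y).left a) := fun k => nC (by
    rw [show y * c * y = (x * y)⁻¹ * (x * c * x) * (x * y) by
      rw [on_cj hx c, _root_.mul_inv_rev, hy.inv]; group,
      ev_mul (on_mul (on_inv hxy) ((on_cjr hx c).trans hc1.1)), ev_mul (on_inv hxy), ev_inv hxy]
    exact ((Commute.refl _).inv_left.mul_left k).mul_left (Commute.refl _))
  have arc := fun c' R' (k : Hur R (c' :: R')) (e : c'.right = 1) =>
    ((h.hur (k.app_left [x, y])).arc hx hy e hs hZ).resolve_left nA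
  obtain ⟨R₁, k₁⟩ := hur_first hc
  obtain ⟨v, hv, v1, v2, v3⟩ := (arc c R₁ k₁ hc1.1).resolve_left nC'
  refine ⟨v, hv, v1, v2, fun g hg eg => ?_⟩
  have h1 : ∀ g ∈ gen R, g.right = 1 → Eig ((x * g * x).left a * (x * c * x).left a *
      ((x * g * x).left a)⁻¹) v := fun g hg eg => by
    have := conj_mem_of_first (onB a hx (stV v)) (c := c) (Y := R₁) (fun c' Y' k e => by
      obtain ⟨γ, rfl⟩ := isConj_iff.1 e
      have e' := (conj_r γ c).trans hc1.1
      refine ⟨e', ?_⟩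
      rcases arc _ Y' (k₁.trans k) e' with k' | ⟨u, hu, u1, u2, u3⟩
      · exact eig_of_comm hZ' k' v2
      · exact u3.par hu (by_contra fun h0 => nA (comm_of_eig2 h0 u1 v1 u2 v2))) g (k₁.gen ▸ hg)
    have := this.2
    rwa [on_cm hx (on_mul eg hc1.1), on_cm hx eg, on_ci hx eg] at this
  have hp := h.prod
  have e1 : R.prod = (x * y)⁻¹ * (s⁻¹ * (s :: x :: y :: R).prod) := by
    simp only [List.prod_cons]; group
  have e2 : R.prod.right = 1 := by
    rw [e1]; exact on_mul (on_inv hxy) (on_mul (on_inv hs.1) hp.1)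
  have e3 : (x * R.prod * x).left a =
      (x * y).left a * (x * (s :: x :: y :: R).prod * x).left a := by
    rw [e1, on_cm hx (on_inv hxy), on_cm hx (on_inv hs.1), on_ci hx hs.1, on_pu hx hs, inv_one,
      one_mul, _root_.mul_inv_rev, hy.inv, ← mul_assoc, inv_mul_cancel_right]
  have e4 : Scl ((x * (s :: x :: y :: R).prod * x).left a).val := by
    obtain ⟨e, he⟩ := hp.2 (x.right * a)
    refine ⟨e, ?_⟩
    rw [on_cj hx, conj_l hp.1, Units.val_mul, Units.val_mul, he, Matrix.mul_smul, mul_one,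
      Matrix.smul_mul, Units.mul_inv]
  have hm : R.prod ∈ gen R := list_prod_mem fun _ hr => mem_gen hr
  refine on_two (on_gd hx hc1 hc2) hv v3 (h1 g hg eg) (P := (x * R.prod * x).left a) ?_ ?_ ?_
  · rw [← on_cm hx eg]
    exact h1 _ (mul_mem hg hm) (on_mul eg e2)
  · rw [e3]
    exact (stV v).mul_mem v2 (on_stV e4 v)
  · rw [e3]
    obtain ⟨e, he⟩ := e4
    refine fun k => nC' ?_
    rw [← mul_inv_cancel_right ((x * y).left a) ((x * (s :: x :: y :: R).prod * x).left a)]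
    refine k.mul_right (Commute.inv_right (Units.ext ?_))
    rw [Units.val_mul, Units.val_mul, he, Matrix.mul_smul, Matrix.smul_mul, mul_one, one_mul]

variable {B : Subgroup (GLr 2)}

theorem on_sheet (a b : ℤˣ) : b = a ∨ b = -a := by
  rcases Int.units_eq_one_or a with rfl | rfl <;> rcases Int.units_eq_one_or b with rfl | rfl <;>
    simp

/-- One exchange of the list in the frame group and the blocks on the other sheet are enough. -/
theorem on_fr (hg : Sw g) (ht : Sw t) (hL : ∀ r ∈ t :: L, Ty r) (h1 : (g * t).left a ∈ B)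
    (h2 : ∀ h ∈ gen (t :: L), h.right = 1 → (g * h * g).left a ∈ B) :
    ∀ r ∈ t :: L, r ∈ Fr a g B := by
  have hm : t ∈ gen (t :: L) := mem_gen List.mem_cons_self
  have h3 : ∀ h ∈ gen (t :: L), h.right = 1 → h ∈ Fr a g B := fun h hh e => by
    refine (fr_even hg e).2 ⟨?_, h2 h hh e⟩
    have := h2 _ (mul_mem (mul_mem hm hh) hm) ((on_cjr ht h).trans e)
    rw [show g * (t * h * t) * g = g * t * (h * (g * t)⁻¹) by
      rw [_root_.mul_inv_rev, hg.inv, ht.inv]; group, ev_mul (on_ev hg ht), ev_mul e,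
      ev_inv (on_ev hg ht)] at this
    exact (B.mul_mem_cancel_right (B.inv_mem h1)).1 ((B.mul_mem_cancel_left h1).1 this)
  intro r hr
  by_cases e : r.right = 1
  · exact h3 r (mem_gen hr) e
  · exact ((Fr a g B).mul_mem_cancel_right ((fr_odd hg ht).2 h1)).1
      (h3 _ (mul_mem (mem_gen hr) hm) (on_ev ((hL r hr).sw e) ht))

theorem on_prim (h : Ok s R) {E : Mt 2} (hg : Sw g) (hE : E.trace = 0) (hB : B ≤ stE E)
    (h1 : ∀ r ∈ s :: R, r ∈ Fr a g B) : E = 0 :=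
  h.prim a E hE fun _ hw e => hB ((fr_even hg e).1 (gen_le.2 h1 hw)).1

theorem on_odd (hx : Sw x) : odd (x :: R) = odd R + 1 := by
  simp [odd, hx.1]

theorem on_ex (ht : ∀ r ∈ R, Ty r) (h : 1 ≤ odd R) : ∃ g ∈ R, Sw g := by
  obtain ⟨g, hg, e⟩ := List.countP_pos_iff.1 h
  refine ⟨g, hg, (ht g hg).sw ?_⟩
  rw [of_decide_eq_true e]
  decide

theorem on_ng (hx : Sw x) (h : Gd x) : False := absurd (hx.1.symm.trans h.1) (by decide)

/-- The twists of a dual curve. -/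
theorem Ok.dual (h : Ok s (x :: y :: z :: R)) (hx : Sw x) (hy : Sw y) (hz : Sw z) (hs : Pu a s)
    (hZ : ¬ IsOfFinOrder ((x * y).left a)) :
    (y * z).left a ∈ stE (tl ((x * y).left a).val) := by
  have hxy := on_ev hx hy
  have ht : ∀ r ∈ R, Ty r := fun r hr => h.typ r (by simp [hr])
  obtain ⟨c, R', k₀, hc1, hc2⟩ := exists_side ht (by
    obtain ⟨c, hc, e⟩ := h.gd
    simp only [List.mem_cons] at hc
    rcases hc with rfl | rfl | rfl | hc
    exacts [(on_ng hx e).elim, (on_ng hy e).elim, (on_ng hz e).elim, ⟨c, hc, e⟩])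
    (on_ex ht (by have := h.cnt; rw [on_odd hx, on_odd hy, on_odd hz] at this; omega)) (-a)
  replace h := h.hur (k₀.app_left [x, y, z])
  have hd := h.det (mul_mem on_m1 on_m2) a
  have e : ∀ k, (x * (x * y) ^ (k + 1) * z).left a =
      ((x * y).left a ^ k)⁻¹ * (y * z).left a := fun k => by
    obtain ⟨e1, e2⟩ := ev_pow hxy k a
    rw [on_tw' hx hy, mul_assoc, ev_mul (on_inv e1), ev_inv e1, e2]
  obtain ⟨T, hT, h1⟩ := h.expo
  refine (lemZ hd hZ hT fun k => e k ▸ h1 _ (mul_mem (mul_mem on_m1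
    (pow_mem (mul_mem on_m1 on_m2) _)) on_m3) a).elim id fun hK => ?_
  have st : ∀ k, Ok s ((x * (x * y) ^ (k + 1)) :: z ::
      (z⁻¹ * (x * (x * y) ^ (k + 1 + 1)) * z) :: c :: R') := fun k => by
    rw [← on_step hx hy k]
    exact (h.half hx hy k).hur (Hur.left (A := [_]) (Hur.left (A := []) (Hur.refl _)))
  have hs' := h.gs.left hs
  obtain ⟨k, -, l, -, hkl, h2⟩ := pigeon hs' hK fun k hk => by
    have := (st k).tri (on_sw hx hy _) hz hs (by simp) hc1 hc2 (e k ▸ hk)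
    rw [e k] at this
    exact this
  rcases h2 with ⟨k1, k2⟩ | ⟨k1, k2⟩ | ⟨v, u, hv, hu, h0, v1, ⟨v2, v3⟩, u2, -⟩
  · exact comm_stE (two_comm hd hZ hs' hkl k1 k2)
  · exact comm_stE (two_comm hd hZ (on_gd hz hc1 hc2) hkl k1 k2)
  have v4 := two_eig hd hZ hkl v2 (u2.par hu (on_wd h0))
  obtain ⟨E, hE, E1, E2⟩ := stV_le hv
  have hg := on_sw hx hy (k + 1)
  have hg' := on_sw hx hy (k + 1 + 1)
  refine absurd (on_prim (a := a) (st k) hg E1 E2 (List.forall_mem_cons.2 ⟨(fr_even hg hs.1).2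
    ⟨v1, on_pu hg hs ▸ one_mem _⟩, List.forall_mem_cons.2 ⟨fr_self hg, List.forall_mem_cons.2
    ⟨(fr_odd hg hz).2 (e k ▸ v2), on_fr hg (by simpa using hg'.conj z⁻¹)
      (fun r hr => (st k).typ r (by simp only [List.mem_cons] at hr ⊢; tauto)) ?_ v3⟩⟩⟩)) hE
  rw [hz.inv, mul_assoc z, ← mul_assoc, ev_mul (on_ev hg hz), e, e, pow_succ,
    _root_.mul_inv_rev, mul_assoc ((x * y).left a)⁻¹]
  exact mul_mem v2 (mul_mem (inv_mem v4) v2)

theorem Ok.adj0 (h : Ok s (x :: y :: R)) (hx : Sw x) (hy : Sw y) : IsOfFinOrder (x * y) := by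
  obtain ⟨a, hs, -⟩ := h.side
  refine fin_sw (a := a) hx hy (by_contra fun hZ => ?_)
  have ht : ∀ r ∈ R, Ty r := fun r hr => h.typ r (by simp [hr])
  set F := Fr a y (stE (tl ((x * y).left a).val))
  have h1 : ∀ z R', Hur R (z :: R') → Sw z → z ∈ F := fun z R' k hz =>
    (fr_odd hy hz).2 ((h.hur (k.app_left [x, y])).dual hx hy hz hs hZ)
  obtain ⟨g, hg, hg'⟩ := on_ex ht (by have := h.cnt; rw [on_odd hx, on_odd hy] at this; omega)
  obtain ⟨R₁, k₁⟩ := hur_first hg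
  have h2 := conj_mem_of_first F (c := g) (Y := R₁) fun c' Y' k e => by
    obtain ⟨γ, rfl⟩ := isConj_iff.1 e
    exact h1 _ _ (k₁.trans k) (hg'.conj γ)
  have h3 : ∀ r ∈ R, r ∈ F := fun r hr => by
    by_cases e : r.right = 1
    · obtain ⟨b, hb⟩ := (ht r hr).pu e
      have e' := on_mul e ((on_cjr hg' _).trans (on_inv e))
      have h4 := mul_mem (h2 r (k₁.gen ▸ mem_gen hr)) (h1 _ _ k₁ hg') b
      rw [show r * g * r⁻¹ * g = r * (g * r⁻¹ * g) by group, e', ev_mul e, on_ci hg' e,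
        on_pu hg' hb, inv_one, mul_one] at h4
      intro b'
      rw [e]
      rcases on_sheet b b' with rfl | rfl
      · exact h4
      · rw [hb.2, one_mul, mul_one, inv_mul_cancel]
        exact one_mem _
    · obtain ⟨R', k⟩ := hur_first hr
      exact h1 _ _ k ((ht r hr).sw e)
  have h4 : ∀ r ∈ x :: y :: R, r ∈ F := List.forall_mem_cons.2 ⟨(fr_odd hy hx).2 (by
    rw [show y * x = (x * y)⁻¹ by rw [_root_.mul_inv_rev, hx.inv, hy.inv], ev_inv (on_ev hx hy)]
    exact inv_mem (comm_stE (Commute.refl _))), List.forall_mem_cons.2 ⟨fr_self hy, h3⟩⟩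
  refine on_scl h (mul_mem on_m1 on_m2) hZ (scl_of_tl (on_prim h hy (tl_trace _) le_rfl
    (List.forall_mem_cons.2 ⟨?_, h4⟩)))
  exact (F.mul_mem_cancel_right (list_prod_mem h4)).1 (fr_sc (fun _ hu => scl_stE hu _) h.prod)

theorem Ok.adj (h : Ok s R) {A B : List W2} (h' : Hur (s :: R) (A ++ x :: y :: B)) (hx : Sw x)
    (hy : Sw y) : IsOfFinOrder (x * y) := by
  obtain ⟨s', γ, R', k⟩ := h.front h' hx hy
  have := k.adj0 (hx.conj γ) (hy.conj γ)
  rw [show γ * x * γ⁻¹ * (γ * y * γ⁻¹) = γ * (x * y) * γ⁻¹ by group] at this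
  exact (isConj_of γ rfl).symm.isOfFinOrder this

end Pool.Agent.GR.RC
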