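import Pool.Agent.Lib.MP_aa40d3_nt.RC.Fin

/-! Removing the condition on the determinants. -/

open Matrix

namespace Pool.Agent.GR.RC

open GC FB

variable {s x y : W2} {R : List W2}

instance scl_normal : Sc.Normal :=
  ⟨fun x hx γ => ⟨(conj_r γ x).trans hx.1, fun a => by
    rw [conj_l hx.1]
    exact mov_scl (hx.2 _)⟩⟩

/-- The class modulo scalar blocks. -/
abbrev cl : W2 →* W2 ⧸ Sc := QuotientGroup.mk' Sc

theorem scl_rel : cl x = cl y ↔ x.right = y.right ∧ ∀ a, Scl (x.left a * (y.left a)⁻¹).val := by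
  have h1 : x.right = y.right → ∀ a, (x * y⁻¹).left a = x.left a * (y.left a)⁻¹ := fun h a => by
    rw [mul_l, inv_l, h, ← mul_assoc, Int.units_mul_self, one_mul]
  have h2 : (x * y⁻¹).right = 1 ↔ x.right = y.right := by
    rw [mul_r, inv_r, mul_eq_one_iff_eq_inv, Int.units_inv_eq_self]
  refine (QuotientGroup.eq_iff_div_mem.trans (by rw [div_eq_mul_inv])).trans ?_
  exact ⟨fun h => ⟨h2.1 h.1, fun a => h1 (h2.1 h.1) a ▸ h.2 a⟩,
    fun h => ⟨h2.2 h.1, fun a => (h1 h.1 a).symm ▸ h.2 a⟩⟩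

theorem scl_mul {u v : GLr 2} (hu : Scl u.val) (hv : Scl v.val) : Scl (u * v).val := by
  obtain ⟨c, hc⟩ := hu
  obtain ⟨e, he⟩ := hv
  exact ⟨c * e, by rw [Units.val_mul, hc, he, smul_mul_assoc, one_mul, smul_smul]⟩

theorem scl_gd (h : cl x = cl y) (hx : Gd x) : Gd y := by
  obtain ⟨h1, h2⟩ := scl_rel.1 h
  obtain ⟨h3, a, h4⟩ := hx
  exact ⟨h1 ▸ h3, a, fun h5 => h4 (by simpa using scl_mul (h2 a) h5)⟩

theorem scl_fin (h : cl x = cl y) (hx : IsOfFinOrder x) (hy : y ∈ SL) : IsOfFinOrder y := by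
  obtain ⟨n, hn, e⟩ := isOfFinOrder_iff_pow_eq_one.1 hx
  have h1 : y ^ n ∈ Sc := (QuotientGroup.eq_one_iff _).1 (by
    change cl (y ^ n) = 1
    rw [map_pow, ← h, ← map_pow, e, map_one])
  have h2 : y ^ n ∈ SL := pow_mem hy n
  refine IsOfFinOrder.of_pow (fin_of_l h1.1 fun a => ?_) hn.ne'
  obtain ⟨c, hc⟩ := h1.2 a
  have h3 := h2 a
  rw [hc, det_smul, det_one, mul_one, Fintype.card_fin] at h3
  refine isOfFinOrder_iff_pow_eq_one.2 ⟨2, two_pos, Units.ext ?_⟩
  rw [Units.val_pow_eq_pow_val, hc, smul_pow, h3, one_pow, one_smul, Units.val_one]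

theorem scl_unit (u : GLr 2) :
    ∃ v : GLr 2, v.val.det = 1 ∧ Scl (v * u⁻¹).val ∧ Scl (v⁻¹ * u).val := by
  have h0 : u.val.det ≠ 0 := ((isUnit_iff_isUnit_det _).1 u.isUnit).ne_zero
  obtain ⟨c, hc⟩ := IsAlgClosed.exists_pow_nat_eq u.val.det two_pos
  have h1 : c ≠ 0 := fun h => h0 (by rw [← hc, h, zero_pow two_ne_zero])
  let z : GLr 2 := ⟨c⁻¹ • 1, c • 1, by simp [smul_smul, h1], by simp [smul_smul, h1]⟩
  refine ⟨z * u, ?_, ⟨c⁻¹, by rw [mul_inv_cancel_right]⟩, ?_⟩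
  · rw [Units.val_mul, det_mul, ← hc]
    change (c⁻¹ • (1 : Mt 2)).det * _ = 1
    rw [det_smul, det_one, mul_one, Fintype.card_fin, ← mul_pow, inv_mul_cancel₀ h1, one_pow]
  · simpa only [_root_.mul_inv_rev, inv_inv] using mov_scl (u := u⁻¹) (v := z⁻¹) ⟨c, rfl⟩

theorem scl_norm (x : W2) : ∃ y, Ty x → cl x = cl y ∧ y ∈ SL ∧ Ty y := by
  by_cases h : Ty x
  swap
  · exact ⟨x, fun k => absurd k h⟩
  rcases h with h | ⟨a, h⟩
  · obtain ⟨v, h1, h2, h3⟩ := scl_unit (x.left 1)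
    have h4 : v⁻¹.val.det = 1 := by
      have : (v.val * v⁻¹.val).det = 1 := by rw [Units.mul_inv, det_one]
      rwa [det_mul, h1, one_mul] at this
    refine ⟨⟨fun b => if b = 1 then v else v⁻¹, -1⟩, fun _ => ⟨(scl_rel.2 ⟨h.1.symm,
      (mov_fr 1).2 ⟨h2, ?_⟩⟩).symm, (mov_fr 1).2 ⟨h1, h4⟩, .inl ⟨rfl, ?_⟩⟩⟩
    · rw [eq_inv_of_mul_eq_one_right (h.left 1), inv_inv]
      exact h3
    · refine RegularWreathProduct.ext (funext ((mov_fr 1).2 ⟨?_, ?_⟩)) rfl
      · exact mul_inv_cancel v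
      · exact inv_mul_cancel v
  · obtain ⟨v, h1, h2, -⟩ := scl_unit (x.left a)
    refine ⟨⟨fun b => if b = a then v else 1, 1⟩, fun _ => ⟨(scl_rel.2 ⟨h.1.symm,
      (mov_fr a).2 ⟨?_, ?_⟩⟩).symm, (mov_fr a).2 ⟨?_, ?_⟩, .inr ⟨a, rfl, if_neg (mov_ne a)⟩⟩⟩
    · simpa only [if_true] using h2
    · exact ⟨1, by simp [h.2]⟩
    · simpa only [if_true] using h1
    · simp

theorem scl_gen (l : List W2) : (gen l).map cl = gen (l.map cl) := by
  rw [gen, MonoidHom.map_closure, gen]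
  congr 1
  ext t
  simp

/-- Multiply each member by an element of `Sc` so that the blocks get determinant one and the type
is kept; `Hur.lift_rel` carries `pair` over; then `Ok.finite`, and both lists have the same image
in the quotient by the normal subgroup `Sc`. -/
theorem Ok0.index (h : Ok0 s R) : (Sc.subgroupOf (gen (s :: R))).FiniteIndex := by
  choose f hf using scl_norm
  have h1 : ∀ x ∈ s :: R, cl x = cl (f x) := fun x hx => (hf x (h.typ x hx)).1
  have h2 : ∀ y ∈ f s :: R.map f, ∃ x ∈ s :: R, f x = y := fun y hy =>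
    List.mem_map.1 (show y ∈ (s :: R).map f from hy)
  have h3 : ∀ y ∈ f s :: R.map f, y ∈ SL := fun y hy => by
    obtain ⟨x, hx, rfl⟩ := h2 y hy
    exact (hf x (h.typ x hx)).2.1
  have h4 : (s :: R).map cl = (f s :: R.map f).map cl := by
    rw [← List.map_cons, List.map_map]
    exact List.map_congr_left h1
  have h5 : (gen (s :: R)).map cl = (gen (f s :: R.map f)).map cl := by
    rw [scl_gen, scl_gen, h4]
  have h6 : Ok (f s) (R.map f) := by
    refine ⟨⟨fun y hy => ?_, fun y hy => ?_, scl_gd (h1 s List.mem_cons_self) h.gs, ?_, ?_, ?_,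
      fun A x y B k1 k2 => ?_, fun a E k1 k2 => h.prim a E k1 fun w k3 k4 => ?_⟩, h3⟩
    · obtain ⟨x, hx, rfl⟩ := h2 y hy
      exact scl_fin (h1 x hx) (h.fin x hx) (h3 _ hy)
    · obtain ⟨x, hx, rfl⟩ := h2 y hy
      exact (hf x (h.typ x hx)).2.2
    · obtain ⟨c, k1, k2⟩ := h.gd
      exact ⟨f c, List.mem_map_of_mem k1, scl_gd (h1 c (List.mem_cons_of_mem _ k1)) k2⟩
    · refine h.cnt.trans (le_of_eq ?_)
      rw [odd, odd, List.countP_map]
      refine List.countP_congr fun x hx => ?_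
      rw [Function.comp_apply, (scl_rel.1 (h1 x (List.mem_cons_of_mem _ hx))).1]
    · refine (QuotientGroup.eq_one_iff _).1 ?_
      change cl _ = 1
      rw [map_list_prod, ← h4, ← map_list_prod]
      exact (QuotientGroup.eq_one_iff _).2 h.prod
    · have k3 : List.Forall₂ (fun t u : W2 × Mk => t.2 = u.2 ∧ cl t.1 = cl u.1) (mkl s R)
          (mkl (f s) (R.map f)) := by
        refine .cons ⟨rfl, h1 s List.mem_cons_self⟩ ?_
        rw [List.map_map, List.forall₂_map_left_iff, List.forall₂_map_right_iff]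
        exact List.forall₂_same.2 fun z hz => ⟨rfl, h1 z (List.mem_cons_of_mem _ hz)⟩
      obtain ⟨l', k4, k5⟩ := Hur.lift_rel (fun t u t' u' e e' => by
        simp only [Prod.fst_mul, Prod.snd_mul, Prod.fst_inv, Prod.snd_inv, map_mul, map_inv, e.1,
          e.2, e'.1, e'.2, and_self]) k3 k1
      obtain ⟨l₁, l₂, t, u, rfl, -, e1, e2, -⟩ := lift_split₂ k5
      have k6 : IsOfFinOrder (t * u).1 :=
        h.pair l₁ t u l₂ k4 (k2.imp (fun e => e1.1.trans e) fun e => e2.1.trans e)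
      have k7 := (hur_fst k1).gen
      rw [mov_fst] at k7
      have k8 : ∀ m ∈ A ++ x :: y :: B, m.1 ∈ SL := fun m hm =>
        gen_le.2 h3 (k7 ▸ mem_gen (List.mem_map_of_mem hm))
      refine scl_fin ?_ k6 (mul_mem (k8 x (by simp)) (k8 y (by simp)))
      rw [Prod.fst_mul, Prod.fst_mul, map_mul, map_mul, e1.2, e2.2]
    · obtain ⟨w', k5, k6⟩ := Subgroup.mem_map.1 (h5 ▸ Subgroup.mem_map_of_mem cl k3)
      obtain ⟨k7, k8⟩ := scl_rel.1 k6.symm
      obtain ⟨c, hc⟩ := k8 a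
      have k9 : w.left a * (w'.left a)⁻¹ ∈ stE E :=
        ⟨1, by rw [hc, smul_mul_assoc, mul_smul_comm, one_mul, mul_one, one_smul]⟩
      simpa using mul_mem k9 (k2 w' k5 (k7 ▸ k4))
  have h7 := h6.finite
  have h8 : Finite ((gen (s :: R)).map cl) := by
    rw [h5]
    exact Finite.of_surjective _ (cl.subgroupMap_surjective _)
  refine ⟨?_⟩
  have h9 := Subgroup.relIndex_ker (gen (s :: R)) cl
  rw [QuotientGroup.ker_mk'] at h9
  exact h9.trans_ne Nat.card_pos.ne'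

end Pool.Agent.GR.RC
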