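import Pool.Agent.Lib.MP_aa40d3_nt.GE.Stmt

/-! Definitions used in the statement: exponents, free points, primitivity, determinant. -/

open Polynomial Matrix
open scoped Polynomial.Bivariate

namespace Pool.Agent.GR.RC

open Pool.Agent.GR.CV Pool.Agent.GR.GE Pool.Agent.Lib.MP_a01f70_lc.QQ

variable {F : Type} [Field F] [Algebra ℂ F]

/-- On the branch `x, y`, in the frame `G`, the system has a simple pole, and the eigenvalues of
the residue differ by a number that is not an integer. -/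
def Exp (S : CV.Sys ℂ 2) (x y : LaurentSeries ℂ) : Prop :=
  ∃ (G B : Matrix (Fin 2) (Fin 2) (LaurentSeries ℂ)) (a b : ℂ), G.det ≠ 0 ∧
    (∀ i j, ∀ k < 0, (B i j).coeff k = 0) ∧
    (B.map fun u => u.coeff 0).charpoly = (X - C a) * (X - C b) ∧ (∀ z : ℤ, a - b ≠ z) ∧
    aeval x S.D • (sL • G.map (LaurentSeries.derivative ℂ) + G * B) =
      (sL * LaurentSeries.derivative ℂ x) • (S.A.map (aevalAeval x y) * G)

/-- The value at `p₀` of some function is transcendental over a field that contains the branch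
values of the function and its values at the other points of `Σ`. -/
def Free (Sg : Finset (Place ℂ F)) (p₀ : Place ℂ F) : Prop :=
  ∃ (z : F) (c₀ : ℂ) (K : IntermediateField ℚ ℂ), Transcendental K c₀ ∧
    0 < p₀.ord (z - algebraMap ℂ F c₀) ∧ ∀ (p : Place ℂ F) (c : ℂ),
      2 ≤ p.ord (z - algebraMap ℂ F c) ∨ (p ∈ Sg ∧ p ≠ p₀ ∧ 0 < p.ord (z - algebraMap ℂ F c)) →
        c ∈ K

/-- A commutative algebra of matrices over `F` that is stable under the connection induced on
endomorphisms consists of scalar matrices. -/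
def PrimF (S : CV.Sys ℂ 2) (x y : F) : Prop :=
  ∀ (δ : Derivation ℂ F F) (W : Subalgebra F (Matrix (Fin 2) (Fin 2) F)), δ ≠ 0 →
    (∀ Φ ∈ W, aeval x S.D • Φ.map δ -
      δ x • (S.A.map (aevalAeval x y) * Φ - Φ * S.A.map (aevalAeval x y)) ∈ W) →
    (∀ Φ ∈ W, ∀ Ψ ∈ W, Φ * Ψ = Ψ * Φ) → W = ⊥

/-- A power of the determinant of the system has a solution in `F`. -/
def DetO (S : CV.Sys ℂ 2) (x y : F) : Prop :=
  ∃ (m : ℕ) (h : F), 0 < m ∧ h ≠ 0 ∧ ∀ δ : Derivation ℂ F F,
    aeval x S.D * δ h = m * δ x * (S.A.map (aevalAeval x y)).trace * h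

end Pool.Agent.GR.RC
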