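import Pool.Agent.Lib.MP_aa40d3_nt.RC.DZ

/-! Matrices of size two. -/

open Matrix

namespace Pool.Agent.GR.RC

variable {s c x y Z : GLr 2} {u v w : Fin 2 → ℂ}

/-- The determinant of two vectors. -/
def wd (v w : Fin 2 → ℂ) : ℂ := v 0 * w 1 - v 1 * w 0

theorem par (hv : v ≠ 0) (h : wd v w = 0) : ∃ a : ℂ, w = a • v := by
  rw [wd] at h
  by_cases h0 : v 0 = 0
  · have h1 : v 1 ≠ 0 := fun h1 => hv (by ext i; fin_cases i <;> simp [h0, h1])
    have h2 : w 0 = 0 := by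
      rw [h0, zero_mul, zero_sub, neg_eq_zero] at h
      exact (mul_eq_zero.1 h).resolve_left h1
    exact ⟨w 1 / v 1, by ext i; fin_cases i <;> simp [h0, h1, h2]⟩
  · refine ⟨w 0 / v 0, ?_⟩
    ext i
    fin_cases i
    · simp [h0]
    · simp only [Fin.mk_one, Pi.smul_apply, smul_eq_mul]
      rw [div_mul_eq_mul_div, eq_div_iff h0]
      linear_combination h

theorem Eig.par (h : Eig x v) (hv : v ≠ 0) (hw : wd v w = 0) : Eig x w := by
  obtain ⟨t, rfl⟩ := RC.par hv hw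
  obtain ⟨a, ha⟩ := h
  exact ⟨a, by rw [mulVec_smul, ha, smul_comm]⟩

theorem fin_scl (hd : x.val.det = 1) (h : Scl x.val) : IsOfFinOrder x := by
  obtain ⟨a, hc⟩ := h
  refine isOfFinOrder_iff_pow_eq_one.2 ⟨2, two_pos, Units.ext ?_⟩
  rw [hc, det_smul, det_one, mul_one, Fintype.card_fin] at hd
  rw [pow_two, Units.val_mul, hc, Matrix.smul_mul, one_mul, smul_smul, ← pow_two, hd, one_smul,
    Units.val_one]

theorem two_nf (hd : x.val.det = 1) (h : IsOfFinOrder x) : ∃ (g : GLr 2) (l : ℂ), IsOfFinOrder l ∧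
    l ≠ 0 ∧ (g⁻¹ * x * g).val = !![l, 0; 0, l⁻¹] := by
  obtain ⟨g, l, b, hl, hb, e⟩ := dz_nf x hd
  obtain ⟨n, hn, h1⟩ := isOfFinOrder_iff_pow_eq_one.1 h
  have h2 : ((g⁻¹ * x * g) ^ n).val = 1 := by
    rw [dz_conj_pw, h1, mul_one, inv_mul_cancel, Units.val_one]
  rcases hb with rfl | hb
  · rw [(dz_pow_diag hl e n).1] at h2
    exact ⟨g, l, isOfFinOrder_iff_pow_eq_one.2 ⟨n, hn, congrFun (congrFun h2 0) 0⟩, hl, e⟩
  · have hl2 : l * l = 1 := by nth_rewrite 2 [hb]; exact mul_inv_cancel₀ hl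
    have e' := e
    rw [← hb] at e'
    rw [(dz_pow_uni hl2 e' n).1] at h2
    have h3 : l ^ n * (n * (l * b)) = 0 := congrFun (congrFun h2 0) 1
    have h4 : b = 0 := by simpa [hl, hn.ne'] using h3
    exact ⟨g, l, isOfFinOrder_iff_pow_eq_one.2 ⟨2, two_pos, by rw [pow_two, hl2]⟩, hl, h4 ▸ e⟩

theorem two_tr {g : GLr 2} {l : ℂ} (e : (g⁻¹ * x * g).val = !![l, 0; 0, l⁻¹]) :
    tU x = l + l⁻¹ := by
  rw [tU, ← dz_conj_tr g, e, trace_fin_two_of]

theorem two_scl {g : GLr 2} {l : ℂ} (e : (g⁻¹ * x * g).val = !![l, 0; 0, l⁻¹]) (h : l = l⁻¹) :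
    Scl x.val := by
  refine ⟨l, ?_⟩
  have h1 : (g⁻¹ * x * g).val = l • 1 := by
    rw [e, ← h]
    ext i j
    fin_cases i <;> fin_cases j <;> simp
  rw [show x = g * (g⁻¹ * x * g) * g⁻¹ by group, Units.val_mul, Units.val_mul, h1,
    Matrix.mul_smul, Matrix.smul_mul, mul_one, Units.mul_inv]

theorem cy_of_fin (hd : x.val.det = 1) (h : IsOfFinOrder x) : Cy (tU x) := by
  obtain ⟨g, l, h1, -, e⟩ := two_nf hd h
  exact ⟨l, h1, two_tr e⟩

theorem fin_par (hd : x.val.det = 1) (h : IsOfFinOrder x) (ht : tU x ^ 2 = 4) : Scl x.val := by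
  obtain ⟨g, l, -, hl, e⟩ := two_nf hd h
  rw [two_tr e] at ht
  refine two_scl e (sub_eq_zero.1 (pow_eq_zero_iff two_ne_zero |>.1 ?_))
  linear_combination ht - 4 * mul_inv_cancel₀ hl

/-- An element of finite order that is not scalar is diagonal in some basis. -/
theorem fin_diag (hd : x.val.det = 1) (h : IsOfFinOrder x) (hs : ¬ Scl x.val) :
    ∃ (ζ : ℂ) (g : GLr 2), IsOfFinOrder ζ ∧ ζ ≠ ζ⁻¹ ∧ (g * x * g⁻¹).val = !![ζ, 0; 0, ζ⁻¹] := by
  obtain ⟨g, l, h1, -, e⟩ := two_nf hd h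
  exact ⟨l, g⁻¹, h1, fun h2 => hs (two_scl e h2), by rwa [inv_inv]⟩

theorem two_lin (hZ : ¬ Scl Z.val) (hx : Commute x Z) :
    ∃ a b : ℂ, x.val = a • 1 + b • Z.val := by
  have h3 : x.val * Z.val = Z.val * x.val := by rw [← Units.val_mul, hx.eq, Units.val_mul]
  have a1 := congrFun (congrFun h3 0) 0
  have a2 := congrFun (congrFun h3 0) 1
  have a3 := congrFun (congrFun h3 1) 0
  simp only [Matrix.mul_apply, Fin.sum_univ_two] at a1 a2 a3
  have key : ∀ b : ℂ, x.val 0 1 = b * Z.val 0 1 → x.val 1 0 = b * Z.val 1 0 →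
      x.val 0 0 - x.val 1 1 = b * (Z.val 0 0 - Z.val 1 1) → ∃ a b : ℂ, x.val = a • 1 + b • Z.val :=
    fun b h1 h2 h4 => ⟨x.val 0 0 - b * Z.val 0 0, b, by
      ext i j
      fin_cases i <;> fin_cases j <;> simp [h1, h2]
      linear_combination -h4⟩
  by_cases p : Z.val 0 1 = 0
  · by_cases q : Z.val 1 0 = 0
    · have r : Z.val 0 0 - Z.val 1 1 ≠ 0 := fun r => hZ ⟨Z.val 0 0, by
        ext i j
        fin_cases i <;> fin_cases j <;> simp [p, q, sub_eq_zero.1 r]⟩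
      rw [p] at a2
      rw [q] at a3
      refine key ((x.val 0 0 - x.val 1 1) / (Z.val 0 0 - Z.val 1 1)) ?_ ?_
        (div_mul_cancel₀ _ r).symm
      · rw [p, mul_zero]
        exact mul_left_cancel₀ r (by linear_combination -a2)
      · rw [q, mul_zero]
        exact mul_left_cancel₀ r (by linear_combination a3)
    · have e := div_mul_cancel₀ (x.val 1 0) q
      refine key (x.val 1 0 / Z.val 1 0) (mul_left_cancel₀ q ?_) e.symm (mul_left_cancel₀ q ?_)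
      · linear_combination a1 - Z.val 0 1 * e
      · linear_combination -a3 - (Z.val 0 0 - Z.val 1 1) * e
  · have e := div_mul_cancel₀ (x.val 0 1) p
    refine key (x.val 0 1 / Z.val 0 1) e.symm (mul_left_cancel₀ p ?_) (mul_left_cancel₀ p ?_)
    · linear_combination -a1 - Z.val 1 0 * e
    · linear_combination a2 - (Z.val 0 0 - Z.val 1 1) * e

theorem comm_trans (hZ : ¬ Scl Z.val) (hx : Commute x Z) (hy : Commute y Z) : Commute x y := by
  obtain ⟨a, b, e⟩ := two_lin hZ hx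
  refine Units.ext ?_
  rw [Units.val_mul, Units.val_mul, e, Matrix.add_mul, Matrix.mul_add, Matrix.smul_mul,
    Matrix.smul_mul, Matrix.mul_smul, Matrix.mul_smul, one_mul, mul_one, ← Units.val_mul,
    ← Units.val_mul, hy.eq]

theorem eig_of_comm (hZ : ¬ Scl Z.val) (hx : Commute x Z) (h : Eig Z v) : Eig x v := by
  obtain ⟨a, b, e⟩ := two_lin hZ hx
  obtain ⟨t, ht⟩ := h
  exact ⟨a + b * t, by
    rw [e, add_mulVec, smul_mulVec, smul_mulVec, one_mulVec, ht, smul_smul, add_smul]⟩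

theorem comm_of_eig2 (h : wd v w ≠ 0) (h1 : Eig x v) (h2 : Eig x w) (h3 : Eig y v)
    (h4 : Eig y w) : Commute x y := by
  have key : ∀ w, Eig x w → Eig y w → (x * y).val.mulVec w = (y * x).val.mulVec w :=
    fun w ⟨a, ha⟩ ⟨b, hb⟩ => by
      rw [Units.val_mul, Units.val_mul, ← mulVec_mulVec, ← mulVec_mulVec, ha, hb, mulVec_smul,
        mulVec_smul, ha, hb, smul_comm]
  rw [wd] at h
  refine Units.ext ?_
  ext i j
  have a0 := congrFun (key v h1 h3) i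
  have b0 := congrFun (key w h2 h4) i
  simp only [mulVec, dotProduct, Fin.sum_univ_two] at a0 b0
  refine mul_left_cancel₀ h ?_
  fin_cases j
  · simp only [Fin.zero_eta]
    linear_combination w 1 * a0 - v 1 * b0
  · simp only [Fin.mk_one]
    linear_combination v 0 * b0 - w 0 * a0

theorem eig_three (hx : ¬ Scl x.val) (h : wd v w ≠ 0) (h1 : Eig x v) (h2 : Eig x w)
    (h3 : Eig x u) : wd v u = 0 ∨ wd w u = 0 := by
  by_contra hn
  obtain ⟨n2, n3⟩ := not_or.1 hn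
  obtain ⟨a, ha⟩ := h1
  obtain ⟨b, hb⟩ := h2
  obtain ⟨c, hc⟩ := h3
  have a0 := congrFun ha 0
  have a1 := congrFun ha 1
  have b0 := congrFun hb 0
  have b1 := congrFun hb 1
  have c0 := congrFun hc 0
  have c1 := congrFun hc 1
  simp only [mulVec, dotProduct, Fin.sum_univ_two, Pi.smul_apply, smul_eq_mul] at a0 a1 b0 b1 c0 c1
  rw [wd] at h n2 n3
  have t2 : a + c = x.val 0 0 + x.val 1 1 := mul_left_cancel₀ n2 (by
    linear_combination -u 1 * a0 + u 0 * a1 + v 1 * c0 - v 0 * c1)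
  have t3 : b + c = x.val 0 0 + x.val 1 1 := mul_left_cancel₀ n3 (by
    linear_combination -u 1 * b0 + u 0 * b1 + w 1 * c0 - w 0 * c1)
  have e : b = a := by linear_combination t3 - t2
  subst e
  refine hx ⟨b, ?_⟩
  have d0 : x.val 0 0 = b := mul_left_cancel₀ h (by linear_combination w 1 * a0 - v 1 * b0)
  have d1 : x.val 0 1 = 0 := mul_left_cancel₀ h (by linear_combination v 0 * b0 - w 0 * a0)
  have d2 : x.val 1 0 = 0 := mul_left_cancel₀ h (by linear_combination w 1 * a1 - v 1 * b1)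
  have d3 : x.val 1 1 = b := mul_left_cancel₀ h (by linear_combination v 0 * b1 - w 0 * a1)
  ext i j
  fin_cases i <;> fin_cases j <;> simp [d0, d1, d2, d3]

theorem comm_stE (h : Commute y Z) : y ∈ stE (tl Z.val) := ⟨1, by
  rw [tl, Matrix.mul_sub, Matrix.sub_mul, ← Units.val_mul, h.eq, Units.val_mul, one_smul,
    Matrix.mul_smul, Matrix.smul_mul, mul_one, one_mul]⟩

theorem scl_stE (h : Scl y.val) (E : Mt 2) : y ∈ stE E := by
  obtain ⟨a, h⟩ := h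
  exact ⟨1, by rw [h, Matrix.smul_mul, Matrix.mul_smul, one_mul, mul_one, one_smul]⟩

theorem tl_trace (X : Mt 2) : (tl X).trace = 0 := by
  rw [tl, trace_sub, trace_smul, trace_one]
  simp

theorem scl_of_tl {X : Mt 2} (h : tl X = 0) : Scl X := ⟨_, sub_eq_zero.1 h⟩

theorem stV_le (hv : v ≠ 0) : ∃ E : Mt 2, E ≠ 0 ∧ E.trace = 0 ∧ stV v ≤ stE E := by
  refine ⟨!![-(v 0 * v 1), v 0 * v 0; -(v 1 * v 1), v 0 * v 1], fun h => hv ?_,
    by simp [trace_fin_two], fun g ⟨a, ha⟩ => ?_⟩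
  · have h0 : v 0 * v 0 = 0 := congrFun (congrFun h 0) 1
    have h1 : -(v 1 * v 1) = 0 := congrFun (congrFun h 1) 0
    ext i
    fin_cases i
    · exact mul_self_eq_zero.1 h0
    · exact mul_self_eq_zero.1 (neg_eq_zero.1 h1)
  · have h0 := congrFun ha 0
    have h1 := congrFun ha 1
    simp only [mulVec, dotProduct, Fin.sum_univ_two, Pi.smul_apply, smul_eq_mul] at h0 h1
    have hd := ((isUnit_iff_isUnit_det _).1 g.isUnit).ne_zero
    rw [det_fin_two] at hd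
    refine ⟨a * a / (g.val 0 0 * g.val 1 1 - g.val 0 1 * g.val 1 0), ?_⟩
    ext i j
    fin_cases i <;> fin_cases j <;>
      simp [Matrix.mul_apply, Fin.sum_univ_two, vecMul, dotProduct] <;>
      rw [div_mul_eq_mul_div, eq_div_iff hd]
    · linear_combination (-(v 1 * (g.val 0 0 * g.val 1 1 - g.val 0 1 * g.val 1 0)) +
        a * v 0 * g.val 1 0) * h0 - a * v 0 * g.val 0 0 * h1
    · linear_combination (v 0 * (g.val 0 0 * g.val 1 1 - g.val 0 1 * g.val 1 0) -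
        a * v 0 * -g.val 1 1) * h0 - a * v 0 * g.val 0 1 * h1
    · linear_combination (-(v 1 * (g.val 0 0 * g.val 1 1 - g.val 0 1 * g.val 1 0)) +
        a * v 1 * -g.val 0 0) * h1 + a * v 1 * g.val 1 0 * h0
    · linear_combination (v 0 * (g.val 0 0 * g.val 1 1 - g.val 0 1 * g.val 1 0) -
        a * v 1 * g.val 0 1) * h1 + a * v 1 * g.val 1 1 * h0

theorem two_nscl (hd : Z.val.det = 1) (hZ : ¬ IsOfFinOrder Z) {k l : ℕ} (hkl : k ≠ l) :
    ¬ Scl ((Z ^ k)⁻¹ * y * ((Z ^ l)⁻¹ * y)⁻¹).val ∧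
      Commute Z ((Z ^ k)⁻¹ * y * ((Z ^ l)⁻¹ * y)⁻¹) := by
  have e : (Z ^ k)⁻¹ * y * ((Z ^ l)⁻¹ * y)⁻¹ = Z ^ ((l : ℤ) - k) := by group
  rw [e]
  refine ⟨fun h => hZ ?_, (Commute.refl Z).zpow_right _⟩
  have h1 : (Z ^ ((l : ℤ) - k)).val.det = 1 := by
    have h2 : Units.map (detMonoidHom (n := Fin 2) (R := ℂ)) Z = 1 := Units.ext hd
    have h3 := congrArg Units.val (map_zpow (Units.map (detMonoidHom (n := Fin 2) (R := ℂ))) Z
      ((l : ℤ) - k))
    rwa [h2, _root_.one_zpow] at h3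
  obtain ⟨n, hn, h2⟩ := isOfFinOrder_iff_zpow_eq_one.1 (fin_scl h1 h)
  exact isOfFinOrder_iff_zpow_eq_one.2
    ⟨((l : ℤ) - k) * n, mul_ne_zero (by omega) hn, by rwa [_root_.zpow_mul]⟩

/-- Two twists that commute with a matrix that is not scalar. -/
theorem two_comm (hd : Z.val.det = 1) (hZ : ¬ IsOfFinOrder Z) (hx : ¬ Scl x.val) {k l : ℕ}
    (hkl : k ≠ l) (h1 : Commute x ((Z ^ k)⁻¹ * y)) (h2 : Commute x ((Z ^ l)⁻¹ * y)) :
    Commute y Z := by
  obtain ⟨h3, h4⟩ := two_nscl (y := y) hd hZ hkl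
  have h5 : Commute x Z := comm_trans h3 (h1.mul_right h2.inv_right) h4
  have h6 := (h5.pow_right k).mul_right h1
  rw [mul_inv_cancel_left] at h6
  exact comm_trans hx h6.symm h5.symm

/-- Two twists with a common eigenvector. -/
theorem two_eig (hd : Z.val.det = 1) (hZ : ¬ IsOfFinOrder Z) {k l : ℕ} (hkl : k ≠ l)
    (h1 : Eig ((Z ^ k)⁻¹ * y) v) (h2 : Eig ((Z ^ l)⁻¹ * y) v) : Eig Z v := by
  obtain ⟨h3, h4⟩ := two_nscl (y := y) hd hZ hkl
  exact eig_of_comm h3 h4 ((stV v).mul_mem h1 ((stV v).inv_mem h2))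

/-- Among infinitely many eigenvectors two are parallel, or one of two properties repeats. -/
theorem pigeon (hx : ¬ Scl x.val) {K : Set ℕ} (hK : K.Infinite) {P Q : ℕ → Prop}
    {V : ℕ → (Fin 2 → ℂ) → Prop} (h : ∀ k ∈ K, P k ∨ Q k ∨ ∃ v, v ≠ 0 ∧ Eig x v ∧ V k v) :
    ∃ k ∈ K, ∃ l ∈ K, k ≠ l ∧ ((P k ∧ P l) ∨ (Q k ∧ Q l) ∨
      ∃ v w, v ≠ 0 ∧ w ≠ 0 ∧ wd v w = 0 ∧ Eig x v ∧ V k v ∧ V l w) := by
  have h1 : ({k ∈ K | P k} ∪ ({k ∈ K | Q k} ∪
      {k ∈ K | ∃ v, v ≠ 0 ∧ Eig x v ∧ V k v})).Infinite := hK.mono fun k hk => by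
    rcases h k hk with h2 | h2 | h2
    exacts [.inl ⟨hk, h2⟩, .inr (.inl ⟨hk, h2⟩), .inr (.inr ⟨hk, h2⟩)]
  rcases Set.infinite_union.1 h1 with h2 | h2
  · obtain ⟨k, hk, l, hl, e⟩ := h2.nontrivial
    exact ⟨k, hk.1, l, hl.1, e, .inl ⟨hk.2, hl.2⟩⟩
  rcases Set.infinite_union.1 h2 with h2 | h2
  · obtain ⟨k, hk, l, hl, e⟩ := h2.nontrivial
    exact ⟨k, hk.1, l, hl.1, e, .inr (.inl ⟨hk.2, hl.2⟩)⟩
  obtain ⟨i, ⟨hi, a, a0, a1, a2⟩, j, ⟨hj, b, b0, b1, b2⟩, e⟩ := h2.nontrivial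
  obtain ⟨k, ⟨hk, c, c0, c1, c2⟩, hk'⟩ := h2.exists_notMem_finset {i, j}
  simp only [Finset.mem_insert, Finset.mem_singleton, not_or] at hk'
  by_cases h3 : wd a b = 0
  · exact ⟨i, hi, j, hj, e, .inr (.inr ⟨a, b, a0, b0, h3, a1, a2, b2⟩)⟩
  rcases eig_three hx h3 a1 b1 c1 with h4 | h4
  · exact ⟨i, hi, k, hk, Ne.symm hk'.1, .inr (.inr ⟨a, c, a0, c0, h4, a1, a2, c2⟩)⟩
  · exact ⟨j, hj, k, hk, Ne.symm hk'.2, .inr (.inr ⟨b, c, b0, c0, h4, b1, b2, c2⟩)⟩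

end Pool.Agent.GR.RC
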