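import Pool.Agent.Lib.MP_aa40d3_nt.RC.Two

/-! The invariant form and its sign. -/

open Matrix ComplexConjugate

namespace Pool.Agent.GR.RC

/-- The relation between the corners of two matrices that preserve a diagonal form. -/
def Cor (x y : GLr 2) : Prop := x.val 1 0 * y.val 0 1 = conj (x.val 0 1) * conj (y.val 1 0)

theorem Cor.symm {x y : GLr 2} (h : Cor x y) : Cor y x := by
  have := congrArg conj h
  simp only [map_mul, Complex.conj_conj] at this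
  unfold Cor
  linear_combination -this

theorem Cor.inv {x y : GLr 2} (hd : x.val.det = 1) (h : Cor x⁻¹ y) : Cor x y := by
  unfold Cor at h ⊢
  rw [inv_adj hd, adjugate_fin_two] at h
  simp only [of_apply, cons_val', cons_val_zero, cons_val_one, cons_val_fin_one, map_neg] at h
  linear_combination -h

theorem Cor.self {x : GLr 2} (hd : x.val.det = 1) (h : x.val 1 1 = conj (x.val 0 0)) :
    Cor x x := by
  rw [det_fin_two, h] at hd
  have := congrArg conj hd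
  simp only [map_sub, map_mul, Complex.conj_conj, map_one] at this
  unfold Cor
  linear_combination this - hd

/-- As `bdd_trace` without the sign. -/
theorem exists_form {K : Set (GLr 2)} {k : GLr 2} (hd : ∀ m ∈ K, m.val.det = 1)
    (h1 : ∀ m ∈ K, m.val 1 1 = conj (m.val 0 0)) (hk : k ∈ K)
    (hk' : k.val 0 1 ≠ 0 ∨ k.val 1 0 ≠ 0) (h2 : ∀ m ∈ K, m ≠ k → Cor m k)
    (hq : ∃ m ∈ K, m.val 0 1 ≠ 0) (hr : ∃ m ∈ K, m.val 1 0 ≠ 0) :
    ∃ δ : ℝ, δ ≠ 0 ∧ ∀ m ∈ K, m ∈ suD δ := by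
  have d2 : ∀ m ∈ K, m.val 1 0 * k.val 0 1 = conj (m.val 0 1) * conj (k.val 1 0) := fun m hm => by
    by_cases e : m = k
    · exact e ▸ Cor.self (hd m hm) (h1 m hm)
    · exact h2 m hm e
  have q0 : k.val 0 1 ≠ 0 := by
    intro h
    obtain ⟨l, hl, hl'⟩ := hq
    have h3 := d2 l hl
    rw [h, mul_zero, eq_comm, mul_eq_zero, map_eq_zero, map_eq_zero] at h3
    exact h3.elim hl' (hk'.resolve_left (not_not.2 h))
  have r0 : k.val 1 0 ≠ 0 := by
    intro h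
    obtain ⟨l, hl, hl'⟩ := hr
    have h3 := d2 l hl
    rw [h, map_zero, mul_zero, mul_eq_zero] at h3
    exact h3.elim hl' q0
  have q1 : conj (k.val 0 1) ≠ 0 := (map_ne_zero _).2 q0
  obtain ⟨δ, hδ⟩ : ∃ δ : ℝ, -(k.val 1 0) / conj (k.val 0 1) = δ := by
    refine ⟨_, (Complex.conj_eq_iff_re.1 ?_).symm⟩
    rw [map_div₀, map_neg, Complex.conj_conj, div_eq_div_iff q0 q1]
    linear_combination d2 k hk
  have d3 : k.val 1 0 = -δ * conj (k.val 0 1) := by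
    rw [← hδ]
    field_simp
  refine ⟨δ, fun h => r0 (by rw [d3, h]; simp), fun m hm => ⟨hd m hm, h1 m hm, ?_⟩⟩
  have h3 := d2 m hm
  rw [d3, map_mul, map_neg, Complex.conj_ofReal, Complex.conj_conj] at h3
  exact mul_right_cancel₀ q0 (by linear_combination h3)

/-- As `markov_bound`. -/
theorem markov_pairs {S : Set (ℝ × ℝ × ℝ)}
    (m1 : ∀ x y z, (x, y, z) ∈ S → (x, x * y - z, y) ∈ S)
    (m2 : ∀ x y z, (x, y, z) ∈ S → (x, z, x * z - y) ∈ S)
    (m3 : ∀ x y z, (x, y, z) ∈ S → (z, y, z * y - x) ∈ S)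
    (hb : ∀ x y z, (x, y, z) ∈ S → x ^ 2 ≤ 4 ∧ y ^ 2 ≤ 4 ∧ z ^ 2 ≤ 4)
    {x y z : ℝ} (h : (x, y, z) ∈ S) : x ^ 2 + y ^ 2 + z ^ 2 - x * y * z ≤ 4 := by
  set q := x ^ 2 + y ^ 2 + z ^ 2 - x * y * z with hq
  let T : Set (ℝ × ℝ × ℝ) :=
    {p | p ∈ S ∧ p.1 ^ 2 + p.2.1 ^ 2 + p.2.2 ^ 2 - p.1 * p.2.1 * p.2.2 = q}
  let K : Set (ℝ × ℝ × ℝ) :=
    {p | p.1 ^ 2 + p.2.1 ^ 2 + p.2.2 ^ 2 - p.1 * p.2.1 * p.2.2 = q} ∩
      Set.Icc (-2) 2 ×ˢ Set.Icc (-2) 2 ×ˢ Set.Icc (-2) 2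
  have hK : IsCompact K :=
    (isCompact_Icc.prod (isCompact_Icc.prod isCompact_Icc)).inter_left
      (isClosed_eq (by fun_prop) continuous_const)
  have hTK : T ⊆ K := by
    rintro ⟨u, v, t⟩ ⟨h1, h2⟩
    obtain ⟨b1, b2, b3⟩ := hb u v t h1
    exact ⟨h2, abs_le_of_sq_le_sq' (by linarith) (by norm_num),
      abs_le_of_sq_le_sq' (by linarith) (by norm_num),
      abs_le_of_sq_le_sq' (by linarith) (by norm_num)⟩
  have hC : closure T ⊆ K := closure_minimal hTK hK.isClosed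
  have hc : IsCompact (closure T) := hK.of_isClosed_subset isClosed_closure hC
  obtain ⟨p, hp, hmax⟩ := hc.exists_isMaxOn ⟨(x, y, z), subset_closure ⟨h, rfl⟩⟩
    (f := fun p : ℝ × ℝ × ℝ => p.1 ^ 2 + p.2.1 ^ 2 + p.2.2 ^ 2) (by fun_prop)
  have k1 : Set.MapsTo (fun p : ℝ × ℝ × ℝ => (p.1, p.1 * p.2.1 - p.2.2, p.2.1)) T T := by
    rintro ⟨u, v, t⟩ ⟨h1, h2⟩
    exact ⟨m1 u v t h1, by rw [← h2]; ring⟩
  have k2 : Set.MapsTo (fun p : ℝ × ℝ × ℝ => (p.1, p.2.2, p.1 * p.2.2 - p.2.1)) T T := by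
    rintro ⟨u, v, t⟩ ⟨h1, h2⟩
    exact ⟨m2 u v t h1, by rw [← h2]; ring⟩
  have k3 : Set.MapsTo (fun p : ℝ × ℝ × ℝ => (p.2.2, p.2.1, p.2.2 * p.2.1 - p.1)) T T := by
    rintro ⟨u, v, t⟩ ⟨h1, h2⟩
    exact ⟨m3 u v t h1, by rw [← h2]; ring⟩
  have n1 := hmax (k1.closure (by fun_prop) hp)
  have n2 := hmax (k2.closure (by fun_prop) hp)
  have n3 := hmax (k3.closure (by fun_prop) hp)
  obtain ⟨u, v, t⟩ := p
  obtain ⟨e, ⟨a1, a2⟩, ⟨a3, a4⟩, a5, a6⟩ := hC hp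
  simp only [Set.mem_ofPred_eq] at n1 n2 n3 e a1 a2 a3 a4 a5 a6
  rw [← e]
  have := markov_max (x := -u) (y := -v) (z := -t) (by nlinarith) (by nlinarith) (by nlinarith)
    (by linarith) (by linarith) (by linarith)
  linarith

theorem rcs_real {η a a' V W t N : ℝ} (hη : 0 < η) (hV : 0 ≤ V) (hW : 0 ≤ W) (ht : t ^ 2 ≤ V * W)
    (hN : 0 ≤ N) (e : a' ^ 2 * V - 2 * a * a' * t + a ^ 2 * W = -(η * N)) : N = 0 := by
  have h1 : (a * a' * t) ^ 2 ≤ ((a' ^ 2 * V + a ^ 2 * W) / 2) ^ 2 := by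
    nlinarith [sq_nonneg (a' ^ 2 * V - a ^ 2 * W), mul_le_mul_of_nonneg_left ht (sq_nonneg (a * a'))]
  have h2 := (abs_le_of_sq_le_sq' h1 (by positivity)).2
  have h3 : η * N ≤ 0 := by linarith
  exact le_antisymm (by nlinarith) hN

theorem suD_det {δ : ℝ} {X : GLr 2} (hX : X ∈ suD δ) :
    (X.val 0 0).re ^ 2 + (X.val 0 0).im ^ 2 + δ * ((X.val 0 1).re ^ 2 + (X.val 0 1).im ^ 2) = 1 := by
  obtain ⟨a1, a2, a3⟩ := hX
  rw [det_fin_two, a2, a3] at a1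
  have := congrArg Complex.re a1
  simp only [Complex.sub_re, Complex.mul_re, Complex.mul_im, Complex.conj_re, Complex.conj_im,
    Complex.neg_re, Complex.neg_im, Complex.ofReal_re, Complex.ofReal_im, Complex.one_re] at this
  linarith

theorem suD_tU {δ : ℝ} {X : GLr 2} (hX : X ∈ suD δ) : (tU X).re = 2 * (X.val 0 0).re := by
  rw [tU_eq, hX.2.1, Complex.add_re, Complex.conj_re, two_mul]

/-- With `p, q` the first row of `X` the vector `im p, q` has Lorentz square `1 - (re p)²`. -/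
theorem rev_cs {δ : ℝ} (hδ : δ < 0) {X Y : GLr 2} (hX : X ∈ suD δ) (hY : Y ∈ suD δ)
    (fX : IsOfFinOrder X) (fY : IsOfFinOrder Y)
    (h : (tU X).re ^ 2 + (tU Y).re ^ 2 + (tU (X * Y)).re ^ 2 -
      (tU X).re * (tU Y).re * (tU (X * Y)).re ≤ 4) :
    ((X.val 0 0).im : ℂ) * Y.val 0 1 = (Y.val 0 0).im * X.val 0 1 := by
  have b1 := (cy_of_fin hX.1 fX).rl.2
  have b2 := (cy_of_fin hY.1 fY).rl.2
  have d1 := suD_det hX
  have d2 := suD_det hY
  rw [suD_tU (mul_mem hX hY)] at h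
  rw [suD_tU hX] at h b1
  rw [suD_tU hY] at h b2
  simp only [Units.val_mul, Matrix.mul_apply, Fin.sum_univ_two, hY.2.2, Complex.add_re,
    Complex.mul_re, Complex.mul_im, Complex.conj_re, Complex.conj_im, Complex.neg_re,
    Complex.neg_im, Complex.ofReal_re, Complex.ofReal_im] at h
  generalize X.val 0 0 = p at *
  generalize X.val 0 1 = q at *
  generalize Y.val 0 0 = p' at *
  generalize Y.val 0 1 = q' at *
  have key := rcs_real (η := -δ) (a := p.im) (a' := p'.im) (V := 1 - p.re ^ 2) (W := 1 - p'.re ^ 2)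
    (t := p.im * p'.im + δ * (q.re * q'.re + q.im * q'.im))
    (N := (p.im * q'.re - p'.im * q.re) ^ 2 + (p.im * q'.im - p'.im * q.im) ^ 2)
    (by linarith) (by linarith) (by linarith) (by linarith) (by positivity)
    (by linear_combination (-p'.im ^ 2) * d1 - p.im ^ 2 * d2)
  have k1 : p.im * q'.re - p'.im * q.re = 0 := by
    nlinarith [sq_nonneg (p.im * q'.re - p'.im * q.re), sq_nonneg (p.im * q'.im - p'.im * q.im)]
  have k2 : p.im * q'.im - p'.im * q.im = 0 := by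
    nlinarith [sq_nonneg (p.im * q'.re - p'.im * q.re), sq_nonneg (p.im * q'.im - p'.im * q.im)]
  exact Complex.ext (by simpa using sub_eq_zero.1 k1) (by simpa using sub_eq_zero.1 k2)

theorem tU_inv_mul {X : GLr 2} (hd : X.val.det = 1) (Y : GLr 2) :
    tU (X⁻¹ * Y) = tU X * tU Y - tU (X * Y) := by
  rw [tU_mul, tU_mul, tU_eq, tU_eq, inv_adj hd, adjugate_fin_two]
  simp only [of_apply, cons_val', cons_val_zero, cons_val_one, cons_val_fin_one]
  ring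

/-- A set of pairs of elements of finite order that is closed under the moves of a handle. -/
theorem handle_diag {δ : ℝ} (hδ : δ < 0) {s : GLr 2} {ζ : ℂ} (hn : ‖ζ‖ = 1) (hζ : ζ ≠ ζ⁻¹)
    (hs : s.val = !![ζ, 0; 0, ζ⁻¹]) {P : GLr 2 → GLr 2 → Prop}
    (hP : ∀ X Y, P X Y → X ∈ suD δ ∧ Y ∈ suD δ ∧ IsOfFinOrder X ∧ IsOfFinOrder Y)
    (m1 : ∀ X Y, P X Y → P X (X⁻¹ * Y)) (m2 : ∀ X Y, P X Y → P X (X * Y))
    (m3 : ∀ X Y, P X Y → P (X * Y) Y) {X Y : GLr 2} (h1 : P X Y) (h2 : P (s * X) Y) :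
    Y.val 0 1 = 0 := by
  have him : ∀ Z ∈ suD δ, (tU Z).im = 0 := fun Z hZ => by
    rw [tU_eq, hZ.2.1, Complex.add_im, Complex.conj_im, add_neg_cancel]
  have hre : ∀ Z ∈ suD δ, ∀ Z' ∈ suD δ, (tU (Z⁻¹ * Z')).re =
      (tU Z).re * (tU Z').re - (tU (Z * Z')).re := fun Z hZ Z' hZ' => by
    rw [tU_inv_mul hZ.1, Complex.sub_re, Complex.mul_re, him Z hZ, zero_mul, sub_zero]
  have key : ∀ X Y, P X Y → ((X.val 0 0).im : ℂ) * Y.val 0 1 = (Y.val 0 0).im * X.val 0 1 := by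
    intro X Y h
    obtain ⟨a1, a2, a3, a4⟩ := hP X Y h
    refine rev_cs hδ a1 a2 a3 a4 (markov_pairs
      (S := {p | ∃ X Y, P X Y ∧ p = ((tU X).re, (tU Y).re, (tU (X * Y)).re)}) ?_ ?_ ?_ ?_
      ⟨X, Y, h, rfl⟩) <;> rintro x y z ⟨U, V, hUV, e⟩ <;> obtain ⟨b1, b2, b3, b4⟩ := hP U V hUV <;>
      simp only [Prod.mk.injEq] at e <;> obtain ⟨rfl, rfl, rfl⟩ := e
    · exact ⟨_, _, m1 U V hUV, by rw [hre U b1 V b2, mul_inv_cancel_left]⟩
    · have := hre U b1 _ (mul_mem b1 b2)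
      rw [inv_mul_cancel_left] at this
      exact ⟨_, _, m2 U V hUV, by rw [this, sub_sub_cancel]⟩
    · have := hre V b2 _ (mul_mem b1 b2)
      rw [tU_of (x := U) V⁻¹ (by group), tU_of (x := U * V * V) (y := V * (U * V)) V (by group),
        mul_comm] at this
      exact ⟨_, _, m3 U V hUV, by rw [this, sub_sub_cancel]⟩
    · obtain ⟨-, c2, -, c4⟩ := hP _ _ (m2 U V hUV)
      exact ⟨(cy_of_fin b1.1 b3).rl.2, (cy_of_fin b2.1 b4).rl.2, (cy_of_fin c2.1 c4).rl.2⟩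
  obtain ⟨a1, a2, -, a4⟩ := hP X Y h1
  have k1 := key X Y h1
  have k2 := key _ Y h2
  have e0 : (s * X).val 0 0 = ζ * X.val 0 0 := by simp [hs, vecMul, dotProduct, Fin.sum_univ_two]
  have e1 : (s * X).val 0 1 = ζ * X.val 0 1 := by simp [hs, vecMul, dotProduct, Fin.sum_univ_two]
  rw [e0, e1] at k2
  have hi : ζ.im ≠ 0 := fun h => hζ (by
    rw [Complex.inv_eq_conj hn]
    exact (Complex.conj_eq_iff_im.2 h).symm)
  by_contra hq
  have d1 := suD_det a1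
  have d2 := suD_det a2
  have b2 := (cy_of_fin a2.1 a4).rl.2
  rw [suD_tU a2] at b2
  have n0 : 0 < (Y.val 0 1).re ^ 2 + (Y.val 0 1).im ^ 2 := by
    have := Complex.normSq_pos.2 hq
    rw [Complex.normSq_apply] at this
    linarith
  have y0 : ((Y.val 0 0).im : ℂ) ≠ 0 := fun h => by
    rw [Complex.ofReal_eq_zero.1 h] at d2
    nlinarith
  have k3 : (((ζ * X.val 0 0).im : ℝ) : ℂ) = ζ * (X.val 0 0).im :=
    mul_right_cancel₀ hq (by linear_combination k2 - ζ * k1)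
  have k4 : (X.val 0 0).im = 0 := by
    have := congrArg Complex.im k3
    simp only [Complex.ofReal_im, Complex.mul_im, Complex.ofReal_re, mul_zero, zero_add] at this
    exact (mul_eq_zero.1 this.symm).resolve_left hi
  rw [k4, Complex.ofReal_zero, mul_zero, Complex.ofReal_eq_zero, Complex.mul_im, k4, mul_zero,
    zero_add] at k3
  rw [k4, Complex.ofReal_zero, zero_mul] at k1
  rw [k4, (mul_eq_zero.1 k3).resolve_left hi, (mul_eq_zero.1 k1.symm).resolve_left y0] at d1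
  simp at d1

end Pool.Agent.GR.RC
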